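import Pool.Agent.H469R2.NK.KL

set_option autoImplicit false

/-! # Waring's problem with a random exponent: the circle method

The number of solutions is compared with its mean value over a window. -/

namespace Pool.Agent.K7.H60.WE

open Finset MeasureTheory
open Pool.Agent.H469R2.NK (e norm_e e_add conj_e e_zero)

lemma e_cont (k : ℝ) : Continuous fun α : ℝ => e (α * k) := by
  unfold e
  fun_prop

lemma e_orth (k : ℤ) : ∫ α in (-1 / 2 : ℝ)..(1 / 2), e (α * k) = if k = 0 then 1 else 0 := by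
  split_ifs with h
  · subst h
    simp only [Int.cast_zero, mul_zero, e_zero, intervalIntegral.integral_const]
    norm_num
  · have hk : (k : ℂ) ≠ 0 := by exact_mod_cast h
    have hc : (2 * Real.pi * k * Complex.I : ℂ) ≠ 0 := by
      simp [hk, Real.pi_ne_zero, Complex.I_ne_zero]
    have e1 : (fun α : ℝ => e (α * k)) =
        fun α : ℝ => Complex.exp ((2 * Real.pi * k * Complex.I : ℂ) * α) := by
      funext α
      unfold e
      congr 1
      push_cast
      ring
    rw [e1, integral_exp_mul_complex hc]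
    have e2 : (2 * Real.pi * k * Complex.I : ℂ) * ((1 / 2 : ℝ) : ℂ) =
        (2 * Real.pi * k * Complex.I : ℂ) * ((-1 / 2 : ℝ) : ℂ) + k * (2 * Real.pi * Complex.I) := by
      push_cast
      ring
    rw [e2, Complex.exp_add, Complex.exp_int_mul_two_pi_mul_I, mul_one, sub_self, zero_div]

lemma norm_e_sub_one (x : ℝ) : ‖e x - 1‖ ≤ 2 * Real.pi * |x| := by
  unfold e
  have h := Real.norm_exp_I_mul_ofReal_sub_one_le (x := 2 * Real.pi * x)
  rw [mul_comm Complex.I] at h
  refine h.trans ?_
  rw [Real.norm_eq_abs, abs_mul, abs_of_pos (by positivity : (0 : ℝ) < 2 * Real.pi)]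

section

variable {ι : Type*} (I : Finset ℕ) (v : ℕ → ℕ) (w : ℕ → ℝ) (B : Finset ι) (S : ι → ℕ)

/-- the sum over the special variable -/
noncomputable def TT (α : ℝ) : ℂ := ∑ x ∈ I, (w x : ℂ) * e (α * v x)

/-- the sum over the other variables -/
noncomputable def GG (α : ℝ) : ℂ := ∑ y ∈ B, e (α * S y)

/-- the weighted number of solutions -/
noncomputable def RR (n : ℕ) : ℝ :=
  ∑ x ∈ I, ∑ y ∈ B, ∑ z ∈ B, if v x + S y + S z = n then w x else 0

/-- the number of pairs with the same sum -/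
noncomputable def NN : ℝ := ∑ y ∈ B, ∑ z ∈ B, if S y = S z then (1 : ℝ) else 0

lemma TT_cont : Continuous (TT I v w) := by
  unfold TT
  exact continuous_finsetSum _ fun x _ => continuous_const.mul (e_cont _)

lemma GG_cont : Continuous (GG B S) := by
  unfold GG
  exact continuous_finsetSum _ fun x _ => e_cont _

lemma RR_eq (n : ℕ) : (RR I v w B S n : ℂ) =
    ∫ α in (-1 / 2 : ℝ)..(1 / 2), TT I v w α * GG B S α ^ 2 * e (α * (-(n : ℝ))) := by
  have h1 : ∀ α : ℝ, TT I v w α * GG B S α ^ 2 * e (α * (-(n : ℝ))) =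
      ∑ x ∈ I, ∑ y ∈ B, ∑ z ∈ B, (w x : ℂ) *
        e (α * (((v x + S y + S z : ℕ) : ℤ) - (n : ℤ) : ℤ)) := by
    intro α
    unfold TT GG
    rw [sq, sum_mul_sum, sum_mul_sum, sum_mul]
    apply sum_congr rfl
    intro x _
    rw [sum_mul]
    apply sum_congr rfl
    intro y _
    rw [mul_sum, sum_mul]
    apply sum_congr rfl
    intro z _
    have e1 : α * (((((v x + S y + S z : ℕ) : ℤ) - (n : ℤ) : ℤ)) : ℝ) =
        α * v x + (α * S y + α * S z) + α * (-(n : ℝ)) := by
      push_cast
      ring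
    rw [e1, e_add, e_add, e_add]
    ring
  simp_rw [h1]
  rw [intervalIntegral.integral_finsetSum (fun x _ => by
    apply Continuous.intervalIntegrable
    exact continuous_finsetSum _ fun y _ => continuous_finsetSum _ fun z _ =>
      continuous_const.mul (e_cont _))]
  unfold RR
  push_cast
  apply sum_congr rfl
  intro x _
  rw [intervalIntegral.integral_finsetSum (fun y _ => by
    apply Continuous.intervalIntegrable
    exact continuous_finsetSum _ fun z _ => continuous_const.mul (e_cont _))]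
  apply sum_congr rfl
  intro y _
  rw [intervalIntegral.integral_finsetSum (fun z _ => by
    apply Continuous.intervalIntegrable
    exact continuous_const.mul (e_cont _))]
  apply sum_congr rfl
  intro z _
  have e3 : ((v x : ℝ) + S y + S z - n) = ((((v x + S y + S z : ℕ) : ℤ) - (n : ℤ) : ℤ) : ℝ) := by
    push_cast
    ring
  rw [intervalIntegral.integral_const_mul, e3, e_orth]
  by_cases h : v x + S y + S z = n
  · rw [if_pos h, if_pos (by rw [h]; ring), mul_one]
  · rw [if_neg h, if_neg (by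
      intro h2
      apply h
      have : ((v x + S y + S z : ℕ) : ℤ) = n := by linarith
      exact_mod_cast this), mul_zero]
    norm_num

lemma GG_sq : ∫ α in (-1 / 2 : ℝ)..(1 / 2), ‖GG B S α‖ ^ 2 = NN B S := by
  have h1 : ∀ α : ℝ, ((‖GG B S α‖ ^ 2 : ℝ) : ℂ) =
      ∑ y ∈ B, ∑ z ∈ B, e (α * ((S y : ℤ) - (S z : ℤ) : ℤ)) := by
    intro α
    rw [← Complex.normSq_eq_norm_sq, ← Complex.mul_conj]
    unfold GG
    rw [map_sum, sum_mul_sum]
    apply sum_congr rfl
    intro y _
    apply sum_congr rfl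
    intro z _
    rw [conj_e, ← e_add]
    congr 1
    push_cast
    ring
  have h2 : ((∫ α in (-1 / 2 : ℝ)..(1 / 2), ‖GG B S α‖ ^ 2 : ℝ) : ℂ) = (NN B S : ℂ) := by
    rw [← intervalIntegral.integral_ofReal]
    simp_rw [h1]
    rw [intervalIntegral.integral_finsetSum (fun y _ => by
      apply Continuous.intervalIntegrable
      exact continuous_finsetSum _ fun z _ => e_cont _)]
    unfold NN
    push_cast
    apply sum_congr rfl
    intro y _
    rw [intervalIntegral.integral_finsetSum (fun z _ => by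
      apply Continuous.intervalIntegrable
      exact e_cont _)]
    apply sum_congr rfl
    intro z _
    have e3 : ((S y : ℝ) - S z) = (((S y : ℤ) - (S z : ℤ) : ℤ) : ℝ) := by
      push_cast
      ring
    rw [e3, e_orth]
    by_cases h : S y = S z
    · rw [if_pos h, if_pos (by rw [h]; ring)]
      norm_num
    · rw [if_neg h, if_neg (by
        intro h3
        apply h
        have : (S y : ℤ) = S z := by linarith
        exact_mod_cast this)]
      norm_num
  exact_mod_cast h2

lemma TT_norm_le (hw : ∀ x ∈ I, 0 ≤ w x) (α : ℝ) : ‖TT I v w α‖ ≤ ∑ x ∈ I, w x := by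
  unfold TT
  refine (norm_sum_le _ _).trans (sum_le_sum fun x hx => ?_)
  rw [norm_mul, norm_e, mul_one, Complex.norm_real, Real.norm_of_nonneg (hw x hx)]

lemma GG_norm_le (α : ℝ) : ‖GG B S α‖ ≤ B.card := by
  unfold GG
  refine (norm_sum_le _ _).trans ?_
  simp [norm_e]

/-- the kernel -/
noncomputable def DD (H : ℕ) (α : ℝ) : ℂ := (∑ h ∈ range H, e (α * (-(h : ℝ)))) / H - 1

lemma DD_cont (H : ℕ) : Continuous (DD H) := by
  unfold DD
  exact ((continuous_finsetSum _ fun h _ => e_cont _).div_const _).sub continuous_const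

lemma DD_le_two {H : ℕ} (hH : 1 ≤ H) (α : ℝ) : ‖DD H α‖ ≤ 2 := by
  unfold DD
  have hH' : (0 : ℝ) < H := by exact_mod_cast hH
  refine (norm_sub_le _ _).trans ?_
  rw [norm_div, Complex.norm_natCast, norm_one]
  have : ‖∑ h ∈ range H, e (α * (-(h : ℝ)))‖ ≤ H := by
    refine (norm_sum_le _ _).trans ?_
    simp [norm_e]
  have : ‖∑ h ∈ range H, e (α * (-(h : ℝ)))‖ / H ≤ 1 := by
    rw [div_le_one hH']
    exact this
  linarith

lemma DD_small {H : ℕ} (hH : 1 ≤ H) (α : ℝ) : ‖DD H α‖ ≤ 2 * Real.pi * H * |α| := by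
  have hH' : (0 : ℝ) < H := by exact_mod_cast hH
  have e1 : DD H α = (∑ h ∈ range H, (e (α * (-(h : ℝ))) - 1)) / H := by
    unfold DD
    rw [sum_sub_distrib]
    simp only [sum_const, card_range, nsmul_eq_mul, mul_one]
    have : (H : ℂ) ≠ 0 := by exact_mod_cast hH'.ne'
    field_simp
  rw [e1, norm_div, Complex.norm_natCast, div_le_iff₀ hH']
  refine (norm_sum_le _ _).trans ?_
  calc ∑ h ∈ range H, ‖e (α * (-(h : ℝ))) - 1‖ ≤ ∑ h ∈ range H, 2 * Real.pi * H * |α| := by
        apply sum_le_sum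
        intro h hh
        refine (norm_e_sub_one _).trans ?_
        have hh0 : (0 : ℝ) ≤ h := Nat.cast_nonneg h
        rw [abs_mul, abs_neg, abs_of_nonneg hh0]
        have : (h : ℝ) ≤ H := by exact_mod_cast (mem_range.mp hh).le
        calc 2 * Real.pi * (|α| * h) ≤ 2 * Real.pi * (|α| * H) := by gcongr
          _ = _ := by ring
    _ = 2 * Real.pi * H * |α| * H := by
        rw [sum_const, card_range, nsmul_eq_mul]
        ring

theorem circle (hw : ∀ x ∈ I, 0 ≤ w x) (n H : ℕ) (hH : 1 ≤ H) (δ W₁ : ℝ) (hδ : 0 ≤ δ)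
    (hW₁ : 0 ≤ W₁) (hmin : ∀ α : ℝ, |α| ≤ 1 / 2 → δ ≤ |α| → ‖TT I v w α‖ ≤ W₁) :
    |(∑ h ∈ range H, RR I v w B S (n + h)) / H - RR I v w B S n| ≤
      2 * W₁ * NN B S + (∑ x ∈ I, w x) * (B.card : ℝ) ^ 2 * (2 * Real.pi * H * δ) * (2 * δ) := by
  have hH' : (0 : ℝ) < H := by exact_mod_cast hH
  have hHc : (H : ℂ) ≠ 0 := by exact_mod_cast hH'.ne'
  set F : ℝ → ℂ := fun α => TT I v w α * GG B S α ^ 2 * e (α * (-(n : ℝ))) * DD H α with hF
  have hFc : Continuous F :=
    (((TT_cont I v w).mul ((GG_cont B S).pow 2)).mul (e_cont _)).mul (DD_cont H)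
  have key : (((∑ h ∈ range H, RR I v w B S (n + h)) / H - RR I v w B S n : ℝ) : ℂ) =
      ∫ α in (-1 / 2 : ℝ)..(1 / 2), F α := by
    push_cast
    have h1 : ∀ h : ℕ, (RR I v w B S (n + h) : ℂ) =
        ∫ α in (-1 / 2 : ℝ)..(1 / 2), TT I v w α * GG B S α ^ 2 * e (α * (-((n + h : ℕ) : ℝ))) :=
      fun h => RR_eq I v w B S (n + h)
    simp_rw [h1]
    rw [RR_eq]
    rw [← intervalIntegral.integral_finsetSum (fun h _ => by
      apply Continuous.intervalIntegrable
      exact ((TT_cont I v w).mul ((GG_cont B S).pow 2)).mul (e_cont _)),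
      ← intervalIntegral.integral_div, ← intervalIntegral.integral_sub]
    · congr 1
      funext α
      have e1 : ∀ h : ℕ, e (α * (-((n + h : ℕ) : ℝ))) = e (α * (-(n : ℝ))) * e (α * (-(h : ℝ))) := by
        intro h
        rw [← e_add]
        congr 1
        push_cast
        ring
      simp_rw [e1, ← mul_assoc, ← mul_sum]
      rw [hF]
      simp only [DD]
      ring
    · apply Continuous.intervalIntegrable
      exact (continuous_finsetSum _ fun h _ =>
        ((TT_cont I v w).mul ((GG_cont B S).pow 2)).mul (e_cont _)).div_const _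
    · apply Continuous.intervalIntegrable
      exact ((TT_cont I v w).mul ((GG_cont B S).pow 2)).mul (e_cont _)
  set W₀ := ∑ x ∈ I, w x with hW₀
  have hW₀0 : 0 ≤ W₀ := sum_nonneg hw
  set C : ℝ := W₀ * (B.card : ℝ) ^ 2 * (2 * Real.pi * H * δ) with hC
  have hC0 : 0 ≤ C := by positivity
  set g : ℝ → ℝ := fun α => 2 * W₁ * ‖GG B S α‖ ^ 2 + (Set.Icc (-δ) δ).indicator (fun _ => C) α
    with hg
  have hbound : ∀ α ∈ Set.Ioc (-1 / 2 : ℝ) (1 / 2), ‖F α‖ ≤ g α := by
    intro α hα
    have ha2 : |α| ≤ 1 / 2 := abs_le.mpr ⟨by linarith [hα.1], hα.2⟩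
    rw [hF, hg]
    simp only [norm_mul, norm_pow, norm_e, mul_one]
    have hD2 := DD_le_two hH α
    have hDs := DD_small hH α
    have hT := TT_norm_le I v w hw α
    have hG := GG_norm_le B S α
    rcases le_or_gt |α| δ with h | h
    · rw [Set.indicator_of_mem (by
        rw [Set.mem_Icc]
        exact abs_le.mp h)]
      have h1 : ‖DD H α‖ ≤ 2 * Real.pi * H * δ := by
        refine hDs.trans ?_
        gcongr
      have h2 : ‖TT I v w α‖ * ‖GG B S α‖ ^ 2 * ‖DD H α‖ ≤ C := by
        rw [hC]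
        gcongr
      have h3 : 0 ≤ 2 * W₁ * ‖GG B S α‖ ^ 2 := by positivity
      linarith
    · have h1 := hmin α ha2 h.le
      have h2 : ‖TT I v w α‖ * ‖GG B S α‖ ^ 2 * ‖DD H α‖ ≤ W₁ * ‖GG B S α‖ ^ 2 * 2 := by
        gcongr
      have h3 : 0 ≤ (Set.Icc (-δ) δ).indicator (fun _ => C) α :=
        Set.indicator_nonneg (fun _ _ => hC0) α
      linarith
  have hgint1 : IntervalIntegrable (fun α => 2 * W₁ * ‖GG B S α‖ ^ 2) volume (-1 / 2) (1 / 2) := by
    apply Continuous.intervalIntegrable
    exact continuous_const.mul ((GG_cont B S).norm.pow 2)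
  have hgi : Integrable ((Set.Icc (-δ) δ).indicator (fun _ : ℝ => C)) volume := by
    rw [integrable_indicator_iff measurableSet_Icc]
    exact integrableOn_const (by simp) (by simp)
  have hgint2 : IntervalIntegrable ((Set.Icc (-δ) δ).indicator (fun _ : ℝ => C)) volume
      (-1 / 2) (1 / 2) := hgi.intervalIntegrable
  have h1 : ‖∫ α in (-1 / 2 : ℝ)..(1 / 2), F α‖ ≤ ∫ α in (-1 / 2 : ℝ)..(1 / 2), g α := by
    apply intervalIntegral.norm_integral_le_of_norm_le (by norm_num)
    · exact ae_of_all _ fun α hα => hbound α hα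
    · exact hgint1.add hgint2
  have h2 : ∫ α in (-1 / 2 : ℝ)..(1 / 2), g α ≤ 2 * W₁ * NN B S + C * (2 * δ) := by
    rw [hg, intervalIntegral.integral_add hgint1 hgint2, intervalIntegral.integral_const_mul, GG_sq]
    have h3 : ∫ α in (-1 / 2 : ℝ)..(1 / 2), (Set.Icc (-δ) δ).indicator (fun _ : ℝ => C) α ≤
        C * (2 * δ) := by
      rw [intervalIntegral.integral_of_le (by norm_num)]
      calc ∫ α in Set.Ioc (-1 / 2 : ℝ) (1 / 2), (Set.Icc (-δ) δ).indicator (fun _ : ℝ => C) α ≤
          ∫ α, (Set.Icc (-δ) δ).indicator (fun _ : ℝ => C) α :=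
            setIntegral_le_integral hgi (ae_of_all _ fun α =>
              Set.indicator_nonneg (fun _ _ => hC0) α)
        _ = C * (2 * δ) := by
            rw [integral_indicator measurableSet_Icc, setIntegral_const]
            simp only [measureReal_def, Real.volume_Icc, smul_eq_mul]
            rw [ENNReal.toReal_ofReal (by linarith)]
            ring
    linarith
  calc |(∑ h ∈ range H, RR I v w B S (n + h)) / H - RR I v w B S n| =
      ‖(((∑ h ∈ range H, RR I v w B S (n + h)) / H - RR I v w B S n : ℝ) : ℂ)‖ := by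
        rw [Complex.norm_real, Real.norm_eq_abs]
    _ ≤ _ := by
        rw [key]
        exact h1.trans h2

end

end Pool.Agent.K7.H60.WE
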