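import Pool.Agent.K7.H60.WE.Fl
import Pool.Agent.K7.H60.WE.Ci

set_option autoImplicit false

/-! # Waring's problem with a random exponent: bounds for the weighted sums with integral parts -/

namespace Pool.Agent.K7.H60.WE

open Finset Filter
open Pool.Agent.H469R2.NK (e norm_e e_add conj_e e_zero norm_sum_neg)

lemma shift_half (L : ℕ) (y : ℕ → ℝ) (β : ℝ) :
    ‖∑ n ∈ range L, e (β * (y n - 1 / 2))‖ = ‖∑ n ∈ range L, e (β * y n)‖ := by
  have : ∑ n ∈ range L, e (β * (y n - 1 / 2)) = e (-(β / 2)) * ∑ n ∈ range L, e (β * y n) := by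
    rw [mul_sum]
    apply sum_congr rfl
    intro n _
    rw [← e_add]
    congr 1
    ring
  rw [this, norm_mul, norm_e, one_mul]

lemma win {X : ℕ} {c E : ℝ} (hE : 0 ≤ E) (hpt : ∀ β : ℝ, 1 ≤ |β| → |β| ≤ X → ∀ (u : ℝ) (L : ℕ),
    (X : ℝ) ≤ u → u + L ≤ 4 * X → ‖∑ n ∈ range L, e (β * (u + n) ^ c)‖ ≤ E) {H : ℕ} (hH : 1 ≤ H)
    (hHX : H ≤ X) (u : ℕ) (L : ℕ) (hu : X ≤ u) (huL : u + L ≤ 4 * X) :
    |∑ n ∈ range L, wt H c (u + n) - L| ≤ H * E := by
  have hH' : (0 : ℝ) < H := by exact_mod_cast hH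
  have hHc : (H : ℂ) ≠ 0 := by exact_mod_cast hH'.ne'
  have h1 := FJ_expand H L (fun n => ((u + n : ℕ) : ℝ) ^ c - 1 / 2) 0
  simp only [zero_mul, e_zero, mul_one, add_zero] at h1
  have h2 : ((∑ n ∈ range L, wt H c (u + n) - L : ℝ) : ℂ) =
      (∑ h ∈ range H, ∑ h' ∈ range H, if h = h' then 0 else
        ∑ n ∈ range L, e (((h : ℝ) - h') * (((u + n : ℕ) : ℝ) ^ c - 1 / 2))) / H := by
    rw [Complex.ofReal_sub, Complex.ofReal_sum, Complex.ofReal_natCast]
    unfold wt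
    have h3 : ∀ h ∈ range H, ∀ h' ∈ range H,
        ∑ n ∈ range L, e (((h : ℝ) - h') * (((u + n : ℕ) : ℝ) ^ c - 1 / 2)) =
        (if h = h' then 0 else
          ∑ n ∈ range L, e (((h : ℝ) - h') * (((u + n : ℕ) : ℝ) ^ c - 1 / 2))) +
          (if h = h' then (L : ℂ) else 0) := by
      intro h _ h' _
      by_cases he : h = h'
      · rw [if_pos he, if_pos he, he]
        simp [e_zero]
      · rw [if_neg he, if_neg he, add_zero]
    have h4 : ∑ h ∈ range H, ∑ h' ∈ range H, ∑ n ∈ range L,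
        e (((h : ℝ) - h') * (((u + n : ℕ) : ℝ) ^ c - 1 / 2)) =
        (∑ h ∈ range H, ∑ h' ∈ range H, if h = h' then 0 else
          ∑ n ∈ range L, e (((h : ℝ) - h') * (((u + n : ℕ) : ℝ) ^ c - 1 / 2))) + H * L := by
      rw [sum_congr rfl fun h hh => sum_congr rfl fun h' hh' => h3 h hh h' hh']
      simp only [sum_add_distrib]
      congr 1
      have h5 : ∀ h ∈ range H, (∑ h' ∈ range H, if h = h' then (L : ℂ) else 0) = L := by
        intro h hh
        rw [sum_ite_eq, if_pos hh]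
      rw [sum_congr rfl h5, sum_const, card_range, nsmul_eq_mul]
    rw [h4] at h1
    rw [h1, add_div, mul_div_cancel_left₀ _ hHc, add_sub_cancel_right]
  have h6 : |∑ n ∈ range L, wt H c (u + n) - L| =
      ‖((∑ n ∈ range L, wt H c (u + n) - L : ℝ) : ℂ)‖ := by
    rw [Complex.norm_real, Real.norm_eq_abs]
  rw [h6, h2, norm_div, Complex.norm_natCast, div_le_iff₀ hH']
  refine (norm_sum_le _ _).trans ?_
  calc ∑ h ∈ range H, ‖∑ h' ∈ range H, if h = h' then 0 else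
        ∑ n ∈ range L, e (((h : ℝ) - h') * (((u + n : ℕ) : ℝ) ^ c - 1 / 2))‖ ≤
      ∑ h ∈ range H, ∑ h' ∈ range H, E := by
        apply sum_le_sum
        intro h hh
        refine (norm_sum_le _ _).trans ?_
        apply sum_le_sum
        intro h' hh'
        split_ifs with he
        · simpa using hE
        · rw [shift_half]
          push_cast
          rw [mem_range] at hh hh'
          have hne : ((h : ℤ) - h') ≠ 0 := by omega
          have h7 : (1 : ℝ) ≤ |(h : ℝ) - h'| := by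
            have : (1 : ℤ) ≤ |(h : ℤ) - h'| := Int.one_le_abs hne
            exact_mod_cast this
          have h8 : |(h : ℝ) - h'| ≤ X := by
            have h9 : (h : ℝ) ≤ H := by exact_mod_cast hh.le
            have h10 : (h' : ℝ) ≤ H := by exact_mod_cast hh'.le
            have h11 : (0 : ℝ) ≤ h := Nat.cast_nonneg h
            have h12 : (0 : ℝ) ≤ h' := Nat.cast_nonneg h'
            have h13 : (H : ℝ) ≤ X := by exact_mod_cast hHX
            rw [abs_le]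
            constructor <;> linarith
          exact hpt _ h7 h8 u L (by exact_mod_cast hu) (by exact_mod_cast huL)
    _ = H * E * H := by
        simp only [sum_const, card_range, nsmul_eq_mul]
        ring

lemma minor {X : ℕ} {c E D : ℝ} (hpt : ∀ β : ℝ, D ≤ |β| → |β| ≤ X →
    ∀ (u : ℝ) (L : ℕ), (X : ℝ) ≤ u → u + L ≤ 4 * X → ‖∑ n ∈ range L, e (β * (u + n) ^ c)‖ ≤ E)
    {H : ℕ} (hH : 1 ≤ H) (hHX : H + 1 ≤ X) (u : ℕ) (L : ℕ) (hu : X ≤ u) (huL : u + L ≤ 4 * X)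
    {α : ℝ} (hα : |α| ≤ 1 / 2) (hαD : D ≤ |α|) :
    ‖∑ n ∈ range L, (wt H c (u + n) : ℂ) * e (α * ⌊((u + n : ℕ) : ℝ) ^ c⌋₊)‖ ≤
      H * E + (∑ n ∈ range L, wt H c (u + n) + L) / Real.sqrt H := by
  have hH' : (0 : ℝ) < H := by exact_mod_cast hH
  have h1 : ‖∑ n ∈ range L, (wt H c (u + n) : ℂ) * e (α * (((u + n : ℕ) : ℝ) ^ c - 1 / 2))‖ ≤
      H * E := by
    have h2 := FJ_expand H L (fun n => ((u + n : ℕ) : ℝ) ^ c - 1 / 2) α
    have h3 : ∑ n ∈ range L, (wt H c (u + n) : ℂ) * e (α * (((u + n : ℕ) : ℝ) ^ c - 1 / 2)) =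
        ∑ n ∈ range L, (FJ H (((u + n : ℕ) : ℝ) ^ c - 1 / 2) : ℂ) *
          e (α * (((u + n : ℕ) : ℝ) ^ c - 1 / 2)) := rfl
    rw [h3, h2, norm_div, Complex.norm_natCast, div_le_iff₀ hH']
    refine (norm_sum_le _ _).trans ?_
    calc ∑ h ∈ range H, ‖∑ h' ∈ range H, ∑ n ∈ range L,
          e (((h : ℝ) - h' + α) * (((u + n : ℕ) : ℝ) ^ c - 1 / 2))‖ ≤
        ∑ h ∈ range H, ∑ h' ∈ range H, E := by
          apply sum_le_sum
          intro h hh
          refine (norm_sum_le _ _).trans ?_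
          apply sum_le_sum
          intro h' hh'
          rw [shift_half]
          push_cast
          rw [mem_range] at hh hh'
          have hα1 := abs_le.mp hα
          have h9 : (h : ℝ) ≤ H := by exact_mod_cast hh.le
          have h10 : (h' : ℝ) ≤ H := by exact_mod_cast hh'.le
          have h11 : (0 : ℝ) ≤ h := Nat.cast_nonneg h
          have h12 : (0 : ℝ) ≤ h' := Nat.cast_nonneg h'
          have h13 : (H : ℝ) + 1 ≤ X := by exact_mod_cast hHX
          have h7 : D ≤ |(h : ℝ) - h' + α| := by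
            by_cases he : h = h'
            · rw [he]
              simpa using hαD
            · have h14 : (1 : ℝ) ≤ |(h : ℝ) - h'| := by
                have : (1 : ℤ) ≤ |(h : ℤ) - h'| := Int.one_le_abs (by omega)
                exact_mod_cast this
              have h15 : |(h : ℝ) - h'| ≤ |(h : ℝ) - h' + α| + |α| := by
                have := abs_sub ((h : ℝ) - h' + α) α
                simpa using this
              linarith
          have h8 : |(h : ℝ) - h' + α| ≤ X := by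
            rw [abs_le]
            constructor <;> linarith
          exact hpt _ h7 h8 u L (by exact_mod_cast hu) (by exact_mod_cast huL)
      _ = H * E * H := by
          simp only [sum_const, card_range, nsmul_eq_mul]
          ring
  have h2 : ‖∑ n ∈ range L, (wt H c (u + n) : ℂ) * e (α * ⌊((u + n : ℕ) : ℝ) ^ c⌋₊) -
      ∑ n ∈ range L, (wt H c (u + n) : ℂ) * e (α * (((u + n : ℕ) : ℝ) ^ c - 1 / 2))‖ ≤
      (∑ n ∈ range L, wt H c (u + n) + L) / Real.sqrt H := by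
    rw [← sum_sub_distrib]
    refine (norm_sum_le _ _).trans ?_
    calc ∑ n ∈ range L, ‖(wt H c (u + n) : ℂ) * e (α * ⌊((u + n : ℕ) : ℝ) ^ c⌋₊) -
          (wt H c (u + n) : ℂ) * e (α * (((u + n : ℕ) : ℝ) ^ c - 1 / 2))‖ ≤
        ∑ n ∈ range L, (wt H c (u + n) + 1) / Real.sqrt H :=
          sum_le_sum fun n _ => wt_floor hH hα (u + n)
      _ = _ := by
          rw [← sum_div, sum_add_distrib]
          simp
  calc _ ≤ _ := norm_le_norm_add_norm_sub' _ _
    _ ≤ _ := add_le_add h1 h2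

/-- the value of a variable -/
noncomputable def vl2 (c : ℝ) (x : ℕ) : ℕ := ⌊(x : ℝ) ^ c⌋₊

/-- the length of the Fejér kernel -/
noncomputable def HH (k : ℕ) (σ : ℝ) (X : ℕ) : ℕ := ⌊(X : ℝ) ^ (sv k σ / 2)⌋₊

theorem floorT (k : ℕ) (σ : ℝ) (hσ : 0 < σ) (hσ1 : σ ≤ 1) (a b : ℝ) (ha : (k : ℝ) < a) (ha1 : 1 ≤ a)
    (hb : b < k + 1) : ∃ X₀ : ℝ, ∀ X : ℕ, X₀ ≤ X → ∀ c ∈ Set.Icc a b,
    (∀ α : ℝ, |α| ≤ 1 / 2 → (X : ℝ) ^ (σ - c) ≤ |α| →
      ‖TT (Ico X (4 * X)) (vl2 c) (wt (HH k σ X) c) α‖ ≤ (X : ℝ) ^ (1 - sv k σ / 8)) ∧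
    (∀ u L : ℕ, X ≤ u → u + L ≤ 4 * X →
      |∑ n ∈ range L, wt (HH k σ X) c (u + n) - L| ≤ (X : ℝ) ^ (1 - sv k 1 / 2)) := by
  obtain ⟨X₁, hX₁⟩ := point k σ hσ hσ1 a b ha hb
  obtain ⟨X₂, hX₂⟩ := point k 1 one_pos le_rfl a b ha hb
  have hs := sv_pos k hσ
  have hs1 := sv_pos k one_pos
  have hsle := sv_le k hσ
  have hss : sv k σ ≤ sv k 1 := by
    unfold sv
    gcongr
  have hev := (eventually_ge_atTop X₁).and ((eventually_ge_atTop X₂).and
    ((eventually_ge_atTop (2 : ℝ)).and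
    (((tendsto_rpow_atTop (show (0 : ℝ) < sv k σ / 8 by linarith)).eventually_ge_atTop 16).and
    ((tendsto_rpow_atTop (show (0 : ℝ) < 1 - sv k σ / 2 by linarith)).eventually_ge_atTop 2))))
  obtain ⟨X₀, hX₀⟩ := eventually_atTop.mp hev
  refine ⟨X₀, fun X hX c hc => ?_⟩
  obtain ⟨g1, g2, g3, g4, g5⟩ := hX₀ X hX
  have hX0 : (0 : ℝ) < X := by linarith
  have hX1 : (1 : ℝ) ≤ X := by linarith
  set H := HH k σ X with hH
  have hHle : (H : ℝ) ≤ (X : ℝ) ^ (sv k σ / 2) := Nat.floor_le (by positivity)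
  have hXs1 : 1 ≤ (X : ℝ) ^ (sv k σ / 2) := Real.one_le_rpow hX1 (by linarith)
  have hHge : (X : ℝ) ^ (sv k σ / 2) / 2 ≤ H := by
    have := Nat.lt_floor_add_one ((X : ℝ) ^ (sv k σ / 2))
    have h2 : 1 ≤ H := by
      rw [hH]
      unfold HH
      exact Nat.le_floor (by simpa using hXs1)
    have h3 : (1 : ℝ) ≤ H := by exact_mod_cast h2
    have h4 : (X : ℝ) ^ (sv k σ / 2) < H + 1 := this
    linarith
  have hH1 : 1 ≤ H := by
    rw [hH]
    unfold HH
    exact Nat.le_floor (by simpa using hXs1)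
  have hHX : (H : ℝ) + 1 ≤ X := by
    have h1 : (X : ℝ) = (X : ℝ) ^ (sv k σ / 2) * (X : ℝ) ^ (1 - sv k σ / 2) := by
      rw [← Real.rpow_add hX0]
      conv_lhs => rw [← Real.rpow_one (X : ℝ)]
      congr 1
      ring
    nlinarith
  have hHXn : H + 1 ≤ X := by exact_mod_cast hHX
  have hwin : ∀ u L : ℕ, X ≤ u → u + L ≤ 4 * X →
      |∑ n ∈ range L, wt H c (u + n) - L| ≤ (X : ℝ) ^ (1 - sv k 1 / 2) := by
    intro u L hu huL
    have h1 := win (X := X) (c := c) (E := (X : ℝ) ^ (1 - sv k 1)) (by positivity)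
      (fun β hβ hβX u L hu hL => hX₂ X g2 c hc β (by
        refine le_trans ?_ hβ
        apply Real.rpow_le_one_of_one_le_of_nonpos hX1
        linarith [hc.1]) hβX u L hu hL) hH1 (by omega) u L hu huL
    refine h1.trans ?_
    calc (H : ℝ) * (X : ℝ) ^ (1 - sv k 1) ≤ (X : ℝ) ^ (sv k σ / 2) * (X : ℝ) ^ (1 - sv k 1) := by
          gcongr
      _ = (X : ℝ) ^ (sv k σ / 2 + (1 - sv k 1)) := by rw [← Real.rpow_add hX0]
      _ ≤ _ := Real.rpow_le_rpow_of_exponent_le hX1 (by linarith)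
  refine ⟨fun α hα hαc => ?_, hwin⟩
  have h1 := minor (X := X) (c := c) (E := (X : ℝ) ^ (1 - sv k σ)) (D := (X : ℝ) ^ (σ - c))
    (fun β hβ hβX u L hu hL => hX₁ X g1 c hc β hβ hβX u L hu hL) hH1 hHXn X (3 * X) le_rfl
    (by omega) hα hαc
  have h2 : TT (Ico X (4 * X)) (vl2 c) (wt H c) α =
      ∑ n ∈ range (3 * X), (wt H c (X + n) : ℂ) * e (α * ⌊((X + n : ℕ) : ℝ) ^ c⌋₊) := by
    unfold TT vl2
    rw [sum_Ico_eq_sum_range]
    have : 4 * X - X = 3 * X := by omega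
    rw [this]
  rw [h2]
  refine h1.trans ?_
  have h3 : ∑ n ∈ range (3 * X), wt H c (X + n) ≤ 4 * X := by
    have h4 := (abs_le.mp (hwin X (3 * X) le_rfl (by omega))).2
    have h5 : (X : ℝ) ^ (1 - sv k 1 / 2) ≤ X := by
      conv_rhs => rw [← Real.rpow_one (X : ℝ)]
      exact Real.rpow_le_rpow_of_exponent_le hX1 (by linarith)
    push_cast at h4
    linarith
  have hsq : (X : ℝ) ^ (sv k σ / 4) / 2 ≤ Real.sqrt H := by
    apply Real.le_sqrt_of_sq_le
    have h6 : ((X : ℝ) ^ (sv k σ / 4) / 2) ^ 2 = (X : ℝ) ^ (sv k σ / 2) / 4 := by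
      rw [div_pow, ← Real.rpow_natCast, ← Real.rpow_mul hX0.le]
      norm_num
      congr 1
      ring
    rw [h6]
    have : 0 ≤ (X : ℝ) ^ (sv k σ / 2) := by positivity
    linarith
  have hXs4 : 0 < (X : ℝ) ^ (sv k σ / 4) := Real.rpow_pos_of_pos hX0 _
  have h7 : (∑ n ∈ range (3 * X), wt H c (X + n) + ((3 * X : ℕ) : ℝ)) / Real.sqrt H ≤
      14 * (X : ℝ) ^ (1 - sv k σ / 4) := by
    calc (∑ n ∈ range (3 * X), wt H c (X + n) + ((3 * X : ℕ) : ℝ)) / Real.sqrt H ≤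
        (7 * X) / ((X : ℝ) ^ (sv k σ / 4) / 2) := by
          apply div_le_div₀ (by positivity) _ (by positivity) hsq
          push_cast
          linarith
      _ = 14 * (X : ℝ) ^ (1 - sv k σ / 4) := by
          rw [Real.rpow_sub hX0, Real.rpow_one]
          field_simp
          ring
  have h8 : (H : ℝ) * (X : ℝ) ^ (1 - sv k σ) ≤ (X : ℝ) ^ (1 - sv k σ / 4) := by
    calc (H : ℝ) * (X : ℝ) ^ (1 - sv k σ) ≤ (X : ℝ) ^ (sv k σ / 2) * (X : ℝ) ^ (1 - sv k σ) := by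
          gcongr
      _ = (X : ℝ) ^ (sv k σ / 2 + (1 - sv k σ)) := by rw [← Real.rpow_add hX0]
      _ ≤ _ := Real.rpow_le_rpow_of_exponent_le hX1 (by linarith)
  calc _ ≤ (X : ℝ) ^ (1 - sv k σ / 4) + 14 * (X : ℝ) ^ (1 - sv k σ / 4) := add_le_add h8 h7
    _ = 15 * (X : ℝ) ^ (1 - sv k σ / 4) := by ring
    _ ≤ (X : ℝ) ^ (sv k σ / 8) * (X : ℝ) ^ (1 - sv k σ / 4) := by
        apply mul_le_mul_of_nonneg_right _ (by positivity)
        linarith
    _ = _ := by
        rw [← Real.rpow_add hX0]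
        congr 1
        ring

end Pool.Agent.K7.H60.WE
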