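import Pool.Agent.K7.H60.WE.Mv

set_option autoImplicit false

/-! # Waring's problem with a random exponent: the mean value in the exponent, conclusion -/

namespace Pool.Agent.K7.H60.WE

open Finset MeasureTheory

lemma harm (T : ℕ) : ∑ i ∈ Icc 1 T, (1 / (i : ℝ)) ≤ 1 + Real.log T := by
  have h := harmonic_le_one_add_log T
  rw [harmonic_eq_sum_Icc] at h
  push_cast at h
  simpa [one_div] using h

lemma ofReal_aux (T : ℕ) (A B : ℝ) (hA : 0 ≤ A) (hB : 0 ≤ B) :
    (T : ENNReal) * ENNReal.ofReal A + ENNReal.ofReal B = ENNReal.ofReal (T * A + B) := by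
  rw [ENNReal.ofReal_add (mul_nonneg (Nat.cast_nonneg T) hA) hB,
    ENNReal.ofReal_mul (Nat.cast_nonneg T), ENNReal.ofReal_natCast]

/-- the distances of the elements of an interval -/
noncomputable def kn (n n' : ℕ) : ℝ := if n = n' then 0 else 1 / |(n : ℝ) - n'|

lemma kn_nonneg (n n' : ℕ) : 0 ≤ kn n n' := by
  unfold kn
  split_ifs
  · exact le_rfl
  · positivity

lemma sum_kn {T n : ℕ} (hn : n ∈ Ico T (2 * T)) :
    ∑ n' ∈ Ico T (2 * T), kn n n' ≤ 2 * (1 + Real.log T) := by
  rw [mem_Ico] at hn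
  have hsplit : ∑ n' ∈ Ico T (2 * T), kn n n' =
      ∑ n' ∈ (Ico T (2 * T)).filter (fun n' => n' < n), kn n n' +
        ∑ n' ∈ (Ico T (2 * T)).filter (fun n' => ¬ n' < n), kn n n' :=
    (sum_filter_add_sum_filter_not _ _ _).symm
  have h1 : ∑ n' ∈ (Ico T (2 * T)).filter (fun n' => n' < n), kn n n' ≤
      ∑ i ∈ Icc 1 T, (1 / (i : ℝ)) := by
    have e1 : ∑ n' ∈ (Ico T (2 * T)).filter (fun n' => n' < n), kn n n' =
        ∑ i ∈ ((Ico T (2 * T)).filter (fun n' => n' < n)).image (fun n' => n - n'),
          (1 / (i : ℝ)) := by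
      rw [sum_image]
      · apply sum_congr rfl
        intro n' hn'
        rw [mem_filter] at hn'
        unfold kn
        rw [if_neg (by omega)]
        rw [Nat.cast_sub hn'.2.le, abs_of_pos]
        have : (n' : ℝ) < n := by exact_mod_cast hn'.2
        linarith
      · intro x hx y hy hxy
        simp only [coe_filter, Set.mem_ofPred_eq] at hx hy
        simp only at hxy
        omega
    rw [e1]
    apply sum_le_sum_of_subset_of_nonneg
    · intro i hi
      rw [mem_image] at hi
      obtain ⟨n', hn', rfl⟩ := hi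
      rw [mem_filter, mem_Ico] at hn'
      rw [mem_Icc]
      omega
    · intro i _ _
      positivity
  have h2 : ∑ n' ∈ (Ico T (2 * T)).filter (fun n' => ¬ n' < n), kn n n' ≤
      ∑ i ∈ Icc 1 T, (1 / (i : ℝ)) := by
    have e0 : ∑ n' ∈ (Ico T (2 * T)).filter (fun n' => ¬ n' < n), kn n n' =
        ∑ n' ∈ (Ico T (2 * T)).filter (fun n' => n < n'), kn n n' := by
      symm
      apply sum_subset
      · intro x hx
        rw [mem_filter] at hx ⊢
        exact ⟨hx.1, by omega⟩
      · intro x hx hx'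
        rw [mem_filter] at hx hx'
        have : n = x := by
          by_contra hne
          exact hx' ⟨hx.1, by omega⟩
        unfold kn
        rw [if_pos this]
    have e1 : ∑ n' ∈ (Ico T (2 * T)).filter (fun n' => n < n'), kn n n' =
        ∑ i ∈ ((Ico T (2 * T)).filter (fun n' => n < n')).image (fun n' => n' - n),
          (1 / (i : ℝ)) := by
      rw [sum_image]
      · apply sum_congr rfl
        intro n' hn'
        rw [mem_filter] at hn'
        unfold kn
        rw [if_neg (by omega)]
        rw [Nat.cast_sub hn'.2.le, abs_sub_comm, abs_of_pos]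
        have : (n : ℝ) < n' := by exact_mod_cast hn'.2
        linarith
      · intro x hx y hy hxy
        simp only [coe_filter, Set.mem_ofPred_eq] at hx hy
        simp only at hxy
        omega
    rw [e0, e1]
    apply sum_le_sum_of_subset_of_nonneg
    · intro i hi
      rw [mem_image] at hi
      obtain ⟨n', hn', rfl⟩ := hi
      rw [mem_filter, mem_Ico] at hn'
      rw [mem_Icc]
      omega
    · intro i _ _
      positivity
  have := harm T
  rw [hsplit]
  linarith

/-- the measure of the band of a pair -/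
noncomputable def vl (a b M : ℝ) (x y : List ℕ) : ENNReal :=
  volume {c ∈ Set.Icc a b | |Fc x c - Fc y c| < M}

lemma vl_cons (a b M : ℝ) (n : ℕ) (z z' : List ℕ) : vl a b M (n :: z) (n :: z') = vl a b M z z' := by
  unfold vl
  congr 1
  ext c
  simp only [Set.mem_ofPred_eq, Fc_cons, add_sub_add_left_eq_sub]

lemma vl_symm (a b M : ℝ) (x y : List ℕ) : vl a b M x y = vl a b M y x := by
  unfold vl
  congr 1
  ext c
  simp only [Set.mem_ofPred_eq, abs_sub_comm (Fc x c)]

/-- the mean value -/
noncomputable def VV (a b M : ℝ) (m : ℕ) (t : ℕ → ℕ) : ENNReal :=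
  ∑ x ∈ Bx m t, ∑ y ∈ Bx m t, vl a b M x y

theorem mean_value {a b M : ℝ} (ha : 1 ≤ a) (hab : a ≤ b) (hM : 0 ≤ M) (m : ℕ) (t : ℕ → ℕ)
    (h : Good a b M m t) : VV a b M m t ≤ ENNReal.ofReal ((b - a) * (∏ i ∈ range m, (t i : ℝ)) +
      8 * M * m * (1 + Real.log (t 0)) * (∏ i ∈ range m, (t i : ℝ)) ^ 2 / (t 0 : ℝ) ^ a) := by
  induction m generalizing t with
  | zero =>
    unfold VV
    simp only [Bx, sum_singleton, range_zero, prod_empty, Nat.cast_zero, mul_zero, mul_one, zero_mul,
      zero_div, add_zero]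
    unfold vl
    refine (measure_mono (t := Set.Icc a b) (fun c hc => hc.1)).trans ?_
    rw [Real.volume_Icc]
  | succ m ih =>
    have hg := h
    obtain ⟨g1, g2, g3, g4, g5⟩ := h
    have ih' := ih (fun i => t (i + 1)) g5
    set t' : ℕ → ℕ := fun i => t (i + 1) with ht'
    set T : ℕ := t 0 with hT
    set P : ℝ := ∏ i ∈ range m, (t' i : ℝ) with hP
    have hP0 : 0 ≤ P := prod_nonneg fun i _ => Nat.cast_nonneg _
    have hTr : (1 : ℝ) ≤ T := by exact_mod_cast g1
    have hT1 : (1 : ℝ) ≤ t 1 := by exact_mod_cast g5.pos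
    have hcard : ((Bx m t').card : ℝ) = P := by
      rw [card_Bx, hP]
      push_cast
      rfl
    have hTa : 0 < (T : ℝ) ^ (a - 1) := Real.rpow_pos_of_pos (by linarith) _
    -- pointwise bound
    have hpt : ∀ n ∈ Ico T (2 * T), ∀ z ∈ Bx m t', ∀ n' ∈ Ico T (2 * T), ∀ z' ∈ Bx m t',
        vl a b M (n :: z) (n' :: z') ≤ (if n = n' then vl a b M z z' else 0) +
          ENNReal.ofReal (4 * M / (T : ℝ) ^ (a - 1) * kn n n') := by
      intro n hn z hz n' hn' z' hz'
      rcases lt_trichotomy n n' with hlt | he | hlt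
      · rw [if_neg hlt.ne, zero_add, vl_symm]
        refine (step_measure ha hg hn' hn hlt hz' hz).trans (le_of_eq ?_)
        congr 1
        unfold kn
        rw [if_neg hlt.ne, abs_sub_comm, abs_of_pos (by
          have : (n : ℝ) < n' := by exact_mod_cast hlt
          linarith)]
        rw [← hT]
        have : (n' : ℝ) - n ≠ 0 := by
          have : (n : ℝ) < n' := by exact_mod_cast hlt
          linarith
        field_simp
      · rw [if_pos he, ← he, vl_cons]
        exact le_self_add
      · rw [if_neg hlt.ne', zero_add]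
        refine (step_measure ha hg hn hn' hlt hz hz').trans (le_of_eq ?_)
        congr 1
        unfold kn
        rw [if_neg hlt.ne', abs_of_pos (by
          have : (n' : ℝ) < n := by exact_mod_cast hlt
          linarith)]
        rw [← hT]
        have : (n : ℝ) - n' ≠ 0 := by
          have : (n' : ℝ) < n := by exact_mod_cast hlt
          linarith
        field_simp
    have hsum1 : ∑ n ∈ Ico T (2 * T), ∑ z ∈ Bx m t', ∑ n' ∈ Ico T (2 * T), ∑ z' ∈ Bx m t',
        (if n = n' then vl a b M z z' else 0) = (T : ENNReal) * VV a b M m t' := by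
      have e1 : ∀ n ∈ Ico T (2 * T), ∑ z ∈ Bx m t', ∑ n' ∈ Ico T (2 * T), ∑ z' ∈ Bx m t',
          (if n = n' then vl a b M z z' else 0) = VV a b M m t' := by
        intro n hn
        unfold VV
        apply sum_congr rfl
        intro z _
        rw [sum_comm]
        apply sum_congr rfl
        intro z' _
        rw [sum_ite_eq, if_pos hn]
      rw [sum_congr rfl e1, sum_const, Nat.card_Ico, nsmul_eq_mul]
      congr 2
      omega
    have hsum2 : ∑ n ∈ Ico T (2 * T), ∑ _z ∈ Bx m t', ∑ n' ∈ Ico T (2 * T), ∑ _z' ∈ Bx m t',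
        ENNReal.ofReal (4 * M / (T : ℝ) ^ (a - 1) * kn n n') ≤
          ENNReal.ofReal (P ^ 2 * (4 * M / (T : ℝ) ^ (a - 1)) * (T * (2 * (1 + Real.log T)))) := by
      have e1 : ∑ n ∈ Ico T (2 * T), ∑ _z ∈ Bx m t', ∑ n' ∈ Ico T (2 * T), ∑ _z' ∈ Bx m t',
          ENNReal.ofReal (4 * M / (T : ℝ) ^ (a - 1) * kn n n') =
          ENNReal.ofReal (∑ n ∈ Ico T (2 * T), ∑ _z ∈ Bx m t', ∑ n' ∈ Ico T (2 * T),
            ∑ _z' ∈ Bx m t', 4 * M / (T : ℝ) ^ (a - 1) * kn n n') := by
        have hnn : ∀ n n' : ℕ, 0 ≤ 4 * M / (T : ℝ) ^ (a - 1) * kn n n' := fun n n' =>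
          mul_nonneg (by positivity) (kn_nonneg n n')
        rw [ENNReal.ofReal_sum_of_nonneg (fun n _ => sum_nonneg fun _ _ => sum_nonneg fun n' _ =>
          sum_nonneg fun _ _ => hnn n n')]
        apply sum_congr rfl
        intro n _
        rw [ENNReal.ofReal_sum_of_nonneg (fun _ _ => sum_nonneg fun n' _ =>
          sum_nonneg fun _ _ => hnn n n')]
        apply sum_congr rfl
        intro _ _
        rw [ENNReal.ofReal_sum_of_nonneg (fun n' _ => sum_nonneg fun _ _ => hnn n n')]
        apply sum_congr rfl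
        intro n' _
        rw [ENNReal.ofReal_sum_of_nonneg (fun _ _ => hnn n n')]
      rw [e1]
      apply ENNReal.ofReal_le_ofReal
      simp only [sum_const, nsmul_eq_mul, hcard, ← mul_sum]
      have e2 : ∑ n ∈ Ico T (2 * T), ∑ n' ∈ Ico T (2 * T), kn n n' ≤ T * (2 * (1 + Real.log T)) := by
        calc ∑ n ∈ Ico T (2 * T), ∑ n' ∈ Ico T (2 * T), kn n n' ≤
            ∑ n ∈ Ico T (2 * T), 2 * (1 + Real.log T) := sum_le_sum fun n hn => sum_kn hn
          _ = _ := by
            rw [sum_const, Nat.card_Ico, nsmul_eq_mul]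
            congr 2
            omega
      have e3 : P * (P * (4 * M / (T : ℝ) ^ (a - 1) *
          ∑ n ∈ Ico T (2 * T), ∑ n' ∈ Ico T (2 * T), kn n n')) ≤
          P ^ 2 * (4 * M / (T : ℝ) ^ (a - 1)) * (T * (2 * (1 + Real.log T))) := by
        calc _ = P ^ 2 * (4 * M / (T : ℝ) ^ (a - 1)) *
            ∑ n ∈ Ico T (2 * T), ∑ n' ∈ Ico T (2 * T), kn n n' := by ring
          _ ≤ _ := mul_le_mul_of_nonneg_left e2 (by positivity)
      refine le_trans (le_of_eq ?_) e3
      ring
    have hlogT : 0 ≤ Real.log T := Real.log_nonneg hTr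
    have hlog1 : 0 ≤ Real.log (t 1) := Real.log_nonneg hT1
    have hlog2 : Real.log (t 1) ≤ Real.log T := by
      have : Real.log (t 1) ≤ Real.log (2 * (t 1 : ℝ)) := Real.log_le_log (by linarith) (by linarith)
      linarith
    calc VV a b M (m + 1) t = ∑ n ∈ Ico T (2 * T), ∑ z ∈ Bx m t', ∑ n' ∈ Ico T (2 * T),
          ∑ z' ∈ Bx m t', vl a b M (n :: z) (n' :: z') := by
          unfold VV
          rw [sum_Bx_succ]
          apply sum_congr rfl
          intro n _
          apply sum_congr rfl
          intro z _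
          rw [sum_Bx_succ]
      _ ≤ ∑ n ∈ Ico T (2 * T), ∑ z ∈ Bx m t', ∑ n' ∈ Ico T (2 * T), ∑ z' ∈ Bx m t',
          ((if n = n' then vl a b M z z' else 0) +
            ENNReal.ofReal (4 * M / (T : ℝ) ^ (a - 1) * kn n n')) :=
          sum_le_sum fun n hn => sum_le_sum fun z hz => sum_le_sum fun n' hn' =>
            sum_le_sum fun z' hz' => hpt n hn z hz n' hn' z' hz'
      _ = (T : ENNReal) * VV a b M m t' + ∑ n ∈ Ico T (2 * T), ∑ _z ∈ Bx m t',
          ∑ n' ∈ Ico T (2 * T), ∑ _z' ∈ Bx m t',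
            ENNReal.ofReal (4 * M / (T : ℝ) ^ (a - 1) * kn n n') := by
          rw [← hsum1]
          simp only [sum_add_distrib]
      _ ≤ (T : ENNReal) * ENNReal.ofReal ((b - a) * P +
          8 * M * m * (1 + Real.log (t' 0)) * P ^ 2 / (t' 0 : ℝ) ^ a) +
          ENNReal.ofReal (P ^ 2 * (4 * M / (T : ℝ) ^ (a - 1)) * (T * (2 * (1 + Real.log T)))) := by
          gcongr
      _ = ENNReal.ofReal (T * ((b - a) * P +
          8 * M * m * (1 + Real.log (t' 0)) * P ^ 2 / (t' 0 : ℝ) ^ a) +
          P ^ 2 * (4 * M / (T : ℝ) ^ (a - 1)) * (T * (2 * (1 + Real.log T)))) := by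
          have q1 : 0 ≤ 1 + Real.log (t' 0 : ℝ) := by
            have : t' 0 = t 1 := rfl
            rw [this]; linarith
          have q2 : 0 ≤ b - a := by linarith
          exact ofReal_aux T _ _ (by positivity) (by positivity)
      _ ≤ _ := by
          apply ENNReal.ofReal_le_ofReal
          have e1 : ∏ i ∈ range (m + 1), (t i : ℝ) = T * P := by
            rw [prod_range_succ', mul_comm]
          rw [e1]
          have e2 : t' 0 = t 1 := rfl
          rw [e2]
          have e3 : (T : ℝ) ^ a = (T : ℝ) ^ (a - 1) * T := by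
            rw [← Real.rpow_add_one (by linarith)]
            congr 1
            ring
          have hTa' : 0 < (T : ℝ) ^ a := Real.rpow_pos_of_pos (by linarith) _
          have ht1a : 0 < (t 1 : ℝ) ^ a := Real.rpow_pos_of_pos (by linarith) _
          have k1 : T * (8 * M * m * (1 + Real.log (t 1)) * P ^ 2 / (t 1 : ℝ) ^ a) ≤
              8 * M * m * (1 + Real.log T) * (T * P) ^ 2 / (T : ℝ) ^ a := by
            calc T * (8 * M * m * (1 + Real.log (t 1)) * P ^ 2 / (t 1 : ℝ) ^ a) ≤
                T * (8 * M * m * (1 + Real.log T) * P ^ 2 / (T : ℝ) ^ (a - 1)) := by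
                  gcongr
              _ = _ := by
                  rw [e3]
                  field_simp
          have k2 : P ^ 2 * (4 * M / (T : ℝ) ^ (a - 1)) * (T * (2 * (1 + Real.log T))) =
              8 * M * (1 + Real.log T) * (T * P) ^ 2 / (T : ℝ) ^ a := by
            rw [e3]
            field_simp
            ring
          have k3 : 8 * M * ((m + 1 : ℕ) : ℝ) * (1 + Real.log T) * (T * P) ^ 2 / (T : ℝ) ^ a =
              8 * M * m * (1 + Real.log T) * (T * P) ^ 2 / (T : ℝ) ^ a +
              8 * M * (1 + Real.log T) * (T * P) ^ 2 / (T : ℝ) ^ a := by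
            push_cast
            ring
          rw [k3, k2]
          nlinarith

end Pool.Agent.K7.H60.WE
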