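import Pool.Agent.K7.H60.WE.Sc
import Pool.Agent.K7.H60.WE.Mw
import Pool.Agent.K7.H60.WE.Fm

set_option autoImplicit false

/-! # Waring's problem with a random exponent: the mean value for almost all exponents -/

namespace Pool.Agent.K7.H60.WE

open Finset Filter MeasureTheory

/-- the sum of the values of the variables -/
noncomputable def Sx (c : ℝ) (x : List ℕ) : ℕ := (x.map (vl2 c)).sum

lemma Sx_le (c : ℝ) (x : List ℕ) : (Sx c x : ℝ) ≤ Fc x c ∧ Fc x c ≤ Sx c x + x.length ∧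
    (x ≠ [] → Fc x c < Sx c x + x.length) := by
  induction x with
  | nil => simp [Sx, Fc]
  | cons n x ih =>
    obtain ⟨i1, i2, _⟩ := ih
    have e1 : Sx c (n :: x) = vl2 c n + Sx c x := by simp [Sx]
    rw [e1, Fc_cons]
    have h0 : 0 ≤ (n : ℝ) ^ c := by positivity
    have h1 : (vl2 c n : ℝ) ≤ (n : ℝ) ^ c := Nat.floor_le h0
    have h2 : (n : ℝ) ^ c < vl2 c n + 1 := Nat.lt_floor_add_one _
    push_cast
    simp only [List.length_cons]
    push_cast
    refine ⟨by linarith, by linarith, fun _ => by linarith⟩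

lemma Sx_close {c : ℝ} {x y : List ℕ} {m : ℕ} (hm : 1 ≤ m) (hx : x.length = m) (hy : y.length = m)
    (h : Sx c x = Sx c y) : |Fc x c - Fc y c| < m := by
  obtain ⟨a1, _, a3⟩ := Sx_le c x
  obtain ⟨b1, _, b3⟩ := Sx_le c y
  have hx0 : x ≠ [] := by
    intro h0
    rw [h0] at hx
    simp at hx
    omega
  have hy0 : y ≠ [] := by
    intro h0
    rw [h0] at hy
    simp at hy
    omega
  have a4 := a3 hx0
  have b4 := b3 hy0
  rw [hx] at a4
  rw [hy] at b4
  have h' : (Sx c x : ℝ) = Sx c y := by exact_mod_cast h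
  rw [abs_lt]
  constructor <;> linarith

/-- the band of a pair -/
def band (a b M : ℝ) (x y : List ℕ) : Set ℝ := {c ∈ Set.Icc a b | |Fc x c - Fc y c| < M}

lemma band_meas {a b M : ℝ} {m : ℕ} {t : ℕ → ℕ} (h : Good a b M m t) {x y : List ℕ}
    (hx : x ∈ Bx m t) (hy : y ∈ Bx m t) : MeasurableSet (band a b M x y) := by
  have hcx : Continuous (Fc x) := continuous_iff_continuousAt.mpr fun c =>
    (Fc_der x (Bx_pos h hx) c).continuousAt
  have hcy : Continuous (Fc y) := continuous_iff_continuousAt.mpr fun c =>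
    (Fc_der y (Bx_pos h hy) c).continuousAt
  have e1 : band a b M x y = Set.Icc a b ∩ (fun c => |Fc x c - Fc y c|) ⁻¹' Set.Iio M := rfl
  rw [e1]
  exact measurableSet_Icc.inter ((hcx.sub hcy).abs.measurable measurableSet_Iio)

/-- the number of the pairs in the band -/
noncomputable def Ncnt (a b M : ℝ) (m : ℕ) (t : ℕ → ℕ) (c : ℝ) : ENNReal :=
  ∑ x ∈ Bx m t, ∑ y ∈ Bx m t, (band a b M x y).indicator (fun _ => (1 : ENNReal)) c

lemma Ncnt_lintegral {a b M : ℝ} {m : ℕ} {t : ℕ → ℕ} (h : Good a b M m t) :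
    ∫⁻ c, Ncnt a b M m t c = VV a b M m t := by
  unfold Ncnt VV
  rw [lintegral_finsetSum' _ (fun x hx => by
    apply Finset.aemeasurable_fun_sum
    intro y hy
    exact (measurable_const.indicator (band_meas h hx hy)).aemeasurable)]
  apply sum_congr rfl
  intro x hx
  rw [lintegral_finsetSum' _ (fun y hy =>
    (measurable_const.indicator (band_meas h hx hy)).aemeasurable)]
  apply sum_congr rfl
  intro y hy
  rw [lintegral_indicator_const (band_meas h hx hy), one_mul]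
  rfl

lemma Ncnt_aemeas {a b M : ℝ} {m : ℕ} {t : ℕ → ℕ} (h : Good a b M m t) :
    AEMeasurable (Ncnt a b M m t) := by
  unfold Ncnt
  apply Finset.aemeasurable_fun_sum
  intro x hx
  apply Finset.aemeasurable_fun_sum
  intro y hy
  exact (measurable_const.indicator (band_meas h hx hy)).aemeasurable

lemma NN_le_Ncnt {a b c : ℝ} {m : ℕ} (hm : 1 ≤ m) {t : ℕ → ℕ} (hc : c ∈ Set.Icc a b) :
    ENNReal.ofReal (NN (Bx m t) (Sx c)) ≤ Ncnt a b m m t c := by
  unfold NN Ncnt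
  rw [ENNReal.ofReal_sum_of_nonneg (fun x _ => sum_nonneg fun y _ => by split_ifs <;> norm_num)]
  apply sum_le_sum
  intro x hx
  rw [ENNReal.ofReal_sum_of_nonneg (fun y _ => by split_ifs <;> norm_num)]
  apply sum_le_sum
  intro y hy
  split_ifs with h
  · rw [Set.indicator_of_mem]
    · simp
    · exact ⟨hc, Sx_close hm (len_Bx hx) (len_Bx hy) h⟩
  · simp

/-- the exceptional set at one scale -/
lemma exc_measure {a b : ℝ} (ha : 1 ≤ a) (hab : a ≤ b) {m : ℕ} {t : ℕ → ℕ}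
    (h : Good a b m m t) (hP : (t 0 : ℝ) ^ a ≤ ∏ i ∈ range m, (t i : ℝ)) {Y : ℝ} (hY : 0 < Y) :
    volume {c | ENNReal.ofReal ((∏ i ∈ range m, (t i : ℝ)) ^ 2 / (t 0 : ℝ) ^ a * Y) ≤
      Ncnt a b m m t c} ≤ ENNReal.ofReal ((b - a + 8 * m * m) * (1 + Real.log (t 0)) / Y) := by
  have ht0 : (1 : ℝ) ≤ t 0 := by exact_mod_cast h.pos
  have hlog : 0 ≤ Real.log (t 0 : ℝ) := Real.log_nonneg ht0
  set P : ℝ := ∏ i ∈ range m, (t i : ℝ) with hPdef
  have hta : 0 < (t 0 : ℝ) ^ a := Real.rpow_pos_of_pos (by linarith) _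
  have hP0 : 0 < P := lt_of_lt_of_le hta hP
  set lam : ℝ := P ^ 2 / (t 0 : ℝ) ^ a * Y with hlam
  have hlam0 : 0 < lam := by positivity
  have h1 := mul_meas_ge_le_lintegral₀ (Ncnt_aemeas h) (ENNReal.ofReal lam)
  rw [Ncnt_lintegral h] at h1
  have h2 := mean_value ha hab (Nat.cast_nonneg m) m t h
  rw [← hPdef] at h2
  have h3 : (b - a) * P + 8 * m * m * (1 + Real.log (t 0)) * P ^ 2 / (t 0 : ℝ) ^ a ≤
      lam * ((b - a + 8 * m * m) * (1 + Real.log (t 0)) / Y) := by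
    have h4 : (b - a) * P ≤ (b - a) * (1 + Real.log (t 0)) * (P ^ 2 / (t 0 : ℝ) ^ a) := by
      have h5 : P ≤ P ^ 2 / (t 0 : ℝ) ^ a := by
        rw [le_div_iff₀ hta]
        nlinarith
      calc (b - a) * P = (b - a) * 1 * P := by ring
        _ ≤ (b - a) * (1 + Real.log (t 0)) * (P ^ 2 / (t 0 : ℝ) ^ a) := by
            apply mul_le_mul _ h5 hP0.le (by
              apply mul_nonneg (by linarith) (by linarith))
            apply mul_le_mul_of_nonneg_left (by linarith) (by linarith)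
    calc _ ≤ (b - a) * (1 + Real.log (t 0)) * (P ^ 2 / (t 0 : ℝ) ^ a) +
          8 * m * m * (1 + Real.log (t 0)) * P ^ 2 / (t 0 : ℝ) ^ a := by linarith
      _ = _ := by
          rw [hlam]
          field_simp
  have h6 : ENNReal.ofReal lam * volume {c | ENNReal.ofReal lam ≤ Ncnt a b m m t c} ≤
      ENNReal.ofReal lam * ENNReal.ofReal ((b - a + 8 * m * m) * (1 + Real.log (t 0)) / Y) := by
    rw [← ENNReal.ofReal_mul hlam0.le]
    exact h1.trans (h2.trans (ENNReal.ofReal_le_ofReal h3))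
  exact (ENNReal.mul_le_mul_iff_right (by simpa using hlam0) ENNReal.ofReal_ne_top).mp h6

/-- the parameter at the scale `i` -/
noncomputable def xi (m i : ℕ) : ℝ := (2 : ℝ) ^ i / (8 * m)

lemma xi_tendsto {m : ℕ} (hm : 1 ≤ m) : Tendsto (xi m) atTop atTop := by
  unfold xi
  have hm' : (0 : ℝ) < m := by exact_mod_cast hm
  exact (tendsto_pow_atTop_atTop_of_one_lt (by norm_num)).atTop_div_const (by positivity)

theorem bc {a b ρ ε : ℝ} (ha : 1 < a) (hab : a ≤ b) (hρ0 : 0 < ρ) (hρ1 : ρ < 1)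
    (h1 : ρ ^ 2 * b < a - 1) (h2 : a - 1 < ρ * a) {m : ℕ} (hm : 1 ≤ m)
    (h3 : a < ∑ j ∈ range m, ρ ^ j) (hε : 0 < ε) :
    ∀ᵐ c : ℝ, c ∈ Set.Icc a b → ∀ᶠ i : ℕ in atTop, NN (Bx m (tt ρ (xi m i))) (Sx c) <
      (∏ j ∈ range m, (tt ρ (xi m i) j : ℝ)) ^ 2 / (tt ρ (xi m i) 0 : ℝ) ^ a *
        ((2 : ℝ) ^ i) ^ ε := by
  have hm' : (1 : ℝ) ≤ m := by exact_mod_cast hm
  have hxt := xi_tendsto hm
  have e1 := hxt.eventually (good_ev (M := m) ha hab (Nat.cast_nonneg m) hρ0 hρ1 h1 h2 m)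
  have e2 := hxt.eventually (prod_ev (a := a) hρ0 hρ1 m h3)
  have e3 := hxt.eventually (eventually_ge_atTop (1 : ℝ))
  have e4 : ∀ᶠ i : ℕ in atTop, (b - a + 8 * m * m) * (1 + Real.log ((2 : ℝ) ^ i)) ^ 2 ≤
      ((2 : ℝ) ^ i) ^ (ε / 2) :=
    (tendsto_pow_atTop_atTop_of_one_lt (by norm_num : (1 : ℝ) < 2)).eventually
      (log_small (ε / 2) _ (by linarith))
  obtain ⟨i₀, hi₀⟩ := eventually_atTop.mp (e1.and (e2.and (e3.and e4)))
  set A : ℕ → Set ℝ := fun i => {c | ENNReal.ofReal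
    ((∏ j ∈ range m, (tt ρ (xi m i) j : ℝ)) ^ 2 / (tt ρ (xi m i) 0 : ℝ) ^ a *
        ((2 : ℝ) ^ i) ^ ε) ≤ Ncnt a b m m (tt ρ (xi m i)) c} with hA
  set s : ℕ → Set ℝ := fun i => if i < i₀ then ∅ else A i with hs
  set r : ℝ := (2 : ℝ) ^ (-(ε / 2)) with hr
  have hr0 : 0 < r := by positivity
  have hr1 : r < 1 := Real.rpow_lt_one_of_one_lt_of_neg (by norm_num) (by linarith)
  have hsi : ∀ i, volume (s i) ≤ ENNReal.ofReal (r ^ i) := by
    intro i
    rw [hs]
    simp only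
    split_ifs with hi
    · simp
    · obtain ⟨g1, g2, g3, g4⟩ := hi₀ i (by omega)
      have hY : (0 : ℝ) < ((2 : ℝ) ^ i) ^ ε := by positivity
      have hP : ((tt ρ (xi m i) 0 : ℕ) : ℝ) ^ a ≤ ∏ j ∈ range m, (tt ρ (xi m i) j : ℝ) := by
        refine le_trans ?_ g2
        exact Real.rpow_le_rpow (by positivity) (tt_le hρ0.le hρ1.le g3 0).1 (by linarith)
      refine (exc_measure ha.le hab g1 hP hY).trans ?_
      apply ENNReal.ofReal_le_ofReal
      have k1 : (1 : ℝ) ≤ tt ρ (xi m i) 0 := by exact_mod_cast (tt_le hρ0.le hρ1.le g3 0).2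
      have k2 : (tt ρ (xi m i) 0 : ℝ) ≤ (2 : ℝ) ^ i := by
        refine (tt_le hρ0.le hρ1.le g3 0).1.trans ?_
        unfold xi
        rw [div_le_iff₀ (by positivity)]
        have : (0 : ℝ) < 2 ^ i := by positivity
        nlinarith
      have k3 : Real.log (tt ρ (xi m i) 0 : ℝ) ≤ Real.log ((2 : ℝ) ^ i) :=
        Real.log_le_log (by linarith) k2
      have k4 : 0 ≤ Real.log (tt ρ (xi m i) 0 : ℝ) := Real.log_nonneg k1
      have k5 : (1 + Real.log (tt ρ (xi m i) 0 : ℝ)) ≤ (1 + Real.log ((2 : ℝ) ^ i)) ^ 2 := by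
        nlinarith
      have k6 : 0 ≤ b - a + 8 * m * m := by
        have : (0 : ℝ) ≤ 8 * m * m := by positivity
        linarith
      rw [div_le_iff₀ hY]
      calc (b - a + 8 * m * m) * (1 + Real.log (tt ρ (xi m i) 0 : ℝ)) ≤
          (b - a + 8 * m * m) * (1 + Real.log ((2 : ℝ) ^ i)) ^ 2 := by gcongr
        _ ≤ ((2 : ℝ) ^ i) ^ (ε / 2) := g4
        _ = r ^ i * ((2 : ℝ) ^ i) ^ ε := by
            have e5 : r ^ i = ((2 : ℝ) ^ i) ^ (-(ε / 2)) := by
              rw [hr, ← Real.rpow_natCast, ← Real.rpow_natCast, ← Real.rpow_mul (by norm_num),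
                ← Real.rpow_mul (by norm_num)]
              congr 1
              ring
            rw [e5, ← Real.rpow_add (by positivity)]
            congr 1
            ring
  have hsum : (∑' i, volume (s i)) ≠ ⊤ := by
    have h4 : Summable fun i : ℕ => r ^ i := summable_geometric_of_lt_one hr0.le hr1
    exact ne_top_of_le_ne_top h4.tsum_ofReal_ne_top (ENNReal.tsum_le_tsum hsi)
  filter_upwards [ae_eventually_notMem hsum] with c hc hcI
  filter_upwards [hc, eventually_ge_atTop i₀] with i hi hii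
  rw [hs] at hi
  simp only at hi
  rw [if_neg (by omega), hA] at hi
  simp only [Set.mem_ofPred_eq, not_le] at hi
  have h5 := (NN_le_Ncnt hm hcI).trans_lt hi
  exact (ENNReal.ofReal_lt_ofReal_iff_of_nonneg (by
    unfold NN
    exact sum_nonneg fun x _ => sum_nonneg fun y _ => by split_ifs <;> norm_num)).mp h5

end Pool.Agent.K7.H60.WE
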