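import Mathlib

set_option autoImplicit false

/-! # Waring's problem with a random exponent: sublevel sets in the exponent

A function which increases with speed `≥ D` whenever it is in the band `|f| < M` is in the band on a
set of measure `≤ 2 M / D`.  This is applied to `f(c) = ∑ (x_i ^ c - y_i ^ c)`, where the variables
decrease so fast that `f` has no double zero. -/

namespace Pool.Agent.K7.H60.WE

open Set MeasureTheory

/-- once in the band, the function does not get below its value -/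
lemma band_mono {f f' : ℝ → ℝ} {a b M D : ℝ} (hD : 0 < D)
    (hf : ∀ c ∈ Icc a b, HasDerivAt f (f' c) c)
    (h : ∀ c ∈ Icc a b, |f c| < M → D ≤ f' c) {c₁ : ℝ} (hc₁ : c₁ ∈ Icc a b) (hb : |f c₁| < M) :
    ∀ c ∈ Icc c₁ b, f c₁ ≤ f c := by
  have hsub : Icc c₁ b ⊆ Icc a b := Icc_subset_Icc_left hc₁.1
  have hcont : ContinuousOn f (Icc c₁ b) := fun c hc => (hf c (hsub hc)).continuousAt.continuousWithinAt
  have := image_le_of_deriv_right_lt_deriv_boundary' (f := fun _ => f c₁) (f' := fun _ => 0)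
    (a := c₁) (b := b) continuousOn_const (fun x _ => (hasDerivAt_const x (f c₁)).hasDerivWithinAt)
    (B := f) (B' := f') le_rfl hcont
    (fun x hx => (hf x (hsub ⟨hx.1, hx.2.le⟩)).hasDerivWithinAt) (by
      intro x hx he
      have h1 : |f x| < M := by rw [← he]; exact hb
      exact lt_of_lt_of_le hD (h x (hsub ⟨hx.1, hx.2.le⟩) h1))
  exact fun c hc => this hc

lemma band_incr {f f' : ℝ → ℝ} {a b M D : ℝ} (hD : 0 < D)
    (hf : ∀ c ∈ Icc a b, HasDerivAt f (f' c) c)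
    (h : ∀ c ∈ Icc a b, |f c| < M → D ≤ f' c) {c₁ c₂ : ℝ} (hc₁ : c₁ ∈ Icc a b)
    (hc₂ : c₂ ∈ Icc a b) (hlt : c₁ < c₂) (hb₁ : |f c₁| < M) (hb₂ : |f c₂| < M) :
    D * (c₂ - c₁) < 2 * M := by
  have h1 := band_mono hD hf h hc₁ hb₁
  have h2 : ∀ c ∈ Icc a c₂, f c ≤ f c₂ := by
    have hf2 : ∀ c ∈ Icc (-b) (-a), HasDerivAt (fun t => -f (-t)) (f' (-c)) c := by
      intro c hc
      have e1 : HasDerivAt (fun t => f (-t)) (-(f' (-c))) c := by
        have := (hf (-c) ⟨by linarith [hc.2], by linarith [hc.1]⟩).comp c (hasDerivAt_neg c)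
        simpa [Function.comp_def] using this
      have e2 := e1.neg
      rw [neg_neg] at e2
      exact e2
    have h3 := band_mono (f := fun t => -f (-t)) (f' := fun t => f' (-t)) (a := -b) (b := -a)
      (M := M) (D := D) hD hf2 (by
        intro c hc hlt
        simp only [abs_neg] at hlt
        exact h (-c) ⟨by linarith [hc.2], by linarith [hc.1]⟩ hlt) (c₁ := -c₂)
        ⟨by linarith [hc₂.2], by linarith [hc₂.1]⟩ (by simpa using hb₂)
    intro c hc
    have h4 := h3 (-c) ⟨by linarith [hc.2], by linarith [hc.1]⟩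
    simp only [neg_neg] at h4
    linarith
  have hcont : ContinuousOn f (Icc c₁ c₂) := fun c hc =>
    (hf c ⟨hc₁.1.trans hc.1, hc.2.trans hc₂.2⟩).continuousAt.continuousWithinAt
  obtain ⟨ξ, hξ, he⟩ := exists_hasDerivAt_eq_slope f f' hlt hcont (fun x hx =>
    hf x ⟨hc₁.1.trans hx.1.le, hx.2.le.trans hc₂.2⟩)
  have hξ1 : f c₁ ≤ f ξ := h1 ξ ⟨hξ.1.le, hξ.2.le.trans hc₂.2⟩
  have hξ2 : f ξ ≤ f c₂ := h2 ξ ⟨hc₁.1.trans hξ.1.le, hξ.2.le⟩
  rw [abs_lt] at hb₁ hb₂
  have h5 : |f ξ| < M := by rw [abs_lt]; constructor <;> linarith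
  have h6 := h ξ ⟨hc₁.1.trans hξ.1.le, hξ.2.le.trans hc₂.2⟩ h5
  rw [he] at h6
  have h7 : 0 < c₂ - c₁ := by linarith
  rw [le_div_iff₀ h7] at h6
  linarith

/-- the measure of the set on which the function is in the band -/
lemma band_measure {f f' : ℝ → ℝ} {a b M D : ℝ} (hD : 0 < D)
    (hf : ∀ c ∈ Icc a b, HasDerivAt f (f' c) c)
    (h : ∀ c ∈ Icc a b, |f c| < M → D ≤ f' c) :
    volume {c ∈ Icc a b | |f c| < M} ≤ ENNReal.ofReal (2 * M / D) := by
  refine (Real.volume_le_diam _).trans ?_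
  apply Metric.ediam_le
  intro x hx y hy
  rw [edist_dist]
  apply ENNReal.ofReal_le_ofReal
  rw [Real.dist_eq, le_div_iff₀ hD]
  rcases lt_trichotomy x y with hlt | he | hlt
  · have := band_incr hD hf h hx.1 hy.1 hlt hx.2 hy.2
    rw [abs_of_neg (by linarith)]
    linarith
  · rw [he]
    simp only [sub_self, abs_zero, zero_mul]
    have := (abs_nonneg (f x)).trans hx.2.le
    linarith
  · have := band_incr hD hf h hy.1 hx.1 hlt hy.2 hx.2
    rw [abs_of_pos (by linarith)]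
    linarith

/-- `Δ log A ≤ Δ'` for `Δ = x ^ c - y ^ c`, `x ≥ y ≥ A` -/
lemma dlt_lower {x y A c : ℝ} (hA : 0 < A) (hy : A ≤ y) (hxy : y ≤ x) (hc : 0 < c) :
    (x ^ c - y ^ c) * Real.log A ≤ x ^ c * Real.log x - y ^ c * Real.log y := by
  have hy0 : 0 < y := by linarith
  have h1 : y ^ c ≤ x ^ c := Real.rpow_le_rpow hy0.le hxy hc.le
  have h2 : Real.log y ≤ Real.log x := Real.log_le_log hy0 hxy
  have h3 : Real.log A ≤ Real.log y := Real.log_le_log hA hy
  have h4 : 0 < y ^ c := Real.rpow_pos_of_pos hy0 c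
  have h5 : y ^ c * (Real.log y - Real.log A) ≤ x ^ c * (Real.log x - Real.log A) := by
    apply mul_le_mul h1 (by linarith) (by linarith) (by linarith)
  nlinarith

/-- `Δ' ≤ Δ (log B + 1)` for `Δ = x ^ c - y ^ c`, `y ≤ x ≤ B`, `c ≥ 1` -/
lemma dlt_upper {x y B c : ℝ} (hy : 0 < y) (hxy : y ≤ x) (hB : x ≤ B) (hc : 1 ≤ c) :
    x ^ c * Real.log x - y ^ c * Real.log y ≤ (x ^ c - y ^ c) * (Real.log B + 1) := by
  have hx0 : 0 < x := by linarith
  have hc0 : 0 < c := by linarith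
  have h1 : y ^ c ≤ x ^ c := Real.rpow_le_rpow hy.le hxy hc0.le
  have h2 : Real.log x ≤ Real.log B := Real.log_le_log hx0 hB
  have h4 : 0 < y ^ c := Real.rpow_pos_of_pos hy c
  have h4' : 0 < x ^ c := Real.rpow_pos_of_pos hx0 c
  have h5 : Real.log x - Real.log y ≤ c * (Real.log x - Real.log y) := by
    have : 0 ≤ Real.log x - Real.log y := by
      have := Real.log_le_log hy hxy
      linarith
    nlinarith
  have h6 : c * (Real.log x - Real.log y) ≤ x ^ c / y ^ c - 1 := by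
    have h7 : Real.log (x ^ c / y ^ c) = c * (Real.log x - Real.log y) := by
      rw [Real.log_div h4'.ne' h4.ne', Real.log_rpow hx0, Real.log_rpow hy]
      ring
    rw [← h7]
    exact Real.log_le_sub_one_of_pos (by positivity)
  have h8 : y ^ c * (Real.log x - Real.log y) ≤ x ^ c - y ^ c := by
    calc y ^ c * (Real.log x - Real.log y) ≤ y ^ c * (x ^ c / y ^ c - 1) := by
          apply mul_le_mul_of_nonneg_left (h5.trans h6) h4.le
      _ = _ := by field_simp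
  have h9 : (x ^ c - y ^ c) * Real.log x ≤ (x ^ c - y ^ c) * Real.log B :=
    mul_le_mul_of_nonneg_left h2 (by linarith)
  nlinarith

/-- `x ^ c - y ^ c ≥ t ^ (a - 1) (x - y)` -/
lemma dlt_size {x y t a c : ℝ} (ht : 1 ≤ t) (hy : t ≤ y) (hxy : y ≤ x) (ha : 1 ≤ a) (hac : a ≤ c) :
    t ^ (a - 1) * (x - y) ≤ x ^ c - y ^ c := by
  have hy0 : 0 < y := by linarith
  have hx0 : 0 < x := by linarith
  have hc0 : 0 < c := by linarith
  have h1 : 1 + c * (x / y - 1) ≤ (x / y) ^ c := by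
    have := one_add_mul_self_le_rpow_one_add (s := x / y - 1) (by
      have : 1 ≤ x / y := by rw [le_div_iff₀ hy0]; linarith
      linarith) (p := c) (by linarith)
    have e : 1 + (x / y - 1) = x / y := by ring
    rwa [e] at this
  have h2 : x ^ c = y ^ c * (x / y) ^ c := by
    rw [← Real.mul_rpow hy0.le (by positivity)]
    congr 1
    field_simp
  have h3 : y ^ c * (c * (x / y - 1)) ≤ x ^ c - y ^ c := by
    rw [h2]
    have : 0 < y ^ c := Real.rpow_pos_of_pos hy0 c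
    nlinarith
  have h4 : y ^ c = y ^ (c - 1) * y := by
    rw [← Real.rpow_add_one hy0.ne']
    congr 1
    ring
  have h5 : y ^ c * (c * (x / y - 1)) = y ^ (c - 1) * (c * (x - y)) := by
    rw [h4]
    field_simp
  have h6 : t ^ (a - 1) ≤ y ^ (c - 1) := by
    calc t ^ (a - 1) ≤ t ^ (c - 1) := Real.rpow_le_rpow_of_exponent_le ht (by linarith)
      _ ≤ _ := Real.rpow_le_rpow (by linarith) hy (by linarith)
  have h7 : x - y ≤ c * (x - y) := by nlinarith
  calc t ^ (a - 1) * (x - y) ≤ y ^ (c - 1) * (c * (x - y)) := by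
        apply mul_le_mul h6 h7 (by linarith) (by positivity)
    _ ≤ _ := by linarith

/-- the derivative of `f = Δ₀ + Δ₁ + h` in the band -/
lemma step_deriv {x₀ y₀ x₁ y₁ t₀ t₁ a c M R h h' : ℝ} (ht₀ : 1 ≤ t₀) (ht₁ : 1 ≤ t₁) (ha : 1 ≤ a)
    (hac : a ≤ c) (hy₀ : t₀ ≤ y₀) (hxy : y₀ < x₀) (hx₁ : t₁ ≤ x₁)
    (hy₁ : t₁ ≤ y₁) (hy₁' : y₁ ≤ 2 * t₁) (hsep : Real.log (2 * t₁) + 2 ≤ Real.log t₀)
    (hh : |h| ≤ R) (hh' : |h'| ≤ R)
    (hR : (M + 2 * R) * (Real.log (2 * t₁) + 2) ≤ (1 / 2) * (t₀ ^ (a - 1) * (x₀ - y₀)))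
    (hf : |(x₀ ^ c - y₀ ^ c) + (x₁ ^ c - y₁ ^ c) + h| < M) :
    (1 / 2) * (t₀ ^ (a - 1) * (x₀ - y₀)) ≤ (x₀ ^ c * Real.log x₀ - y₀ ^ c * Real.log y₀) +
      (x₁ ^ c * Real.log x₁ - y₁ ^ c * Real.log y₁) + h' := by
  have hc0 : 0 < c := by linarith
  have hc1 : 1 ≤ c := by linarith
  have hR0 : 0 ≤ R := (abs_nonneg h).trans hh
  have d0 := dlt_lower (A := t₀) (by linarith) hy₀ hxy.le hc0
  have s0 := dlt_size ht₀ hy₀ hxy.le ha hac
  set Δ₀ := x₀ ^ c - y₀ ^ c with hΔ₀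
  set Λ := Real.log (2 * t₁) + 1 with hΛ
  have hlog0 : 0 ≤ Real.log (2 * t₁) := Real.log_nonneg (by linarith)
  have hlt1 : 0 ≤ Real.log t₁ := Real.log_nonneg ht₁
  rw [abs_lt] at hf
  have hh1 := abs_le.mp hh
  have hh1' := abs_le.mp hh'
  have key : -(Δ₀ + M + R) * Λ ≤ x₁ ^ c * Real.log x₁ - y₁ ^ c * Real.log y₁ := by
    have hΔp : 0 ≤ Δ₀ := by
      have : 0 ≤ t₀ ^ (a - 1) * (x₀ - y₀) := mul_nonneg (by positivity) (by linarith)
      linarith
    rcases le_total y₁ x₁ with hle | hle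
    · have d1 := dlt_lower (A := t₁) (by linarith) hy₁ hle hc0
      have : y₁ ^ c ≤ x₁ ^ c := Real.rpow_le_rpow (by linarith) hle hc0.le
      have h1 : 0 ≤ (x₁ ^ c - y₁ ^ c) * Real.log t₁ := mul_nonneg (by linarith) hlt1
      have h2 : 0 ≤ (Δ₀ + M + R) * Λ := mul_nonneg (by linarith) (by linarith)
      linarith
    · have d1 := dlt_upper (B := 2 * t₁) (c := c) (by linarith) hle hy₁' hc1
      rw [← hΛ] at d1
      have h1 : y₁ ^ c - x₁ ^ c ≤ Δ₀ + M + R := by linarith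
      have h2 : (y₁ ^ c - x₁ ^ c) * Λ ≤ (Δ₀ + M + R) * Λ :=
        mul_le_mul_of_nonneg_right h1 (by linarith)
      linarith
  have h3 : Δ₀ * (Λ + 1) ≤ Δ₀ * Real.log t₀ := by
    apply mul_le_mul_of_nonneg_left (by linarith)
    have : 0 ≤ t₀ ^ (a - 1) * (x₀ - y₀) := mul_nonneg (by positivity) (by linarith)
    linarith
  have h4 : (M + R) * Λ + R ≤ (M + 2 * R) * (Real.log (2 * t₁) + 2) := by
    rw [hΛ]
    nlinarith
  nlinarith

end Pool.Agent.K7.H60.WE
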