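import Pool.Agent.K7.H60.WE.Sc
import Pool.Agent.K7.H60.WE.Fm

set_option autoImplicit false

/-! # Waring's problem with a random exponent: the number of solutions on average over a window -/

namespace Pool.Agent.K7.H60.WE

open Finset Filter

lemma Fc_le {m : ℕ} {t : ℕ → ℕ} {T c : ℝ} (hc : 0 ≤ c) (ht : ∀ j, (t j : ℝ) ≤ T) {x : List ℕ}
    (hx : x ∈ Bx m t) : Fc x c ≤ m * (2 * T) ^ c := by
  induction m generalizing t x with
  | zero =>
    rw [Bx, mem_singleton] at hx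
    subst hx
    simp [Fc_nil]
  | succ m ih =>
    obtain ⟨n, z, h1, h2, rfl⟩ := mem_Bx_succ.mp hx
    have i1 := ih (fun j => ht (j + 1)) h2
    rw [Fc_cons]
    rw [mem_Ico] at h1
    have h3 : (n : ℝ) ≤ 2 * T := by
      have : (n : ℝ) ≤ 2 * t 0 := by exact_mod_cast h1.2.le
      have := ht 0
      linarith
    have h4 : (n : ℝ) ^ c ≤ (2 * T) ^ c := Real.rpow_le_rpow (Nat.cast_nonneg n) h3 hc
    push_cast
    linarith

/-- `U ^ c - V ^ c ≤ c U ^ (c - 1) (U - V)` -/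
lemma pow_diff {U V c : ℝ} (hV : 0 ≤ V) (hU : 0 < U) (hc : 1 ≤ c) :
    U ^ c - V ^ c ≤ c * U ^ (c - 1) * (U - V) := by
  have h1 : 1 + c * (V / U - 1) ≤ (V / U) ^ c := by
    have := one_add_mul_self_le_rpow_one_add (s := V / U - 1) (by
      have : 0 ≤ V / U := by positivity
      linarith) (p := c) hc
    have e : 1 + (V / U - 1) = V / U := by ring
    rwa [e] at this
  have h2 : V ^ c = U ^ c * (V / U) ^ c := by
    rw [← Real.mul_rpow hU.le (by positivity)]
    congr 1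
    field_simp
  have h3 : 0 < U ^ c := Real.rpow_pos_of_pos hU c
  have h4 : U ^ c = U ^ (c - 1) * U := by
    rw [← Real.rpow_add_one hU.ne']
    congr 1
    ring
  have h5 : U ^ c * (1 + c * (V / U - 1)) ≤ V ^ c := by
    rw [h2]
    exact mul_le_mul_of_nonneg_left h1 h3.le
  have h6 : U ^ c * (1 + c * (V / U - 1)) = U ^ c - c * U ^ (c - 1) * (U - V) := by
    have : U ^ c * (c * (V / U - 1)) = - (c * U ^ (c - 1) * (U - V)) := by
      rw [h4]
      field_simp
      ring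
    rw [mul_add, mul_one, this]
    ring
  linarith

/-- the length of the window -/
lemma window_len {N H Z c : ℝ} (hN : 0 < N) (hH : 0 ≤ H) (hZ : 0 < Z) (hc : 1 ≤ c)
    (hNH : N + H ≤ (4 * Z) ^ c) :
    H / (c * (4 * Z) ^ (c - 1)) ≤ (N + H) ^ (1 / c) - N ^ (1 / c) := by
  have hc0 : 0 < c := by linarith
  set U := (N + H) ^ (1 / c) with hU
  set V := N ^ (1 / c) with hV
  have hU0 : 0 < U := Real.rpow_pos_of_pos (by linarith) _
  have hV0 : 0 < V := Real.rpow_pos_of_pos hN _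
  have hVU : V ≤ U := Real.rpow_le_rpow hN.le (by linarith) (by positivity)
  have e1 : U ^ c = N + H := by
    rw [hU, ← Real.rpow_mul (by linarith)]
    rw [one_div_mul_cancel hc0.ne', Real.rpow_one]
  have e2 : V ^ c = N := by
    rw [hV, ← Real.rpow_mul hN.le]
    rw [one_div_mul_cancel hc0.ne', Real.rpow_one]
  have h1 := pow_diff hV0.le hU0 hc
  rw [e1, e2] at h1
  have hU4 : U ≤ 4 * Z := by
    rw [hU]
    calc (N + H) ^ (1 / c) ≤ ((4 * Z) ^ c) ^ (1 / c) :=
          Real.rpow_le_rpow (by linarith) hNH (by positivity)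
      _ = 4 * Z := by
          rw [← Real.rpow_mul (by positivity), mul_one_div_cancel hc0.ne', Real.rpow_one]
  have h2 : U ^ (c - 1) ≤ (4 * Z) ^ (c - 1) := Real.rpow_le_rpow hU0.le hU4 (by linarith)
  rw [div_le_iff₀ (by positivity)]
  have h3 : c * U ^ (c - 1) * (U - V) ≤ c * (4 * Z) ^ (c - 1) * (U - V) := by
    apply mul_le_mul_of_nonneg_right _ (by linarith)
    gcongr
  linarith

theorem avg_lower {Z : ℕ} (hZ : 1 ≤ Z) {c E : ℝ} (hc : 1 ≤ c) {w : ℕ → ℝ} (hw : ∀ x, 0 ≤ w x)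
    (hwin : ∀ u L : ℕ, Z ≤ u → u + L ≤ 4 * Z → |∑ n ∈ range L, w (u + n) - L| ≤ E)
    (B : Finset (List ℕ)) (S : List ℕ → ℕ) (hS : ∀ y ∈ B, (S y : ℝ) ≤ (Z : ℝ) ^ c / 4) (n H : ℕ)
    (hn : 2 * (Z : ℝ) ^ c ≤ n) (hnH : (n : ℝ) + H ≤ (4 * (Z : ℝ)) ^ c) :
    (B.card : ℝ) ^ 2 * (H / (c * (4 * (Z : ℝ)) ^ (c - 1)) - 1 - E) ≤
      ∑ h ∈ range H, RR (Ico Z (4 * Z)) (vl2 c) w B S (n + h) := by
  have hc0 : 0 < c := by linarith
  have hZr : (1 : ℝ) ≤ Z := by exact_mod_cast hZ
  have hZ0 : (0 : ℝ) < Z := by linarith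
  have hZc : 0 < (Z : ℝ) ^ c := Real.rpow_pos_of_pos hZ0 c
  have hswap : ∑ h ∈ range H, RR (Ico Z (4 * Z)) (vl2 c) w B S (n + h) =
      ∑ y ∈ B, ∑ z ∈ B, ∑ x ∈ Ico Z (4 * Z), ∑ h ∈ range H,
        if vl2 c x + S y + S z = n + h then w x else 0 := by
    unfold RR
    rw [sum_comm]
    have e1 : ∀ x ∈ Ico Z (4 * Z), ∑ h ∈ range H, ∑ y ∈ B, ∑ z ∈ B,
        (if vl2 c x + S y + S z = n + h then w x else 0) =
        ∑ y ∈ B, ∑ z ∈ B, ∑ h ∈ range H, (if vl2 c x + S y + S z = n + h then w x else 0) := by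
      intro x _
      rw [sum_comm]
      apply sum_congr rfl
      intro y _
      rw [sum_comm]
    rw [sum_congr rfl e1, sum_comm]
    apply sum_congr rfl
    intro y _
    rw [sum_comm]
  rw [hswap]
  have hkey : ∀ y ∈ B, ∀ z ∈ B, H / (c * (4 * (Z : ℝ)) ^ (c - 1)) - 1 - E ≤
      ∑ x ∈ Ico Z (4 * Z), ∑ h ∈ range H,
        if vl2 c x + S y + S z = n + h then w x else 0 := by
    intro y hy z hz
    set s : ℕ := S y + S z with hs
    have hsr : (s : ℝ) ≤ (Z : ℝ) ^ c / 2 := by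
      have h1 := hS y hy
      have h2 := hS z hz
      rw [hs]
      push_cast
      linarith
    have hsn : s ≤ n := by
      have : (s : ℝ) ≤ n := by linarith
      exact_mod_cast this
    set N : ℕ := n - s with hN
    have hNr : (N : ℝ) = n - s := by rw [hN, Nat.cast_sub hsn]
    have hN1 : (Z : ℝ) ^ c ≤ N := by rw [hNr]; linarith
    have hN0 : (0 : ℝ) < N := by linarith
    have hNH : (N : ℝ) + H ≤ (4 * (Z : ℝ)) ^ c := by
      rw [hNr]
      have : (0 : ℝ) ≤ s := Nat.cast_nonneg s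
      linarith
    have hlen := window_len hN0 (Nat.cast_nonneg H) hZ0 hc hNH
    set V : ℝ := (N : ℝ) ^ (1 / c) with hV
    set U : ℝ := ((N : ℝ) + H) ^ (1 / c) with hU
    have hVU : V ≤ U := Real.rpow_le_rpow hN0.le (by
      have : (0 : ℝ) ≤ H := Nat.cast_nonneg H
      linarith) (by positivity)
    have hV0 : 0 ≤ V := by positivity
    set u₁ : ℕ := ⌈V⌉₊ with hu₁
    set u₂ : ℕ := ⌈U⌉₊ with hu₂
    have h12 : u₁ ≤ u₂ := Nat.ceil_mono hVU
    have hVc : V ^ c = N := by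
      rw [hV, ← Real.rpow_mul hN0.le, one_div_mul_cancel hc0.ne', Real.rpow_one]
    have hUc : U ^ c = N + H := by
      rw [hU, ← Real.rpow_mul (by positivity), one_div_mul_cancel hc0.ne', Real.rpow_one]
    have hZu : Z ≤ u₁ := by
      have h1 : (Z : ℝ) ≤ V := by
        rw [hV]
        calc (Z : ℝ) = ((Z : ℝ) ^ c) ^ (1 / c) := by
              rw [← Real.rpow_mul hZ0.le, mul_one_div_cancel hc0.ne', Real.rpow_one]
          _ ≤ _ := Real.rpow_le_rpow hZc.le hN1 (by positivity)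
      have h2 : (Z : ℝ) ≤ u₁ := h1.trans (Nat.le_ceil V)
      exact_mod_cast h2
    have hu4 : u₂ ≤ 4 * Z := by
      apply Nat.ceil_le.mpr
      push_cast
      rw [hU]
      calc ((N : ℝ) + H) ^ (1 / c) ≤ ((4 * (Z : ℝ)) ^ c) ^ (1 / c) :=
            Real.rpow_le_rpow (by positivity) hNH (by positivity)
        _ = 4 * Z := by
            rw [← Real.rpow_mul (by positivity), mul_one_div_cancel hc0.ne', Real.rpow_one]
    have hcond : ∀ x ∈ Ico u₁ u₂, n ≤ vl2 c x + s ∧ vl2 c x + s < n + H := by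
      intro x hx
      rw [mem_Ico] at hx
      have h1 : V ≤ x := (Nat.le_ceil V).trans (by exact_mod_cast hx.1)
      have h2 : (x : ℝ) < U := Nat.lt_ceil.mp hx.2
      have h3 : (N : ℝ) ≤ (x : ℝ) ^ c := by
        rw [← hVc]
        exact Real.rpow_le_rpow hV0 h1 hc0.le
      have h4 : (x : ℝ) ^ c < N + H := by
        rw [← hUc]
        exact Real.rpow_lt_rpow (Nat.cast_nonneg x) h2 hc0
      have h5 : N ≤ vl2 c x := Nat.le_floor h3
      have h6 : vl2 c x < N + H := by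
        have h7 : (vl2 c x : ℝ) ≤ (x : ℝ) ^ c := Nat.floor_le (by positivity)
        have h8 : (vl2 c x : ℝ) < ((N + H : ℕ) : ℝ) := by
          push_cast
          linarith
        exact_mod_cast h8
      omega
    have hlow : ∀ x ∈ Ico u₁ u₂, w x ≤ ∑ h ∈ range H,
        if vl2 c x + S y + S z = n + h then w x else 0 := by
      intro x hx
      obtain ⟨c1, c2⟩ := hcond x hx
      have hmem : vl2 c x + s - n ∈ range H := by rw [mem_range]; omega
      have h1 := single_le_sum (s := range H)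
        (f := fun h => if vl2 c x + S y + S z = n + h then w x else 0)
        (fun h _ => by
          split_ifs
          · exact hw x
          · exact le_rfl) hmem
      refine le_trans ?_ h1
      rw [if_pos (by omega)]
    have hsub : Ico u₁ u₂ ⊆ Ico Z (4 * Z) := by
      intro x hx
      rw [mem_Ico] at hx ⊢
      omega
    have h1 : ∑ x ∈ Ico u₁ u₂, w x ≤ ∑ x ∈ Ico Z (4 * Z), ∑ h ∈ range H,
        if vl2 c x + S y + S z = n + h then w x else 0 := by
      refine (sum_le_sum hlow).trans ?_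
      apply sum_le_sum_of_subset_of_nonneg hsub
      intro x _ _
      apply sum_nonneg
      intro h _
      split_ifs
      · exact hw x
      · exact le_rfl
    refine le_trans ?_ h1
    rw [sum_Ico_eq_sum_range]
    have h2 := (abs_le.mp (hwin u₁ (u₂ - u₁) hZu (by omega))).1
    have h3 : ((u₂ - u₁ : ℕ) : ℝ) = u₂ - u₁ := Nat.cast_sub h12
    have h4 : U ≤ u₂ := Nat.le_ceil U
    have h5 : (u₁ : ℝ) < V + 1 := Nat.ceil_lt_add_one hV0
    linarith
  calc (B.card : ℝ) ^ 2 * (H / (c * (4 * (Z : ℝ)) ^ (c - 1)) - 1 - E) =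
      ∑ y ∈ B, ∑ z ∈ B, (H / (c * (4 * (Z : ℝ)) ^ (c - 1)) - 1 - E) := by
        simp only [sum_const, nsmul_eq_mul]
        ring
    _ ≤ _ := sum_le_sum fun y hy => sum_le_sum fun z hz => hkey y hy z hz

end Pool.Agent.K7.H60.WE
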