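import Pool.Agent.K7.H60.WE.Bc
import Pool.Agent.K7.H60.WE.Lo

set_option autoImplicit false

/-! # Waring's problem with a random exponent: the theorem for short intervals of exponents -/

namespace Pool.Agent.K7.H60.WE

open Finset Filter MeasureTheory

lemma neg_pow_small (C κ η : ℝ) (hκ : 0 < κ) (hη : 0 < η) :
    ∀ᶠ x : ℝ in atTop, C * x ^ (-κ) ≤ η := by
  have h1 := (tendsto_rpow_neg_atTop hκ).const_mul C
  rw [mul_zero] at h1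
  filter_upwards [h1.eventually_lt_const hη] with x hx
  exact hx.le

/-- there is a solution if the number of solutions is positive -/
lemma exists_of_RR_pos {I : Finset ℕ} {v : ℕ → ℕ} {w : ℕ → ℝ} {B : Finset (List ℕ)}
    {S : List ℕ → ℕ} {n : ℕ} (h : 0 < RR I v w B S n) :
    ∃ x ∈ I, ∃ y ∈ B, ∃ z ∈ B, v x + S y + S z = n := by
  by_contra hcon
  push Not at hcon
  have : RR I v w B S n = 0 := by
    unfold RR
    apply sum_eq_zero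
    intro x hx
    apply sum_eq_zero
    intro y hy
    apply sum_eq_zero
    intro z hz
    rw [if_neg (hcon x hx y hy z hz)]
  linarith

lemma err1 {Z m a b c s₁ P T N c₂ : ℝ} (hZ : 1 ≤ Z) (hm : 1 ≤ m) (ha : 1 < a)
    (hcb : c ≤ b) (hba : b - a ≤ s₁ / 32) (hT : Z / (16 * m) ≤ T)
    (hN : N < P ^ 2 / T ^ a * Z ^ (s₁ / 32))
    (n3 : 2 * (16 * m) ^ a * Z ^ (-(s₁ / 16)) ≤ c₂ / 4) :
    2 * Z ^ (1 - s₁ / 8) * N ≤ c₂ / 4 * (P ^ 2 * Z ^ (1 - c)) := by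
  have hZ0 : 0 < Z := by linarith
  have h1 : P ^ 2 / T ^ a ≤ P ^ 2 * ((16 * m) ^ a * Z ^ (-a)) := by
    rw [div_eq_mul_inv]
    apply mul_le_mul_of_nonneg_left _ (by positivity)
    have h2 : (Z / (16 * m)) ^ a ≤ T ^ a :=
      Real.rpow_le_rpow (by positivity) hT (by linarith)
    have h3 : (T ^ a)⁻¹ ≤ ((Z / (16 * m)) ^ a)⁻¹ := inv_anti₀ (by positivity) h2
    refine h3.trans (le_of_eq ?_)
    rw [Real.div_rpow hZ0.le (by positivity), inv_div, Real.rpow_neg hZ0.le]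
    rfl
  have h4 : N ≤ P ^ 2 * ((16 * m) ^ a * Z ^ (-a)) * Z ^ (s₁ / 32) :=
    hN.le.trans (mul_le_mul_of_nonneg_right h1 (by positivity))
  have h5 : Z ^ (1 - s₁ / 8) * Z ^ (-a) * Z ^ (s₁ / 32) ≤ Z ^ (-(s₁ / 16)) * Z ^ (1 - c) := by
    rw [← Real.rpow_add hZ0, ← Real.rpow_add hZ0, ← Real.rpow_add hZ0]
    apply Real.rpow_le_rpow_of_exponent_le hZ
    linarith
  calc 2 * Z ^ (1 - s₁ / 8) * N ≤
      2 * Z ^ (1 - s₁ / 8) * (P ^ 2 * ((16 * m) ^ a * Z ^ (-a)) * Z ^ (s₁ / 32)) :=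
        mul_le_mul_of_nonneg_left h4 (by positivity)
    _ = 2 * (16 * m) ^ a * P ^ 2 * (Z ^ (1 - s₁ / 8) * Z ^ (-a) * Z ^ (s₁ / 32)) := by ring
    _ ≤ 2 * (16 * m) ^ a * P ^ 2 * (Z ^ (-(s₁ / 16)) * Z ^ (1 - c)) :=
        mul_le_mul_of_nonneg_left h5 (by positivity)
    _ = (2 * (16 * m) ^ a * Z ^ (-(s₁ / 16))) * (P ^ 2 * Z ^ (1 - c)) := by ring
    _ ≤ _ := mul_le_mul_of_nonneg_right n3 (by positivity)

lemma err2 {Z c s₂ P W H c₂ : ℝ} (hZ : 1 ≤ Z) (hW : W ≤ 4 * Z) (hH0 : 0 ≤ H)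
    (hH : H ≤ 2 * Z ^ (c - s₂ / 4)) (n4 : 32 * Real.pi * Z ^ (-(s₂ / 8)) ≤ c₂ / 4) :
    W * P ^ 2 * (2 * Real.pi * H * Z ^ (s₂ / 16 - c)) * (2 * Z ^ (s₂ / 16 - c)) ≤
      c₂ / 4 * (P ^ 2 * Z ^ (1 - c)) := by
  have hZ0 : 0 < Z := by linarith
  have hpi := Real.pi_pos
  have h5 : Z ^ (1 : ℝ) * Z ^ (c - s₂ / 4) * Z ^ (s₂ / 16 - c) * Z ^ (s₂ / 16 - c) =
      Z ^ (-(s₂ / 8)) * Z ^ (1 - c) := by
    rw [← Real.rpow_add hZ0, ← Real.rpow_add hZ0, ← Real.rpow_add hZ0, ← Real.rpow_add hZ0]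
    congr 1
    ring
  rw [Real.rpow_one] at h5
  set u := Z ^ (s₂ / 16 - c) with hu
  have hu0 : 0 ≤ u := by positivity
  set v := Z ^ (c - s₂ / 4) with hv
  have hv0 : 0 ≤ v := by positivity
  clear_value u v
  calc W * P ^ 2 * (2 * Real.pi * H * u) * (2 * u) ≤
      (4 * Z) * P ^ 2 * (2 * Real.pi * (2 * v) * u) * (2 * u) := by gcongr
    _ = 32 * Real.pi * P ^ 2 * (Z * v * u * u) := by ring
    _ = (32 * Real.pi * Z ^ (-(s₂ / 8))) * (P ^ 2 * Z ^ (1 - c)) := by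
        rw [h5]
        ring
    _ ≤ _ := mul_le_mul_of_nonneg_right n4 (by positivity)

lemma low1 {Z c s₂ P H c₂ A E k4 : ℝ} (hZ : 1 ≤ Z) (hc₂ : 0 < c₂) (hH : Z ^ (c - s₂ / 4) ≤ H)
    (hk : 0 < k4) (hk4 : k4 ≤ (1 / (2 * c₂)) * Z ^ (c - 1))
    (n1 : E + 1 ≤ c₂ * Z ^ (1 - s₂ / 4)) (hA : P ^ 2 * (H / k4 - 1 - E) ≤ A) :
    P ^ 2 * (c₂ * H * Z ^ (1 - c)) ≤ A := by
  have hZ0 : 0 < Z := by linarith
  have hH0 : 0 < H := lt_of_lt_of_le (Real.rpow_pos_of_pos hZ0 _) hH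
  have hZc1 : 0 < Z ^ (c - 1) := Real.rpow_pos_of_pos hZ0 _
  refine le_trans ?_ hA
  apply mul_le_mul_of_nonneg_left _ (by positivity)
  have e1 : Z ^ (1 - c) = 1 / Z ^ (c - 1) := by
    rw [one_div, ← Real.rpow_neg hZ0.le]
    congr 1
    ring
  have h1 : 2 * c₂ * H * Z ^ (1 - c) ≤ H / k4 := by
    rw [le_div_iff₀ hk, e1]
    calc 2 * c₂ * H * (1 / Z ^ (c - 1)) * k4 ≤
        2 * c₂ * H * (1 / Z ^ (c - 1)) * ((1 / (2 * c₂)) * Z ^ (c - 1)) :=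
          mul_le_mul_of_nonneg_left hk4 (by positivity)
      _ = H := by field_simp
  have h2 : c₂ * Z ^ (1 - s₂ / 4) ≤ c₂ * H * Z ^ (1 - c) := by
    calc c₂ * Z ^ (1 - s₂ / 4) = c₂ * Z ^ (c - s₂ / 4) * Z ^ (1 - c) := by
          rw [mul_assoc, ← Real.rpow_add hZ0]
          congr 2
          ring
      _ ≤ _ := by gcongr
  linarith

/-- the key inequality at one scale -/
lemma scale_pos {k m Z n : ℕ} {a b c ρ : ℝ} (hm : 1 ≤ m) (ha : 1 < a) (hca : a ≤ c) (hcb : c ≤ b)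
    (hbk : b < k + 1) (hρ0 : 0 < ρ) (hρ1 : ρ < 1) (hZ : 1 ≤ Z) {s₁ s₂ c₂ : ℝ}
    (hs₂ : 0 < s₂) (hs₂' : s₂ ≤ 1 / 8) (hba : b - a ≤ s₁ / 32)
    (hc₂ : c₂ = 1 / (2 * ((k : ℝ) + 1) * 4 ^ k)) {w : ℕ → ℝ} (hw : ∀ x, 0 ≤ w x)
    (hx1 : 1 ≤ (Z : ℝ) / (8 * m))
    (hmin : ∀ α : ℝ, |α| ≤ 1 / 2 → (Z : ℝ) ^ (s₂ / 16 - c) ≤ |α| →
      ‖TT (Ico Z (4 * Z)) (vl2 c) w α‖ ≤ (Z : ℝ) ^ (1 - s₁ / 8))
    (hwin : ∀ u L : ℕ, Z ≤ u → u + L ≤ 4 * Z →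
      |∑ n ∈ range L, w (u + n) - L| ≤ (Z : ℝ) ^ (1 - s₂ / 2))
    (hNN : NN (Bx m (tt ρ ((Z : ℝ) / (8 * m)))) (Sx c) <
      (∏ j ∈ range m, (tt ρ ((Z : ℝ) / (8 * m)) j : ℝ)) ^ 2 /
        (tt ρ ((Z : ℝ) / (8 * m)) 0 : ℝ) ^ a * (Z : ℝ) ^ (s₁ / 32))
    (n1 : (Z : ℝ) ^ (1 - s₂ / 2) + 1 ≤ c₂ * (Z : ℝ) ^ (1 - s₂ / 4))
    (n2 : 2 * (2 : ℝ) ^ c * (Z : ℝ) ^ c + ((Z : ℝ) ^ (c - s₂ / 4) + 1) ≤ (4 * (Z : ℝ)) ^ c)
    (n3 : 2 * (16 * m : ℝ) ^ a * (Z : ℝ) ^ (-(s₁ / 16)) ≤ c₂ / 4)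
    (n4 : 32 * Real.pi * (Z : ℝ) ^ (-(s₂ / 8)) ≤ c₂ / 4)
    (hn1 : 2 * (Z : ℝ) ^ c ≤ n) (hn2 : (n : ℝ) < 2 * (2 : ℝ) ^ c * (Z : ℝ) ^ c) :
    0 < RR (Ico Z (4 * Z)) (vl2 c) w (Bx m (tt ρ ((Z : ℝ) / (8 * m)))) (Sx c) n := by
  have hc1 : 1 ≤ c := by linarith
  have hZr : (1 : ℝ) ≤ Z := by exact_mod_cast hZ
  have hZ0 : (0 : ℝ) < Z := by linarith
  have hmr : (1 : ℝ) ≤ m := by exact_mod_cast hm
  have hk0 : (0 : ℝ) ≤ k := Nat.cast_nonneg k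
  have hc₂0 : 0 < c₂ := by rw [hc₂]; positivity
  set x : ℝ := (Z : ℝ) / (8 * m) with hx
  set B := Bx m (tt ρ x) with hB
  set P : ℝ := ∏ j ∈ range m, (tt ρ x j : ℝ) with hP
  have hcard : (B.card : ℝ) = P := by
    rw [hB, card_Bx, hP]
    push_cast
    rfl
  have hP1 : 1 ≤ P := by
    rw [hP]
    have : ∏ j ∈ range m, (1 : ℝ) ≤ ∏ j ∈ range m, (tt ρ x j : ℝ) := by
      apply Finset.prod_le_prod (fun _ _ => by norm_num)
      intro j _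
      exact_mod_cast (tt_le hρ0.le hρ1.le hx1 j).2
    simpa using this
  have hP0 : 0 < P := by linarith
  -- the values of the other variables
  have hS : ∀ y ∈ B, (Sx c y : ℝ) ≤ (Z : ℝ) ^ c / 4 := by
    intro y hy
    refine (Sx_le c y).1.trans ?_
    refine (Fc_le (T := x) (by linarith) (fun j => (tt_le hρ0.le hρ1.le hx1 j).1) hy).trans ?_
    have e1 : 2 * x = (Z : ℝ) * (1 / (4 * m)) := by
      rw [hx]
      field_simp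
      ring
    rw [e1, Real.mul_rpow hZ0.le (by positivity)]
    have h2 : (1 / (4 * m) : ℝ) ^ c ≤ 1 / (4 * m) := by
      conv_rhs => rw [← Real.rpow_one (1 / (4 * m) : ℝ)]
      apply Real.rpow_le_rpow_of_exponent_ge (by positivity) _ hc1
      rw [div_le_one (by positivity)]
      linarith
    have h3 : 0 < (Z : ℝ) ^ c := Real.rpow_pos_of_pos hZ0 c
    calc (m : ℝ) * ((Z : ℝ) ^ c * (1 / (4 * m)) ^ c) ≤ m * ((Z : ℝ) ^ c * (1 / (4 * m))) := by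
          gcongr
      _ = _ := by field_simp
  -- the window
  set H : ℕ := ⌈(Z : ℝ) ^ (c - s₂ / 4)⌉₊ with hH
  have hY1 : 1 ≤ (Z : ℝ) ^ (c - s₂ / 4) := Real.one_le_rpow hZr (by linarith)
  have hHge : (Z : ℝ) ^ (c - s₂ / 4) ≤ H := Nat.le_ceil _
  have hHlt : (H : ℝ) < (Z : ℝ) ^ (c - s₂ / 4) + 1 := Nat.ceil_lt_add_one (by positivity)
  have hHle : (H : ℝ) ≤ 2 * (Z : ℝ) ^ (c - s₂ / 4) := by linarith
  have hH0 : (0 : ℝ) < H := by linarith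
  have hH1 : 1 ≤ H := by
    have : 0 < H := by exact_mod_cast hH0
    omega
  have hlow := avg_lower hZ hc1 hw hwin B (Sx c) hS n H hn1 (by linarith)
  set A : ℝ := ∑ h ∈ range H, RR (Ico Z (4 * Z)) (vl2 c) w B (Sx c) (n + h) with hA
  rw [hcard] at hlow
  have hc4 : c * (4 * (Z : ℝ)) ^ (c - 1) ≤ (1 / (2 * c₂)) * (Z : ℝ) ^ (c - 1) := by
    have e1 : 1 / (2 * c₂) = ((k : ℝ) + 1) * 4 ^ k := by
      rw [hc₂]
      field_simp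
    rw [e1, Real.mul_rpow (by norm_num) hZ0.le, ← mul_assoc]
    apply mul_le_mul_of_nonneg_right _ (by positivity)
    apply mul_le_mul (by linarith) _ (by positivity) (by positivity)
    rw [← Real.rpow_natCast]
    apply Real.rpow_le_rpow_of_exponent_le (by norm_num)
    linarith
  have hAlow : P ^ 2 * (c₂ * H * (Z : ℝ) ^ (1 - c)) ≤ A :=
    low1 hZr hc₂0 hHge (mul_pos (by linarith) (Real.rpow_pos_of_pos (by linarith) _)) hc4 n1 hlow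
  -- the error
  have hcirc := circle (Ico Z (4 * Z)) (vl2 c) w B (Sx c) (fun x _ => hw x) n H hH1
    ((Z : ℝ) ^ (s₂ / 16 - c)) ((Z : ℝ) ^ (1 - s₁ / 8)) (by positivity) (by positivity) hmin
  rw [← hA, hcard] at hcirc
  have hsw : ∑ x ∈ Ico Z (4 * Z), w x ≤ 4 * Z := by
    rw [sum_Ico_eq_sum_range]
    have h1 := (abs_le.mp (hwin Z (4 * Z - Z) le_rfl (by omega))).2
    have h2 : ((4 * Z - Z : ℕ) : ℝ) = 3 * Z := by
      rw [Nat.cast_sub (by omega)]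
      push_cast
      ring
    rw [h2] at h1
    have h3 : (Z : ℝ) ^ (1 - s₂ / 2) ≤ Z := by
      conv_rhs => rw [← Real.rpow_one (Z : ℝ)]
      exact Real.rpow_le_rpow_of_exponent_le hZr (by linarith)
    linarith
  have hsw0 : 0 ≤ ∑ x ∈ Ico Z (4 * Z), w x := sum_nonneg fun x _ => hw x
  have ht0 : (Z : ℝ) / (16 * m) ≤ tt ρ x 0 := by
    rw [tt_zero]
    have h1 := (floor_half hx1).1
    refine le_trans (le_of_eq ?_) h1
    rw [hx]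
    field_simp
    ring
  have herr1 : 2 * (Z : ℝ) ^ (1 - s₁ / 8) * NN B (Sx c) ≤ c₂ / 4 * (P ^ 2 * (Z : ℝ) ^ (1 - c)) :=
    err1 hZr hmr ha hcb hba ht0 hNN n3
  have herr2 : (∑ x ∈ Ico Z (4 * Z), w x) * P ^ 2 * (2 * Real.pi * H * (Z : ℝ) ^ (s₂ / 16 - c)) *
      (2 * (Z : ℝ) ^ (s₂ / 16 - c)) ≤ c₂ / 4 * (P ^ 2 * (Z : ℝ) ^ (1 - c)) :=
    err2 hZr hsw hH0.le hHle n4
  have hAH : c₂ * (P ^ 2 * (Z : ℝ) ^ (1 - c)) ≤ A / H := by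
    rw [le_div_iff₀ hH0]
    calc c₂ * (P ^ 2 * (Z : ℝ) ^ (1 - c)) * H = P ^ 2 * (c₂ * H * (Z : ℝ) ^ (1 - c)) := by ring
      _ ≤ A := hAlow
  have hfin := (abs_le.mp hcirc).2
  have hpos : 0 < c₂ * (P ^ 2 * (Z : ℝ) ^ (1 - c)) :=
    mul_pos hc₂0 (mul_pos (pow_pos hP0 2) (Real.rpow_pos_of_pos hZ0 _))
  linarith

theorem local_main {k : ℕ} {a b ρ : ℝ} {m : ℕ} (hm : 1 ≤ m) (hka : (k : ℝ) < a) (ha : 1 < a)
    (hab : a ≤ b) (hbk : b < k + 1) (hρ0 : 0 < ρ) (hρ1 : ρ < 1)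
    (h1 : ρ ^ 2 * b < a - 1) (h2 : a - 1 < ρ * a) (h3 : a < ∑ j ∈ range m, ρ ^ j)
    (hba : b - a ≤ sv k (sv k 1 / 16) / 32) :
    ∀ᵐ c : ℝ, c ∈ Set.Icc a b → ∃ N₀ : ℕ, ∀ n : ℕ, N₀ ≤ n → ∃ x : ℕ, ∃ y z : List ℕ,
      y.length = m ∧ z.length = m ∧ vl2 c x + Sx c y + Sx c z = n := by
  set s₂ : ℝ := sv k 1 with hs₂
  set s₁ : ℝ := sv k (s₂ / 16) with hs₁
  have hs₂0 : 0 < s₂ := sv_pos k one_pos
  have hs₂8 : s₂ ≤ 1 / 8 := by simpa using sv_le k one_pos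
  have hs₁0 : 0 < s₁ := sv_pos k (by positivity)
  obtain ⟨X₀, hX₀⟩ := floorT k (s₂ / 16) (by positivity) (by linarith) a b hka ha.le hbk
  filter_upwards [bc ha hab hρ0 hρ1 h1 h2 hm h3 (show 0 < s₁ / 32 by positivity)] with c hc hcI
  have hc' := hc hcI
  obtain ⟨hca, hcb⟩ := hcI
  set c₂ : ℝ := 1 / (2 * ((k : ℝ) + 1) * 4 ^ k) with hc₂
  have hc₂0 : 0 < c₂ := by positivity
  have h2t : Tendsto (fun i : ℕ => ((2 : ℝ) ^ i)) atTop atTop :=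
    tendsto_pow_atTop_atTop_of_one_lt (by norm_num)
  have q1 : ∀ᶠ x : ℝ in atTop, x ^ (1 - s₂ / 2) + 1 ≤ c₂ * x ^ (1 - s₂ / 4) := by
    filter_upwards [(tendsto_rpow_atTop (show (0 : ℝ) < s₂ / 4 by positivity)).eventually_ge_atTop
      (2 / c₂), eventually_ge_atTop (1 : ℝ)] with x g1 g2
    have hx0 : 0 < x := by linarith
    have g3 : 1 ≤ x ^ (1 - s₂ / 2) := Real.one_le_rpow g2 (by linarith)
    have g4 : x ^ (1 - s₂ / 4) = x ^ (1 - s₂ / 2) * x ^ (s₂ / 4) := by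
      rw [← Real.rpow_add hx0]
      congr 1
      ring
    rw [g4]
    rw [div_le_iff₀ hc₂0] at g1
    nlinarith
  have q2 : ∀ᶠ x : ℝ in atTop, 2 * (2 : ℝ) ^ c * x ^ c + (x ^ (c - s₂ / 4) + 1) ≤ (4 * x) ^ c := by
    set η : ℝ := (2 : ℝ) ^ c * ((2 : ℝ) ^ c - 2) with hη
    have hη0 : 0 < η := by
      have : (2 : ℝ) < (2 : ℝ) ^ c := by
        conv_lhs => rw [← Real.rpow_one (2 : ℝ)]
        exact Real.rpow_lt_rpow_of_exponent_lt (by norm_num) (by linarith)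
      have h5 : (0 : ℝ) < (2 : ℝ) ^ c := by positivity
      rw [hη]
      apply mul_pos h5 (by linarith)
    filter_upwards [neg_pow_small 2 (s₂ / 4) η (by positivity) hη0, eventually_ge_atTop (1 : ℝ)]
      with x g1 g2
    have hx0 : 0 < x := by linarith
    have hxc : 0 < x ^ c := Real.rpow_pos_of_pos hx0 c
    have g3 : 1 ≤ x ^ (c - s₂ / 4) := Real.one_le_rpow g2 (by linarith)
    have g4 : x ^ (c - s₂ / 4) = x ^ c * x ^ (-(s₂ / 4)) := by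
      rw [← Real.rpow_add hx0]
      congr 1
    have g50 : (4 : ℝ) ^ c = (2 : ℝ) ^ c * (2 : ℝ) ^ c := by
      rw [← Real.mul_rpow (by norm_num) (by norm_num)]
      norm_num
    have g5 : (4 * x) ^ c = (2 : ℝ) ^ c * (2 : ℝ) ^ c * x ^ c := by
      rw [Real.mul_rpow (by norm_num) hx0.le, g50]
    rw [g5]
    have g6 : 2 * x ^ (c - s₂ / 4) ≤ η * x ^ c := by
      rw [g4]
      nlinarith
    rw [hη] at g6
    linarith
  have q3 := neg_pow_small (2 * (16 * m : ℝ) ^ a) (s₁ / 16) (c₂ / 4) (by positivity) (by positivity)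
  have q4 := neg_pow_small (32 * Real.pi) (s₂ / 8) (c₂ / 4) (by positivity) (by positivity)
  have q5 := (xi_tendsto hm).eventually (eventually_ge_atTop (1 : ℝ))
  have hall := (hc'.and q5).and ((h2t.eventually (q1.and (q2.and (q3.and (q4.and
    (eventually_ge_atTop X₀)))))))
  obtain ⟨i₁, hi₁⟩ := eventually_atTop.mp hall
  set y : ℝ := (2 : ℝ) ^ c with hy
  have hy1 : 1 < y := Real.one_lt_rpow (by norm_num) (by linarith)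
  refine ⟨⌈2 * y ^ i₁⌉₊ + 2, fun n hn => ?_⟩
  have hn' : 2 * y ^ i₁ ≤ n := by
    have h5 : (⌈2 * y ^ i₁⌉₊ : ℝ) ≤ n := by
      have : ⌈2 * y ^ i₁⌉₊ ≤ n := by omega
      exact_mod_cast this
    exact (Nat.le_ceil _).trans h5
  have hn2 : (1 : ℝ) ≤ (n : ℝ) / 2 := by
    have : (2 : ℝ) ≤ n := by
      have : 2 ≤ n := by omega
      exact_mod_cast this
    linarith
  obtain ⟨j, hj1, hj2⟩ := exists_nat_pow_near hn2 hy1
  have hij : i₁ ≤ j := by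
    by_contra hlt
    push Not at hlt
    have h5 : y ^ (j + 1) ≤ y ^ i₁ := pow_le_pow_right₀ hy1.le (by omega)
    linarith
  obtain ⟨⟨g1, g2⟩, g3, g4, g5, g6, g7⟩ := hi₁ j hij
  have hZcast : ((2 ^ j : ℕ) : ℝ) = (2 : ℝ) ^ j := by push_cast; rfl
  have hZc : ((2 ^ j : ℕ) : ℝ) ^ c = y ^ j := by
    rw [hZcast, hy, ← Real.rpow_natCast, ← Real.rpow_natCast, ← Real.rpow_mul (by norm_num),
      ← Real.rpow_mul (by norm_num), mul_comm]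
  have hxi : xi m j = ((2 ^ j : ℕ) : ℝ) / (8 * m) := by
    rw [hZcast]
    rfl
  obtain ⟨f1, f2⟩ := hX₀ (2 ^ j) (by rw [hZcast]; exact g7) c ⟨hca, hcb⟩
  rw [hxi, ← hZcast] at g1
  have hpos := scale_pos (k := k) (m := m) (Z := 2 ^ j) (n := n) (a := a) (b := b) (c := c) (ρ := ρ)
    hm ha hca hcb hbk hρ0 hρ1 Nat.one_le_two_pow hs₂0 hs₂8 hba hc₂
    (w := wt (HH k (s₂ / 16) (2 ^ j)) c) (fun x => wt_nonneg _ _ _) (by rw [← hxi]; exact g2)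
    f1 f2 g1 (by rw [hZcast]; exact g3) (by rw [hZcast]; exact g4) (by rw [hZcast]; exact g5)
    (by rw [hZcast]; exact g6) (by rw [hZc]; linarith) (by
      rw [hZc, ← hy]
      have : y ^ (j + 1) = y * y ^ j := by ring
      rw [this] at hj2
      linarith)
  obtain ⟨x, _, u, hu, z, hz, he⟩ := exists_of_RR_pos hpos
  exact ⟨x, u, z, len_Bx hu, len_Bx hz, he⟩

end Pool.Agent.K7.H60.WE
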