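import Pool.Agent.K7.H60.WE.Pt

set_option autoImplicit false

/-! # Waring's problem with a random exponent: integral parts

The variable `x` is weighted with a Fejér kernel, concentrated on the `x` with `x ^ c` near
`1/2 (mod 1)`; then the integral part can be replaced by `x ^ c - 1/2`. -/

namespace Pool.Agent.K7.H60.WE

open Finset Filter
open Pool.Agent.H469R2.NK (e norm_e e_add conj_e e_zero norm_sum_neg)

/-- the Fejér kernel -/
noncomputable def FJ (H : ℕ) (u : ℝ) : ℝ := ‖∑ h ∈ range H, e (h * u)‖ ^ 2 / H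

lemma FJ_nonneg (H : ℕ) (u : ℝ) : 0 ≤ FJ H u := by unfold FJ; positivity

lemma e_int (k : ℤ) : e k = 1 := by
  unfold e
  have : (((2 * Real.pi * (k : ℝ) : ℝ) : ℂ) * Complex.I) = k * (2 * Real.pi * Complex.I) := by
    push_cast
    ring
  rw [this, Complex.exp_int_mul_two_pi_mul_I]

lemma FJ_add_int (H : ℕ) (u : ℝ) (k : ℤ) : FJ H (u + k) = FJ H u := by
  unfold FJ
  congr 3
  apply sum_congr rfl
  intro h _
  have : (h : ℝ) * (u + k) = h * u + ((h * k : ℤ) : ℝ) := by push_cast; ring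
  rw [this, e_add, e_int, mul_one]

/-- `F(u) |u| ≤ H^{-1/2} (F(u) + 1) / 4` for `|u| ≤ 1/2` -/
lemma FJ_mul_abs {H : ℕ} (hH : 1 ≤ H) {u : ℝ} (hu : |u| ≤ 1 / 2) :
    FJ H u * |u| ≤ (1 / 4) * (FJ H u + 1) / Real.sqrt H := by
  have hH' : (0 : ℝ) < H := by exact_mod_cast hH
  set A : ℝ := ‖∑ h ∈ range H, e (h * u)‖ with hA
  have hA0 : 0 ≤ A := norm_nonneg _
  have h1 : A * ‖e u - 1‖ ≤ 2 := by
    have e1 : (∑ h ∈ range H, e (h * u)) * (e u - 1) = e (H * u) - 1 := by
      have e2 : ∀ h : ℕ, e (h * u) = (e u) ^ h := by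
        intro h
        induction h with
        | zero => simp [e_zero]
        | succ h ih =>
          rw [pow_succ, ← ih, ← e_add]
          congr 1
          push_cast
          ring
      simp_rw [e2]
      exact geom_sum_mul (e u) H
    rw [hA, ← norm_mul, e1]
    refine (norm_sub_le _ _).trans ?_
    rw [norm_e, norm_one]
    norm_num
  have h2 : 4 * |u| ≤ ‖e u - 1‖ := by
    have e1 : ‖e u - 1‖ = 2 * |Real.sin (Real.pi * u)| := by
      have e2 : e u - 1 = e (u / 2) * (2 * Complex.I * (Real.sin (Real.pi * u) : ℂ)) := by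
        unfold e
        have e3 : Complex.exp (((2 * Real.pi * u : ℝ) : ℂ) * Complex.I) =
            Complex.exp (((2 * Real.pi * (u / 2) : ℝ) : ℂ) * Complex.I) *
              Complex.exp (((Real.pi * u : ℝ) : ℂ) * Complex.I) := by
          rw [← Complex.exp_add]
          congr 1
          push_cast
          ring
        have e4 : (1 : ℂ) = Complex.exp (((2 * Real.pi * (u / 2) : ℝ) : ℂ) * Complex.I) *
            Complex.exp (-((Real.pi * u : ℝ) : ℂ) * Complex.I) := by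
          rw [← Complex.exp_add]
          have : (((2 * Real.pi * (u / 2) : ℝ) : ℂ) * Complex.I) +
            (-((Real.pi * u : ℝ) : ℂ) * Complex.I) = 0 := by
            push_cast
            ring
          rw [this, Complex.exp_zero]
        rw [e3]
        conv_lhs => rw [e4]
        rw [← mul_sub]
        congr 1
        rw [Complex.ofReal_sin, Complex.sin]
        have hI : Complex.I * Complex.I = -1 := Complex.I_mul_I
        linear_combination (Complex.exp (((Real.pi * u : ℝ) : ℂ) * Complex.I) -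
          Complex.exp (-((Real.pi * u : ℝ) : ℂ) * Complex.I)) * hI
      rw [e2, norm_mul, norm_e, one_mul, norm_mul, norm_mul, Complex.norm_I, Complex.norm_real,
        Real.norm_eq_abs]
      norm_num
    rw [e1]
    have h3 : 2 * |u| ≤ |Real.sin (Real.pi * u)| := by
      have h4 := Real.mul_abs_le_abs_sin (x := Real.pi * u) (by
        rw [abs_mul, abs_of_pos Real.pi_pos]
        nlinarith [Real.pi_pos])
      rw [abs_mul, abs_of_pos Real.pi_pos] at h4
      have : 2 / Real.pi * (Real.pi * |u|) = 2 * |u| := by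
        field_simp
      linarith
    linarith
  have h3 : A * |u| ≤ 1 / 2 := by nlinarith [abs_nonneg u]
  have hs : Real.sqrt H ^ 2 = H := Real.sq_sqrt hH'.le
  have hs0 : 0 < Real.sqrt H := Real.sqrt_pos.mpr hH'
  unfold FJ
  rw [← hA]
  set s := Real.sqrt H with hsdef
  rw [← hs]
  have h4 : A / s ≤ (1 / 2) * (A ^ 2 / s ^ 2 + 1) := by
    have : (A / s) ^ 2 = A ^ 2 / s ^ 2 := by rw [div_pow]
    nlinarith [sq_nonneg (A / s - 1)]
  calc A ^ 2 / s ^ 2 * |u| = (A * |u|) * (A / s) / s := by field_simp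
    _ ≤ (1 / 2) * ((1 / 2) * (A ^ 2 / s ^ 2 + 1)) / s := by
        gcongr
    _ = (1 / 4) * (A ^ 2 / s ^ 2 + 1) / s := by ring

/-- expansion of the weighted sum -/
lemma FJ_expand (H L : ℕ) (y : ℕ → ℝ) (α : ℝ) :
    ∑ n ∈ range L, (FJ H (y n) : ℂ) * e (α * y n) =
      (∑ h ∈ range H, ∑ h' ∈ range H, ∑ n ∈ range L, e (((h : ℝ) - h' + α) * y n)) / H := by
  have h1 : ∀ u : ℝ, (FJ H u : ℂ) = (∑ h ∈ range H, ∑ h' ∈ range H, e (((h : ℝ) - h') * u)) / H := by
    intro u
    unfold FJ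
    push_cast
    congr 1
    have : ((‖∑ h ∈ range H, e (h * u)‖ : ℂ)) ^ 2 =
        (∑ h ∈ range H, e (h * u)) * (starRingEnd ℂ) (∑ h ∈ range H, e (h * u)) := by
      rw [Complex.mul_conj, Complex.normSq_eq_norm_sq]
      push_cast
      rfl
    rw [this, map_sum, sum_mul_sum]
    apply sum_congr rfl
    intro h _
    apply sum_congr rfl
    intro h' _
    rw [conj_e, ← e_add]
    congr 1
    ring
  simp_rw [h1]
  have h2 : ∀ n ∈ range L, (∑ h ∈ range H, ∑ h' ∈ range H, e (((h : ℝ) - h') * y n)) / (H : ℂ) *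
      e (α * y n) = (∑ h ∈ range H, ∑ h' ∈ range H, e (((h : ℝ) - h' + α) * y n)) / H := by
    intro n _
    rw [div_mul_eq_mul_div, sum_mul]
    congr 1
    apply sum_congr rfl
    intro h _
    rw [sum_mul]
    apply sum_congr rfl
    intro h' _
    rw [← e_add]
    congr 1
    ring
  rw [sum_congr rfl h2, ← sum_div]
  congr 1
  rw [sum_comm]
  apply sum_congr rfl
  intro h _
  rw [sum_comm]

/-- the weight -/
noncomputable def wt (H : ℕ) (c : ℝ) (x : ℕ) : ℝ := FJ H ((x : ℝ) ^ c - 1 / 2)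

lemma wt_nonneg (H : ℕ) (c : ℝ) (x : ℕ) : 0 ≤ wt H c x := FJ_nonneg _ _

/-- replacing the integral part -/
lemma wt_floor {H : ℕ} (hH : 1 ≤ H) {c α : ℝ} (hα : |α| ≤ 1 / 2) (x : ℕ) :
    ‖(wt H c x : ℂ) * e (α * ⌊(x : ℝ) ^ c⌋₊) - (wt H c x : ℂ) * e (α * ((x : ℝ) ^ c - 1 / 2))‖ ≤
      (wt H c x + 1) / Real.sqrt H := by
  have hx : 0 ≤ (x : ℝ) ^ c := by positivity
  set y : ℝ := (x : ℝ) ^ c with hy
  set u : ℝ := y - 1 / 2 - ⌊y⌋₊ with hu
  have hu1 : |u| ≤ 1 / 2 := by
    have h1 := Nat.floor_le hx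
    have h2 := Nat.lt_floor_add_one y
    rw [abs_le]
    constructor <;> linarith
  have hw : wt H c x = FJ H u := by
    unfold wt
    have : y - 1 / 2 = u + ((⌊y⌋₊ : ℤ) : ℝ) := by rw [hu]; push_cast; ring
    rw [← hy, this, FJ_add_int]
  have h1 : e (α * ⌊y⌋₊) = e (α * (y - 1 / 2)) * e (-(α * u)) := by
    rw [← e_add]
    congr 1
    rw [hu]
    ring
  rw [h1]
  have h2 : (wt H c x : ℂ) * (e (α * (y - 1 / 2)) * e (-(α * u))) -
      (wt H c x : ℂ) * e (α * (y - 1 / 2)) =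
      (wt H c x : ℂ) * e (α * (y - 1 / 2)) * (e (-(α * u)) - 1) := by ring
  rw [h2, norm_mul, norm_mul, norm_e, mul_one, Complex.norm_real,
    Real.norm_of_nonneg (wt_nonneg _ _ _)]
  have h3 : ‖e (-(α * u)) - 1‖ ≤ 4 * |u| := by
    have h4 : ‖e (-(α * u)) - 1‖ ≤ 2 * Real.pi * |-(α * u)| := by
      unfold e
      have h := Real.norm_exp_I_mul_ofReal_sub_one_le (x := 2 * Real.pi * (-(α * u)))
      rw [mul_comm Complex.I] at h
      refine h.trans ?_
      rw [Real.norm_eq_abs, abs_mul, abs_of_pos (by positivity : (0 : ℝ) < 2 * Real.pi)]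
    refine h4.trans ?_
    rw [abs_neg, abs_mul]
    have h5 : |α| * |u| ≤ (1 / 2) * |u| := by gcongr
    have h6 : Real.pi ≤ 4 := Real.pi_le_four
    calc 2 * Real.pi * (|α| * |u|) ≤ 2 * 4 * ((1 / 2) * |u|) := by gcongr
      _ = 4 * |u| := by ring
  have h4 := FJ_mul_abs hH hu1
  rw [← hw] at h4
  calc wt H c x * ‖e (-(α * u)) - 1‖ ≤ wt H c x * (4 * |u|) :=
        mul_le_mul_of_nonneg_left h3 (wt_nonneg _ _ _)
    _ = 4 * (wt H c x * |u|) := by ring
    _ ≤ 4 * ((1 / 4) * (wt H c x + 1) / Real.sqrt H) := by gcongr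
    _ = _ := by ring

end Pool.Agent.K7.H60.WE
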