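import Pool.Agent.K7.H60.WE.Fi

set_option autoImplicit false

/-! # Waring's problem with a random exponent: the number of variables, and all exponents -/

namespace Pool.Agent.K7.H60.WE

open Finset Filter MeasureTheory Topology

/-- `ρ ^ (m - 1) (1 + ρ) < 1` for `ρ² = 1 - x`, `m ≥ 3 / (2 x)` -/
lemma rho_bound {ρ x : ℝ} (hρ0 : 0 < ρ) (hρ1 : ρ < 1) (hx : ρ ^ 2 = 1 - x) {l : ℕ} (hl : 1 ≤ l)
    (hlx : 3 / (2 * x) ≤ (l : ℝ) + 1) : ρ ^ l * (1 + ρ) < 1 := by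
  have hx0 : 0 < x := by nlinarith
  have hx1 : x < 1 := by nlinarith
  rcases le_or_gt (7 / 10) x with h | h
  · have h1 : ρ ≤ 6 / 10 := by nlinarith
    have h2 : ρ ^ l ≤ ρ := by
      calc ρ ^ l ≤ ρ ^ 1 := pow_le_pow_of_le_one hρ0.le hρ1.le hl
        _ = ρ := pow_one ρ
    nlinarith
  · have h1 : x + x ^ 2 / 2 ≤ -Real.log (1 - x) := by
      have hs := Real.hasSum_pow_div_log_of_abs_lt_one (x := x) (by rw [abs_of_pos hx0]; exact hx1)
      have h2 := sum_le_hasSum (range 2) (fun i _ => by positivity) hs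
      simp only [sum_range_succ, range_zero, sum_empty] at h2
      norm_num at h2
      linarith
    have h2 : Real.log (1 - x) = 2 * Real.log ρ := by
      rw [← hx, Real.log_pow]
      norm_num
    have h3 : Real.log (1 + ρ) ≤ Real.log 2 - x / 4 := by
      have h4 := Real.log_le_sub_one_of_pos (show (0 : ℝ) < (1 + ρ) / 2 by linarith)
      rw [Real.log_div (by linarith) (by norm_num)] at h4
      have h5 : x / 2 ≤ 1 - ρ := by nlinarith
      linarith
    have h6 := Real.log_two_lt_d9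
    have hlogρ : Real.log ρ ≤ -(x + x ^ 2 / 2) / 2 := by linarith
    have h7 : 3 / (2 * x) - 1 ≤ l := by linarith
    have h8 : (l : ℝ) * Real.log ρ ≤ (3 / (2 * x) - 1) * (-(x + x ^ 2 / 2) / 2) := by
      have h9 : 0 ≤ 3 / (2 * x) - 1 := by
        rw [sub_nonneg, le_div_iff₀ (by linarith)]
        linarith
      have h10 : 0 ≤ (x + x ^ 2 / 2) / 2 := by positivity
      have h11 : (l : ℝ) * Real.log ρ ≤ l * (-(x + x ^ 2 / 2) / 2) := by gcongr
      have h12 : (3 / (2 * x) - 1) * ((x + x ^ 2 / 2) / 2) ≤ l * ((x + x ^ 2 / 2) / 2) :=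
        mul_le_mul_of_nonneg_right h7 h10
      linarith
    have h13 : (3 / (2 * x) - 1) * (-(x + x ^ 2 / 2) / 2) = -(3 / 4) + x / 8 + x ^ 2 / 4 := by
      field_simp
      ring
    have h14 : Real.log (ρ ^ l * (1 + ρ)) < 0 := by
      rw [Real.log_mul (by positivity) (by positivity), Real.log_pow]
      nlinarith
    have h15 : 0 < ρ ^ l * (1 + ρ) := by positivity
    exact (Real.log_neg_iff h15).mp h14

/-- the number of the levels -/
lemma levels {c : ℝ} (hc : 1 < c) {m : ℕ} (hm : 3 * c / 2 ≤ m) :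
    c < ∑ j ∈ range m, (Real.sqrt (1 - 1 / c)) ^ j := by
  have hc0 : 0 < c := by linarith
  have hx1 : 1 / c < 1 := by rw [div_lt_one hc0]; exact hc
  have hx0 : 0 < 1 / c := by positivity
  set ρ := Real.sqrt (1 - 1 / c) with hρ
  have hsq : ρ ^ 2 = 1 - 1 / c := Real.sq_sqrt (by linarith)
  have hρ0 : 0 < ρ := Real.sqrt_pos.mpr (by linarith)
  have hρ1 : ρ < 1 := by nlinarith
  have hm2 : 2 ≤ m := by
    have : (1 : ℝ) < m := by linarith
    have : 1 < m := by exact_mod_cast this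
    omega
  obtain ⟨l, rfl⟩ : ∃ l, m = l + 1 := ⟨m - 1, by omega⟩
  have h1 := rho_bound (x := 1 / c) hρ0 hρ1 hsq (l := l) (by omega) (by
    have e : 3 / (2 * (1 / c)) = 3 * c / 2 := by field_simp
    rw [e]
    push_cast at hm
    linarith)
  have h2 := geom_sum_mul_neg ρ (l + 1)
  have h3 : c * (1 - ρ) * (1 + ρ) = 1 := by
    have : c * (1 - ρ) * (1 + ρ) = c * (1 - ρ ^ 2) := by ring
    rw [this, hsq]
    field_simp
    ring
  have h4 : c * (1 - ρ) < (∑ j ∈ range (l + 1), ρ ^ j) * (1 - ρ) := by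
    rw [h2]
    have h5 : 0 < 1 + ρ := by linarith
    have h6 : c * (1 - ρ) * (1 + ρ) < (1 - ρ ^ (l + 1)) * (1 + ρ) := by
      rw [h3, pow_succ]
      nlinarith
    exact lt_of_mul_lt_mul_right h6 h5.le
  exact lt_of_mul_lt_mul_right h4 (by linarith)

/-- the assertion for the exponent `c` -/
def Q (c : ℝ) : Prop := ∀ s : ℕ, 3 * c + 3 ≤ s → ∃ N : ℕ, ∀ n : ℕ, N ≤ n →
  ∃ x : Fin s → ℕ, ∑ i, ⌊(x i : ℝ) ^ c⌋₊ = n

lemma fin_of_lists {c : ℝ} (hc : 0 < c) {m s n : ℕ} (hs : 2 * m + 1 ≤ s) {x : ℕ} {y z : List ℕ}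
    (hy : y.length = m) (hz : z.length = m) (h : vl2 c x + Sx c y + Sx c z = n) :
    ∃ x : Fin s → ℕ, ∑ i, ⌊(x i : ℝ) ^ c⌋₊ = n := by
  set l : List ℕ := x :: (y ++ z) ++ List.replicate (s - (2 * m + 1)) 0 with hl
  have h0 : vl2 c 0 = 0 := by
    unfold vl2
    rw [Nat.cast_zero, Real.zero_rpow hc.ne']
    simp
  have hlen : l.length = s := by
    rw [hl]
    simp only [List.length_append, List.length_cons, List.length_replicate, hy, hz]
    omega
  have hsum : (l.map (vl2 c)).sum = n := by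
    rw [hl]
    simp only [List.map_append, List.map_cons, List.map_replicate, List.sum_append, List.sum_cons,
      List.sum_replicate, h0, smul_zero, add_zero]
    unfold Sx at h
    omega
  clear_value l
  subst hlen
  refine ⟨fun i => l[i.1], ?_⟩
  rw [← hsum, ← Fin.sum_univ_fun_getElem l (vl2 c)]
  rfl

/-- the theorem near an exponent which is not an integer -/
lemma near {c₀ : ℝ} (hc₀ : 1 < c₀) (hni : ∀ k : ℕ, c₀ ≠ k) :
    ∃ η : ℝ, 0 < η ∧ ∀ᵐ c : ℝ, c ∈ Set.Icc (c₀ - η) (c₀ + η) → Q c := by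
  set m : ℕ := ⌈3 * c₀ / 2⌉₊ with hm
  have hm1 : 3 * c₀ / 2 ≤ m := Nat.le_ceil _
  have hm2 : (m : ℝ) < 3 * c₀ / 2 + 1 := Nat.ceil_lt_add_one (by linarith)
  have hmpos : 1 ≤ m := by
    have : (0 : ℝ) < m := by linarith
    have : 0 < m := by exact_mod_cast this
    omega
  set k : ℕ := ⌊c₀⌋₊ with hk
  have hk1 : (k : ℝ) < c₀ := lt_of_le_of_ne (Nat.floor_le (by linarith)) (fun h => hni k h.symm)
  have hk2 : c₀ < k + 1 := Nat.lt_floor_add_one _
  set ρ₀ := Real.sqrt (1 - 1 / c₀) with hρ₀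
  have hx1 : 1 / c₀ < 1 := by rw [div_lt_one (by linarith)]; exact hc₀
  have hx0 : 0 < 1 / c₀ := by positivity
  have hsq : ρ₀ ^ 2 = 1 - 1 / c₀ := Real.sq_sqrt (by linarith)
  have hρ0 : 0 < ρ₀ := Real.sqrt_pos.mpr (by linarith)
  have hρ1 : ρ₀ < 1 := by nlinarith
  have hlev := levels hc₀ hm1
  rw [← hρ₀] at hlev
  have hcc : c₀ * (1 / c₀) = 1 := by field_simp
  -- choice of `ρ`
  have e1 : ∀ᶠ ρ in 𝓝 ρ₀, c₀ < ∑ j ∈ range m, ρ ^ j := by
    have hcont : Continuous fun ρ : ℝ => ∑ j ∈ range m, ρ ^ j :=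
      continuous_finsetSum _ fun j _ => continuous_pow j
    exact (hcont.tendsto ρ₀).eventually_const_lt hlev
  have e2 : ∀ᶠ ρ in 𝓝 ρ₀, c₀ - 1 < ρ * c₀ := by
    have hcont : Continuous fun ρ : ℝ => ρ * c₀ := by fun_prop
    apply (hcont.tendsto ρ₀).eventually_const_lt
    have : c₀ - 1 = ρ₀ ^ 2 * c₀ := by rw [hsq]; linarith
    rw [this]
    nlinarith [mul_pos hρ0 (show 0 < c₀ by linarith)]
  have e3 : ∀ᶠ ρ in 𝓝 ρ₀, 0 < ρ := (continuous_id.tendsto ρ₀).eventually_const_lt hρ0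
  have e4 := ((e1.and e2).and e3).filter_mono (nhdsWithin_le_nhds (s := Set.Iio ρ₀))
  obtain ⟨ρ, ⟨⟨⟨f1, f2⟩, f3⟩, f4⟩⟩ := (e4.and self_mem_nhdsWithin).exists
  have f4' : ρ < ρ₀ := f4
  have f5 : ρ ^ 2 * c₀ < c₀ - 1 := by
    have : c₀ - 1 = ρ₀ ^ 2 * c₀ := by rw [hsq]; linarith
    rw [this]
    have : ρ ^ 2 < ρ₀ ^ 2 := by nlinarith
    nlinarith
  -- choice of `η`
  have hs : 0 < sv k (sv k 1 / 16) / 64 := by
    have h1 := sv_pos k one_pos
    have := sv_pos k (σ := sv k 1 / 16) (by positivity)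
    positivity
  have c1 : ∀ᶠ η in 𝓝 (0 : ℝ), ρ ^ 2 * (c₀ + η) < (c₀ - η) - 1 := by
    apply Filter.Tendsto.eventually_lt (f := fun η : ℝ => ρ ^ 2 * (c₀ + η))
      (g := fun η : ℝ => (c₀ - η) - 1) (by
        have : Continuous fun η : ℝ => ρ ^ 2 * (c₀ + η) := by fun_prop
        exact this.tendsto 0) (by
        have : Continuous fun η : ℝ => (c₀ - η) - 1 := by fun_prop
        exact this.tendsto 0)
    simpa using f5
  have c2 : ∀ᶠ η in 𝓝 (0 : ℝ), (c₀ - η) - 1 < ρ * (c₀ - η) := by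
    apply Filter.Tendsto.eventually_lt (f := fun η : ℝ => (c₀ - η) - 1)
      (g := fun η : ℝ => ρ * (c₀ - η)) (by
        have : Continuous fun η : ℝ => (c₀ - η) - 1 := by fun_prop
        exact this.tendsto 0) (by
        have : Continuous fun η : ℝ => ρ * (c₀ - η) := by fun_prop
        exact this.tendsto 0)
    simpa using f2
  have c3 : ∀ᶠ η in 𝓝 (0 : ℝ), η < sv k (sv k 1 / 16) / 64 :=
    (continuous_id.tendsto (0 : ℝ)).eventually_lt_const (by simpa using hs)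
  have c4 : ∀ᶠ η in 𝓝 (0 : ℝ), η < min (c₀ - k) (min (k + 1 - c₀) (min (c₀ - 1)
      (3 * c₀ + 2 - 2 * m) / 3)) := by
    apply (continuous_id.tendsto (0 : ℝ)).eventually_lt_const
    simp only [id]
    refine lt_min (by linarith) (lt_min (by linarith) ?_)
    have : 0 < min (c₀ - 1) (3 * c₀ + 2 - 2 * m) := lt_min (by linarith) (by linarith)
    positivity
  have c5 := (((c1.and c2).and c3).and c4).filter_mono (nhdsWithin_le_nhds (s := Set.Ioi (0 : ℝ)))
  obtain ⟨η, ⟨⟨⟨⟨g1, g2⟩, g3⟩, g4⟩, g5⟩⟩ := (c5.and self_mem_nhdsWithin).exists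
  have g5' : 0 < η := g5
  have g6 := lt_min_iff.mp g4
  have g7 := lt_min_iff.mp g6.2
  have g8 : η * 3 < min (c₀ - 1) (3 * c₀ + 2 - 2 * m) := by
    have := g7.2
    rwa [lt_div_iff₀ (by norm_num)] at this
  have g9 := lt_min_iff.mp g8
  refine ⟨η, g5', ?_⟩
  have hmain := local_main (k := k) (a := c₀ - η) (b := c₀ + η) (ρ := ρ) (m := m) hmpos
    (by linarith [g6.1]) (by linarith [g9.1]) (by linarith) (by linarith [g7.1]) f3
    (by linarith) g1 g2 (by linarith) (by linarith)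
  filter_upwards [hmain] with c hc hcI
  intro s hs
  obtain ⟨N₀, hN₀⟩ := hc hcI
  refine ⟨N₀, fun n hn => ?_⟩
  obtain ⟨x, y, z, hy, hz, h⟩ := hN₀ n hn
  refine fin_of_lists (by linarith [hcI.1, g9.1]) ?_ hy hz h
  have h1 : ((2 * m + 1 : ℕ) : ℝ) ≤ s := by
    push_cast
    linarith [hcI.1, g9.2]
  exact_mod_cast h1

theorem main : ∀ᵐ c : ℝ, 1 < c → Q c := by
  have hint : ∀ᵐ c : ℝ, ∀ k : ℕ, c ≠ k := by
    rw [ae_all_iff]
    intro k
    exact Measure.ae_ne volume (k : ℝ)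
  have hnull : volume {c : ℝ | 1 < c ∧ (∀ k : ℕ, c ≠ k) ∧ ¬ Q c} = 0 := by
    apply measure_null_of_locally_null
    intro c hc
    obtain ⟨hc1, hc2, _⟩ := hc
    obtain ⟨η, hη, hQ⟩ := near hc1 hc2
    refine ⟨Set.Icc (c - η) (c + η) ∩ {c : ℝ | 1 < c ∧ (∀ k : ℕ, c ≠ k) ∧ ¬ Q c}, ?_, ?_⟩
    · exact inter_mem (mem_nhdsWithin_of_mem_nhds (Icc_mem_nhds (by linarith) (by linarith)))
        self_mem_nhdsWithin
    · rw [ae_iff] at hQ
      refine measure_mono_null ?_ hQ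
      intro y hy
      simp only [Set.mem_ofPred_eq, not_forall]
      exact ⟨hy.1, hy.2.2.2⟩
  have h2 : ∀ᵐ c : ℝ, ¬ (1 < c ∧ (∀ k : ℕ, c ≠ k) ∧ ¬ Q c) := by
    rw [ae_iff]
    simpa using hnull
  filter_upwards [hint, h2] with c h3 h4 h5
  by_contra h6
  exact h4 ⟨h5, h3, h6⟩

end Pool.Agent.K7.H60.WE
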