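import Pool.Agent.K7.H60.WE.Ci

set_option autoImplicit false

/-! # Waring's problem with a random exponent: the circle method in mean square

The number of solutions with one system of variables is compared with its mean value over a window,
in mean square over the integers. -/

namespace Pool.Agent.K7.H60.WE

open Finset MeasureTheory
open Pool.Agent.H469R2.NK (e norm_e e_add conj_e e_zero)

section

variable {ι : Type*} (I : Finset ℕ) (v : ℕ → ℕ) (w : ℕ → ℝ) (B : Finset ι) (S : ι → ℕ)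

/-- the weighted number of solutions, with one system of variables -/
noncomputable def R1 (n : ℕ) : ℝ := ∑ x ∈ I, ∑ y ∈ B, if v x + S y = n then w x else 0

lemma R1_eq (n : ℕ) : (R1 I v w B S n : ℂ) =
    ∫ α in (-1 / 2 : ℝ)..(1 / 2), TT I v w α * GG B S α * e (α * (-(n : ℝ))) := by
  have h1 : ∀ α : ℝ, TT I v w α * GG B S α * e (α * (-(n : ℝ))) =
      ∑ x ∈ I, ∑ y ∈ B, (w x : ℂ) *
        e (α * (((v x + S y : ℕ) : ℤ) - (n : ℤ) : ℤ)) := by
    intro α
    unfold TT GG
    rw [sum_mul_sum, sum_mul]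
    apply sum_congr rfl
    intro x _
    rw [sum_mul]
    apply sum_congr rfl
    intro y _
    have e1 : α * (((((v x + S y : ℕ) : ℤ) - (n : ℤ) : ℤ)) : ℝ) =
        α * v x + α * S y + α * (-(n : ℝ)) := by
      push_cast
      ring
    rw [e1, e_add, e_add]
    ring
  simp_rw [h1]
  rw [intervalIntegral.integral_finsetSum (fun x _ => by
    apply Continuous.intervalIntegrable
    exact continuous_finsetSum _ fun y _ => continuous_const.mul (e_cont _))]
  unfold R1
  push_cast
  apply sum_congr rfl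
  intro x _
  rw [intervalIntegral.integral_finsetSum (fun y _ => by
    apply Continuous.intervalIntegrable
    exact continuous_const.mul (e_cont _))]
  apply sum_congr rfl
  intro y _
  have e3 : ((v x : ℝ) + S y - n) = ((((v x + S y : ℕ) : ℤ) - (n : ℤ) : ℤ) : ℝ) := by
    push_cast
    ring
  rw [intervalIntegral.integral_const_mul, e3, e_orth]
  by_cases h : v x + S y = n
  · rw [if_pos h, if_pos (by rw [h]; ring), mul_one]
  · rw [if_neg h, if_neg (by
      intro h2
      apply h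
      have : ((v x + S y : ℕ) : ℤ) = n := by linarith
      exact_mod_cast this), mul_zero]
    norm_num

end

lemma TT_sq (E : Finset ℕ) (d : ℕ → ℝ) :
    ∫ α in (-1 / 2 : ℝ)..(1 / 2), ‖TT E id d α‖ ^ 2 = ∑ n ∈ E, d n ^ 2 := by
  have h1 : ∀ α : ℝ, ((‖TT E id d α‖ ^ 2 : ℝ) : ℂ) =
      ∑ y ∈ E, ∑ z ∈ E, ((d y : ℂ) * (d z : ℂ)) * e (α * ((y : ℤ) - (z : ℤ) : ℤ)) := by
    intro α
    rw [← Complex.normSq_eq_norm_sq, ← Complex.mul_conj]
    unfold TT
    rw [map_sum, sum_mul_sum]
    apply sum_congr rfl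
    intro y _
    apply sum_congr rfl
    intro z _
    rw [map_mul, Complex.conj_ofReal, conj_e]
    have e1 : α * (((y : ℤ) - (z : ℤ) : ℤ) : ℝ) = α * (id y : ℕ) + (-(α * (id z : ℕ))) := by
      push_cast
      simp only [id]
      ring
    rw [e1, e_add]
    ring
  have h2 : ((∫ α in (-1 / 2 : ℝ)..(1 / 2), ‖TT E id d α‖ ^ 2 : ℝ) : ℂ) =
      ((∑ n ∈ E, d n ^ 2 : ℝ) : ℂ) := by
    rw [← intervalIntegral.integral_ofReal]
    simp_rw [h1]
    rw [intervalIntegral.integral_finsetSum (fun y _ => by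
      apply Continuous.intervalIntegrable
      exact continuous_finsetSum _ fun z _ => continuous_const.mul (e_cont _))]
    push_cast
    apply sum_congr rfl
    intro y hy
    rw [intervalIntegral.integral_finsetSum (fun z _ => by
      apply Continuous.intervalIntegrable
      exact continuous_const.mul (e_cont _))]
    rw [sum_eq_single y]
    · have e3 : ((y : ℝ) - y) = (((y : ℤ) - (y : ℤ) : ℤ) : ℝ) := by
        push_cast
        ring
      rw [intervalIntegral.integral_const_mul, e3, e_orth, if_pos (by ring)]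
      norm_num
      ring
    · intro z _ hz
      have e3 : ((y : ℝ) - z) = (((y : ℤ) - (z : ℤ) : ℤ) : ℝ) := by
        push_cast
        ring
      rw [intervalIntegral.integral_const_mul, e3, e_orth, if_neg (by
        intro h
        apply hz
        have : (z : ℤ) = y := by linarith
        exact_mod_cast this)]
      norm_num
    · intro h
      exact absurd hy h
  exact_mod_cast h2

/-- Bessel's inequality -/
lemma bessel {F : ℝ → ℂ} (hF : Continuous F) (E : Finset ℕ) (d : ℕ → ℝ)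
    (h : ∀ n ∈ E, (d n : ℂ) = ∫ α in (-1 / 2 : ℝ)..(1 / 2), F α * e (α * (-(n : ℝ)))) :
    ∑ n ∈ E, d n ^ 2 ≤ ∫ α in (-1 / 2 : ℝ)..(1 / 2), ‖F α‖ ^ 2 := by
  set G : ℝ → ℂ := TT E id d with hG
  have hGc : Continuous G := TT_cont _ _ _
  have h1 : ∫ α in (-1 / 2 : ℝ)..(1 / 2), F α * (starRingEnd ℂ) (G α) =
      ((∑ n ∈ E, d n ^ 2 : ℝ) : ℂ) := by
    have e1 : ∀ α : ℝ, F α * (starRingEnd ℂ) (G α) =
        ∑ n ∈ E, (d n : ℂ) * (F α * e (α * (-(n : ℝ)))) := by
      intro α
      rw [hG]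
      unfold TT
      rw [map_sum, mul_sum]
      apply sum_congr rfl
      intro n _
      rw [map_mul, Complex.conj_ofReal, conj_e]
      have e2 : -(α * ((id n : ℕ) : ℝ)) = α * (-(n : ℝ)) := by
        simp only [id]
        ring
      rw [e2]
      ring
    simp_rw [e1]
    rw [intervalIntegral.integral_finsetSum (fun n _ => by
      apply Continuous.intervalIntegrable
      exact continuous_const.mul (hF.mul (e_cont _)))]
    push_cast
    apply sum_congr rfl
    intro n hn
    rw [intervalIntegral.integral_const_mul, ← h n hn]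
    ring
  have h2 : ∫ α in (-1 / 2 : ℝ)..(1 / 2), (F α * (starRingEnd ℂ) (G α)).re =
      ∑ n ∈ E, d n ^ 2 := by
    have h3 := Complex.reCLM.intervalIntegral_comp_comm (μ := volume) (a := (-1 / 2 : ℝ))
      (b := (1 / 2 : ℝ)) (f := fun α => F α * (starRingEnd ℂ) (G α)) (by
        apply Continuous.intervalIntegrable
        exact hF.mul (Complex.continuous_conj.comp hGc))
    simp only [Complex.reCLM_apply] at h3
    rw [h3, h1, Complex.ofReal_re]
  have h3 : ∀ α : ℝ, ‖F α - G α‖ ^ 2 =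
      ‖F α‖ ^ 2 - 2 * (F α * (starRingEnd ℂ) (G α)).re + ‖G α‖ ^ 2 := by
    intro α
    rw [← Complex.normSq_eq_norm_sq, ← Complex.normSq_eq_norm_sq, ← Complex.normSq_eq_norm_sq,
      Complex.normSq_sub]
    ring
  have h4 : 0 ≤ ∫ α in (-1 / 2 : ℝ)..(1 / 2), ‖F α - G α‖ ^ 2 :=
    intervalIntegral.integral_nonneg (by norm_num) fun α _ => by positivity
  have h5 : ∫ α in (-1 / 2 : ℝ)..(1 / 2), ‖F α - G α‖ ^ 2 =
      (∫ α in (-1 / 2 : ℝ)..(1 / 2), ‖F α‖ ^ 2) - 2 * (∑ n ∈ E, d n ^ 2) + ∑ n ∈ E, d n ^ 2 := by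
    simp_rw [h3]
    have i1 : IntervalIntegrable (fun α => ‖F α‖ ^ 2) volume (-1 / 2) (1 / 2) :=
      (hF.norm.pow 2).intervalIntegrable _ _
    have i2 : IntervalIntegrable (fun α => 2 * (F α * (starRingEnd ℂ) (G α)).re) volume
        (-1 / 2) (1 / 2) :=
      (continuous_const.mul (Complex.continuous_re.comp
        (hF.mul (Complex.continuous_conj.comp hGc)))).intervalIntegrable _ _
    have i3 : IntervalIntegrable (fun α => ‖G α‖ ^ 2) volume (-1 / 2) (1 / 2) :=
      (hGc.norm.pow 2).intervalIntegrable _ _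
    rw [intervalIntegral.integral_add (i1.sub i2) i3, intervalIntegral.integral_sub i1 i2,
      intervalIntegral.integral_const_mul, h2, hG, TT_sq]
  linarith

section

variable {ι : Type*} (I : Finset ℕ) (v : ℕ → ℕ) (w : ℕ → ℝ) (B : Finset ι) (S : ι → ℕ)

theorem circle2 (hw : ∀ x ∈ I, 0 ≤ w x) (E : Finset ℕ) (H : ℕ) (hH : 1 ≤ H) (δ W₁ : ℝ) (hδ : 0 ≤ δ)
    (hW₁ : 0 ≤ W₁) (hmin : ∀ α : ℝ, |α| ≤ 1 / 2 → δ ≤ |α| → ‖TT I v w α‖ ≤ W₁) :
    ∑ n ∈ E, ((∑ h ∈ range H, R1 I v w B S (n + h)) / H - R1 I v w B S n) ^ 2 ≤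
      4 * W₁ ^ 2 * NN B S +
        ((∑ x ∈ I, w x) * (B.card : ℝ) * (2 * Real.pi * H * δ)) ^ 2 * (2 * δ) := by
  have hH' : (0 : ℝ) < H := by exact_mod_cast hH
  have hHc : (H : ℂ) ≠ 0 := by exact_mod_cast hH'.ne'
  set F : ℝ → ℂ := fun α => TT I v w α * GG B S α * DD H α with hF
  have hFc : Continuous F := ((TT_cont I v w).mul (GG_cont B S)).mul (DD_cont H)
  have hb := bessel hFc E (fun n => (∑ h ∈ range H, R1 I v w B S (n + h)) / H - R1 I v w B S n) (by
    intro n _
    push_cast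
    have h1 : ∀ h : ℕ, (R1 I v w B S (n + h) : ℂ) =
        ∫ α in (-1 / 2 : ℝ)..(1 / 2), TT I v w α * GG B S α * e (α * (-((n + h : ℕ) : ℝ))) :=
      fun h => R1_eq I v w B S (n + h)
    simp_rw [h1]
    rw [R1_eq]
    rw [← intervalIntegral.integral_finsetSum (fun h _ => by
      apply Continuous.intervalIntegrable
      exact ((TT_cont I v w).mul (GG_cont B S)).mul (e_cont _)),
      ← intervalIntegral.integral_div, ← intervalIntegral.integral_sub]
    · congr 1
      funext α
      have e1 : ∀ h : ℕ, e (α * (-((n + h : ℕ) : ℝ))) = e (α * (-(n : ℝ))) * e (α * (-(h : ℝ))) := by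
        intro h
        rw [← e_add]
        congr 1
        push_cast
        ring
      simp_rw [e1, ← mul_assoc, ← mul_sum]
      rw [hF]
      simp only [DD]
      ring
    · apply Continuous.intervalIntegrable
      exact (continuous_finsetSum _ fun h _ =>
        ((TT_cont I v w).mul (GG_cont B S)).mul (e_cont _)).div_const _
    · apply Continuous.intervalIntegrable
      exact ((TT_cont I v w).mul (GG_cont B S)).mul (e_cont _))
  refine hb.trans ?_
  set W₀ := ∑ x ∈ I, w x with hW₀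
  have hW₀0 : 0 ≤ W₀ := sum_nonneg hw
  set C : ℝ := W₀ * (B.card : ℝ) * (2 * Real.pi * H * δ) with hC
  have hC0 : 0 ≤ C := by positivity
  set g : ℝ → ℝ := fun α => 4 * W₁ ^ 2 * ‖GG B S α‖ ^ 2 +
    (Set.Icc (-δ) δ).indicator (fun _ => C ^ 2) α with hg
  have hbound : ∀ α ∈ Set.Icc (-1 / 2 : ℝ) (1 / 2), ‖F α‖ ^ 2 ≤ g α := by
    intro α hα
    have ha2 : |α| ≤ 1 / 2 := abs_le.mpr ⟨by linarith [hα.1], hα.2⟩
    rw [hF, hg]
    simp only [norm_mul]
    have hD2 := DD_le_two hH α
    have hDs := DD_small hH α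
    have hT := TT_norm_le I v w hw α
    have hG := GG_norm_le B S α
    rcases le_or_gt |α| δ with h | h
    · rw [Set.indicator_of_mem (by
        rw [Set.mem_Icc]
        exact abs_le.mp h)]
      have h1 : ‖DD H α‖ ≤ 2 * Real.pi * H * δ := by
        refine hDs.trans ?_
        gcongr
      have h2 : ‖TT I v w α‖ * ‖GG B S α‖ * ‖DD H α‖ ≤ C := by
        rw [hC]
        gcongr
      have h3 : 0 ≤ 4 * W₁ ^ 2 * ‖GG B S α‖ ^ 2 := by positivity
      have h4 : (‖TT I v w α‖ * ‖GG B S α‖ * ‖DD H α‖) ^ 2 ≤ C ^ 2 :=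
        pow_le_pow_left₀ (by positivity) h2 2
      linarith
    · have h1 := hmin α ha2 h.le
      have h2 : ‖TT I v w α‖ * ‖GG B S α‖ * ‖DD H α‖ ≤ W₁ * ‖GG B S α‖ * 2 := by
        gcongr
      have h3 : 0 ≤ (Set.Icc (-δ) δ).indicator (fun _ => C ^ 2) α :=
        Set.indicator_nonneg (fun _ _ => by positivity) α
      have h4 : (‖TT I v w α‖ * ‖GG B S α‖ * ‖DD H α‖) ^ 2 ≤ (W₁ * ‖GG B S α‖ * 2) ^ 2 :=
        pow_le_pow_left₀ (by positivity) h2 2
      have h5 : (W₁ * ‖GG B S α‖ * 2) ^ 2 = 4 * W₁ ^ 2 * ‖GG B S α‖ ^ 2 := by ring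
      linarith
  have hgint1 : IntervalIntegrable (fun α => 4 * W₁ ^ 2 * ‖GG B S α‖ ^ 2) volume
      (-1 / 2) (1 / 2) := by
    apply Continuous.intervalIntegrable
    exact continuous_const.mul ((GG_cont B S).norm.pow 2)
  have hgi : Integrable ((Set.Icc (-δ) δ).indicator (fun _ : ℝ => C ^ 2)) volume := by
    rw [integrable_indicator_iff measurableSet_Icc]
    exact integrableOn_const (by simp) (by simp)
  have hgint2 : IntervalIntegrable ((Set.Icc (-δ) δ).indicator (fun _ : ℝ => C ^ 2)) volume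
      (-1 / 2) (1 / 2) := hgi.intervalIntegrable
  have h1 : ∫ α in (-1 / 2 : ℝ)..(1 / 2), ‖F α‖ ^ 2 ≤ ∫ α in (-1 / 2 : ℝ)..(1 / 2), g α := by
    apply intervalIntegral.integral_mono_on (by norm_num)
    · exact (hFc.norm.pow 2).intervalIntegrable _ _
    · exact hgint1.add hgint2
    · exact hbound
  have h2 : ∫ α in (-1 / 2 : ℝ)..(1 / 2), g α ≤ 4 * W₁ ^ 2 * NN B S + C ^ 2 * (2 * δ) := by
    rw [hg, intervalIntegral.integral_add hgint1 hgint2, intervalIntegral.integral_const_mul, GG_sq]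
    have h3 : ∫ α in (-1 / 2 : ℝ)..(1 / 2), (Set.Icc (-δ) δ).indicator (fun _ : ℝ => C ^ 2) α ≤
        C ^ 2 * (2 * δ) := by
      rw [intervalIntegral.integral_of_le (by norm_num)]
      calc ∫ α in Set.Ioc (-1 / 2 : ℝ) (1 / 2), (Set.Icc (-δ) δ).indicator (fun _ : ℝ => C ^ 2) α ≤
          ∫ α, (Set.Icc (-δ) δ).indicator (fun _ : ℝ => C ^ 2) α :=
            setIntegral_le_integral hgi (ae_of_all _ fun α =>
              Set.indicator_nonneg (fun _ _ => by positivity) α)
        _ = C ^ 2 * (2 * δ) := by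
            rw [integral_indicator measurableSet_Icc, setIntegral_const]
            simp only [measureReal_def, Real.volume_Icc, smul_eq_mul]
            rw [ENNReal.toReal_ofReal (by linarith)]
            ring
    linarith
  exact h1.trans h2

end

end Pool.Agent.K7.H60.WE
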