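import Pool.Agent.K7.H60.WE.Lo
import Pool.Agent.K7.H60.WE.Ms
import Pool.Agent.H170R2.PC.Primes

set_option autoImplicit false

/-! # Waring's problem with a random exponent: one system of prime variables, average over a window -/

namespace Pool.Agent.K7.H60.WE

open Finset Filter

theorem avg_lower1 {Z : ℕ} (hZ : 1 ≤ Z) {c E : ℝ} (hc : 1 ≤ c) {w : ℕ → ℝ} (hw : ∀ x, 0 ≤ w x)
    (hwin : ∀ u L : ℕ, Z ≤ u → u + L ≤ 4 * Z → |∑ n ∈ range L, w (u + n) - L| ≤ E)
    (B : Finset (List ℕ)) (S : List ℕ → ℕ) (hS : ∀ y ∈ B, (S y : ℝ) ≤ (Z : ℝ) ^ c / 4) (n H : ℕ)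
    (hn : 2 * (Z : ℝ) ^ c ≤ n) (hnH : (n : ℝ) + H ≤ (4 * (Z : ℝ)) ^ c) :
    (B.card : ℝ) * (H / (c * (4 * (Z : ℝ)) ^ (c - 1)) - 1 - E) ≤
      ∑ h ∈ range H, R1 (Ico Z (4 * Z)) (vl2 c) w B S (n + h) := by
  have hc0 : 0 < c := by linarith
  have hZr : (1 : ℝ) ≤ Z := by exact_mod_cast hZ
  have hZ0 : (0 : ℝ) < Z := by linarith
  have hZc : 0 < (Z : ℝ) ^ c := Real.rpow_pos_of_pos hZ0 c
  have hswap : ∑ h ∈ range H, R1 (Ico Z (4 * Z)) (vl2 c) w B S (n + h) =
      ∑ y ∈ B, ∑ x ∈ Ico Z (4 * Z), ∑ h ∈ range H,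
        if vl2 c x + S y = n + h then w x else 0 := by
    unfold R1
    rw [sum_comm]
    have e1 : ∀ x ∈ Ico Z (4 * Z), ∑ h ∈ range H, ∑ y ∈ B,
        (if vl2 c x + S y = n + h then w x else 0) =
        ∑ y ∈ B, ∑ h ∈ range H, (if vl2 c x + S y = n + h then w x else 0) := by
      intro x _
      rw [sum_comm]
    rw [sum_congr rfl e1, sum_comm]
  rw [hswap]
  have hkey : ∀ y ∈ B, H / (c * (4 * (Z : ℝ)) ^ (c - 1)) - 1 - E ≤
      ∑ x ∈ Ico Z (4 * Z), ∑ h ∈ range H,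
        if vl2 c x + S y = n + h then w x else 0 := by
    intro y hy
    set s : ℕ := S y with hs
    have hsr : (s : ℝ) ≤ (Z : ℝ) ^ c / 2 := by
      have h1 := hS y hy
      rw [hs]
      linarith
    have hsn : s ≤ n := by
      have : (s : ℝ) ≤ n := by linarith
      exact_mod_cast this
    set N : ℕ := n - s with hN
    have hNr : (N : ℝ) = n - s := by rw [hN, Nat.cast_sub hsn]
    have hN1 : (Z : ℝ) ^ c ≤ N := by rw [hNr]; linarith
    have hN0 : (0 : ℝ) < N := by linarith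
    have hNH : (N : ℝ) + H ≤ (4 * (Z : ℝ)) ^ c := by
      rw [hNr]
      have : (0 : ℝ) ≤ s := Nat.cast_nonneg s
      linarith
    have hlen := window_len hN0 (Nat.cast_nonneg H) hZ0 hc hNH
    set V : ℝ := (N : ℝ) ^ (1 / c) with hV
    set U : ℝ := ((N : ℝ) + H) ^ (1 / c) with hU
    have hVU : V ≤ U := Real.rpow_le_rpow hN0.le (by
      have : (0 : ℝ) ≤ H := Nat.cast_nonneg H
      linarith) (by positivity)
    have hV0 : 0 ≤ V := by positivity
    set u₁ : ℕ := ⌈V⌉₊ with hu₁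
    set u₂ : ℕ := ⌈U⌉₊ with hu₂
    have h12 : u₁ ≤ u₂ := Nat.ceil_mono hVU
    have hVc : V ^ c = N := by
      rw [hV, ← Real.rpow_mul hN0.le, one_div_mul_cancel hc0.ne', Real.rpow_one]
    have hUc : U ^ c = N + H := by
      rw [hU, ← Real.rpow_mul (by positivity), one_div_mul_cancel hc0.ne', Real.rpow_one]
    have hZu : Z ≤ u₁ := by
      have h1 : (Z : ℝ) ≤ V := by
        rw [hV]
        calc (Z : ℝ) = ((Z : ℝ) ^ c) ^ (1 / c) := by
              rw [← Real.rpow_mul hZ0.le, mul_one_div_cancel hc0.ne', Real.rpow_one]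
          _ ≤ _ := Real.rpow_le_rpow hZc.le hN1 (by positivity)
      have h2 : (Z : ℝ) ≤ u₁ := h1.trans (Nat.le_ceil V)
      exact_mod_cast h2
    have hu4 : u₂ ≤ 4 * Z := by
      apply Nat.ceil_le.mpr
      push_cast
      rw [hU]
      calc ((N : ℝ) + H) ^ (1 / c) ≤ ((4 * (Z : ℝ)) ^ c) ^ (1 / c) :=
            Real.rpow_le_rpow (by positivity) hNH (by positivity)
        _ = 4 * Z := by
            rw [← Real.rpow_mul (by positivity), mul_one_div_cancel hc0.ne', Real.rpow_one]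
    have hcond : ∀ x ∈ Ico u₁ u₂, n ≤ vl2 c x + s ∧ vl2 c x + s < n + H := by
      intro x hx
      rw [mem_Ico] at hx
      have h1 : V ≤ x := (Nat.le_ceil V).trans (by exact_mod_cast hx.1)
      have h2 : (x : ℝ) < U := Nat.lt_ceil.mp hx.2
      have h3 : (N : ℝ) ≤ (x : ℝ) ^ c := by
        rw [← hVc]
        exact Real.rpow_le_rpow hV0 h1 hc0.le
      have h4 : (x : ℝ) ^ c < N + H := by
        rw [← hUc]
        exact Real.rpow_lt_rpow (Nat.cast_nonneg x) h2 hc0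
      have h5 : N ≤ vl2 c x := Nat.le_floor h3
      have h6 : vl2 c x < N + H := by
        have h7 : (vl2 c x : ℝ) ≤ (x : ℝ) ^ c := Nat.floor_le (by positivity)
        have h8 : (vl2 c x : ℝ) < ((N + H : ℕ) : ℝ) := by
          push_cast
          linarith
        exact_mod_cast h8
      omega
    have hlow : ∀ x ∈ Ico u₁ u₂, w x ≤ ∑ h ∈ range H,
        if vl2 c x + s = n + h then w x else 0 := by
      intro x hx
      obtain ⟨c1, c2⟩ := hcond x hx
      have hmem : vl2 c x + s - n ∈ range H := by rw [mem_range]; omega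
      have h1 := single_le_sum (s := range H)
        (f := fun h => if vl2 c x + s = n + h then w x else 0)
        (fun h _ => by
          split_ifs
          · exact hw x
          · exact le_rfl) hmem
      refine le_trans ?_ h1
      rw [if_pos (by omega)]
    have hsub : Ico u₁ u₂ ⊆ Ico Z (4 * Z) := by
      intro x hx
      rw [mem_Ico] at hx ⊢
      omega
    have h1 : ∑ x ∈ Ico u₁ u₂, w x ≤ ∑ x ∈ Ico Z (4 * Z), ∑ h ∈ range H,
        if vl2 c x + s = n + h then w x else 0 := by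
      refine (sum_le_sum hlow).trans ?_
      apply sum_le_sum_of_subset_of_nonneg hsub
      intro x _ _
      apply sum_nonneg
      intro h _
      split_ifs
      · exact hw x
      · exact le_rfl
    refine le_trans ?_ h1
    rw [sum_Ico_eq_sum_range]
    have h2 := (abs_le.mp (hwin u₁ (u₂ - u₁) hZu (by omega))).1
    have h3 : ((u₂ - u₁ : ℕ) : ℝ) = u₂ - u₁ := Nat.cast_sub h12
    have h4 : U ≤ u₂ := Nat.le_ceil U
    have h5 : (u₁ : ℝ) < V + 1 := Nat.ceil_lt_add_one hV0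
    linarith
  calc (B.card : ℝ) * (H / (c * (4 * (Z : ℝ)) ^ (c - 1)) - 1 - E) =
      ∑ y ∈ B, (H / (c * (4 * (Z : ℝ)) ^ (c - 1)) - 1 - E) := by
        simp only [sum_const, nsmul_eq_mul]
    _ ≤ _ := sum_le_sum fun y hy => hkey y hy

/-- the box of lists of primes -/
def PB : ℕ → (ℕ → ℕ) → Finset (List ℕ)
  | 0, _ => {[]}
  | m + 1, t => (((Ico (t 0) (2 * t 0)).filter Nat.Prime) ×ˢ PB m (fun i => t (i + 1))).map
      ⟨fun p => p.1 :: p.2, fun p q h => by
        simp only [List.cons.injEq] at h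
        exact Prod.ext h.1 h.2⟩

lemma mem_PB_succ {m : ℕ} {t : ℕ → ℕ} {x : List ℕ} : x ∈ PB (m + 1) t ↔
    ∃ n z, (n ∈ Ico (t 0) (2 * t 0) ∧ n.Prime) ∧ z ∈ PB m (fun i => t (i + 1)) ∧ x = n :: z := by
  rw [PB, Finset.mem_map]
  constructor
  · rintro ⟨⟨n, z⟩, h1, rfl⟩
    rw [mem_product, mem_filter] at h1
    exact ⟨n, z, h1.1, h1.2, rfl⟩
  · rintro ⟨n, z, h1, h2, rfl⟩
    exact ⟨(n, z), mem_product.mpr ⟨mem_filter.mpr h1, h2⟩, rfl⟩

lemma PB_sub (m : ℕ) (t : ℕ → ℕ) : PB m t ⊆ Bx m t := by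
  induction m generalizing t with
  | zero => simp [PB, Bx]
  | succ m ih =>
    intro x hx
    obtain ⟨n, z, h1, h2, rfl⟩ := mem_PB_succ.mp hx
    exact mem_Bx_succ.mpr ⟨n, z, h1.1, ih _ h2, rfl⟩

lemma PB_prime {m : ℕ} {t : ℕ → ℕ} {x : List ℕ} (hx : x ∈ PB m t) : ∀ p ∈ x, p.Prime := by
  induction m generalizing t x with
  | zero =>
    rw [PB, mem_singleton] at hx
    subst hx
    simp
  | succ m ih =>
    obtain ⟨n, z, h1, h2, rfl⟩ := mem_PB_succ.mp hx
    intro p hp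
    rcases List.mem_cons.mp hp with rfl | hp
    · exact h1.2
    · exact ih h2 p hp

lemma card_PB {η : ℝ} {T₀ : ℕ} (h : ∀ T : ℕ, T₀ ≤ T →
    (T : ℝ) ^ (1 - η) ≤ (((Ico T (2 * T)).filter Nat.Prime).card : ℝ)) (m : ℕ) (t : ℕ → ℕ)
    (ht : ∀ j < m, T₀ ≤ t j) : ∏ j ∈ range m, (t j : ℝ) ^ (1 - η) ≤ ((PB m t).card : ℝ) := by
  induction m generalizing t with
  | zero => simp [PB]
  | succ m ih =>
    rw [PB, card_map, card_product, prod_range_succ', Nat.cast_mul, mul_comm]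
    exact mul_le_mul (h _ (ht 0 (by omega))) (ih _ fun j hj => ht (j + 1) (by omega))
      (prod_nonneg fun j _ => by positivity) (Nat.cast_nonneg _)

/-- the number of lists of primes in the box -/
lemma PB_large {ρ : ℝ} (hρ0 : 0 < ρ) (hρ1 : ρ < 1) (m : ℕ) {ε : ℝ} (hε : 0 < ε) (hε1 : ε ≤ 1) :
    ∀ᶠ x : ℝ in atTop, ∏ j ∈ range m, (tt ρ x j : ℝ) ≤
      ((PB m (tt ρ x)).card : ℝ) * x ^ (m * ε) := by
  obtain ⟨x₀, hx₀⟩ := eventually_atTop.mp (Pool.Agent.H170R2.PC.dyadic_primes hε hε1)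
  set T₀ : ℕ := ⌈x₀⌉₊ with hT₀
  have hprime : ∀ T : ℕ, T₀ ≤ T →
      (T : ℝ) ^ (1 - ε) ≤ (((Ico T (2 * T)).filter Nat.Prime).card : ℝ) := by
    intro T hT
    have h1 : x₀ ≤ T := (Nat.le_ceil x₀).trans (by exact_mod_cast hT)
    apply hx₀ T h1
    intro p hp h2 h3
    rw [mem_filter, mem_Ico]
    exact ⟨⟨by exact_mod_cast h2, by exact_mod_cast h3⟩, hp⟩
  have e1 : ∀ᶠ x : ℝ in atTop, ∀ j ∈ range m, (T₀ : ℝ) + 1 ≤ x ^ (ρ ^ j) := by
    rw [Filter.eventually_all_finset]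
    intro j _
    exact (tendsto_rpow_atTop (pow_pos hρ0 j)).eventually_ge_atTop _
  filter_upwards [e1, eventually_ge_atTop (1 : ℝ)] with x g1 g2
  have hx0 : 0 < x := by linarith
  have ht : ∀ j < m, T₀ ≤ tt ρ x j := by
    intro j hj
    have h1 := g1 j (mem_range.mpr hj)
    apply Nat.le_floor
    linarith
  have h1 := card_PB hprime m (tt ρ x) ht
  have h2 : ∏ j ∈ range m, (tt ρ x j : ℝ) ≤
      (∏ j ∈ range m, (tt ρ x j : ℝ) ^ (1 - ε)) * x ^ (m * ε) := by
    have h3 : x ^ (m * ε) = ∏ j ∈ range m, x ^ ε := by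
      rw [prod_const, card_range, ← Real.rpow_natCast, ← Real.rpow_mul hx0.le, mul_comm]
    rw [h3, ← prod_mul_distrib]
    apply Finset.prod_le_prod
    · intro j _
      exact Nat.cast_nonneg _
    · intro j _
      obtain ⟨k1, k2⟩ := tt_le hρ0.le hρ1.le g2 j
      have k3 : (0 : ℝ) < tt ρ x j := by exact_mod_cast k2
      calc (tt ρ x j : ℝ) = (tt ρ x j : ℝ) ^ (1 - ε) * (tt ρ x j : ℝ) ^ ε := by
            rw [← Real.rpow_add k3]
            conv_lhs => rw [← Real.rpow_one (tt ρ x j : ℝ)]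
            congr 1
            ring
        _ ≤ _ := by
            apply mul_le_mul_of_nonneg_left _ (by positivity)
            exact Real.rpow_le_rpow k3.le k1 hε.le
  exact h2.trans (mul_le_mul_of_nonneg_right h1 (by positivity))

lemma NN_mono {ι : Type*} {B B' : Finset ι} (h : B' ⊆ B) (S : ι → ℕ) : NN B' S ≤ NN B S := by
  unfold NN
  calc ∑ y ∈ B', ∑ z ∈ B', (if S y = S z then (1 : ℝ) else 0) ≤
      ∑ y ∈ B', ∑ z ∈ B, (if S y = S z then (1 : ℝ) else 0) := by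
        apply sum_le_sum
        intro y _
        apply sum_le_sum_of_subset_of_nonneg h
        intro z _ _
        split_ifs <;> norm_num
    _ ≤ _ := by
        apply sum_le_sum_of_subset_of_nonneg h
        intro y _ _
        apply sum_nonneg
        intro z _
        split_ifs <;> norm_num

lemma exists_of_R1_pos {I : Finset ℕ} {v : ℕ → ℕ} {w : ℕ → ℝ} {B : Finset (List ℕ)}
    {S : List ℕ → ℕ} {n : ℕ} (h : 0 < R1 I v w B S n) :
    ∃ x ∈ I, ∃ y ∈ B, v x + S y = n := by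
  by_contra hcon
  push Not at hcon
  have : R1 I v w B S n = 0 := by
    unfold R1
    apply sum_eq_zero
    intro x hx
    apply sum_eq_zero
    intro y hy
    rw [if_neg (hcon x hx y hy)]
  linarith

end Pool.Agent.K7.H60.WE
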