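import Pool.Agent.K7.H60.WE.Mt
import Pool.Agent.K7.H60.WE.Fi

set_option autoImplicit false

/-! # Waring's problem with a random exponent: the number of exceptional integers in a block -/

namespace Pool.Agent.K7.H60.WE

open Finset Filter MeasureTheory

lemma errA {Z m a b c s₁ P Pm T N : ℝ} (hZ : 1 ≤ Z) (hm : 1 ≤ m) (ha : 1 < a)
    (hcb : c ≤ b) (hba : b - a ≤ s₁ / 32) (hT : Z / (16 * m) ≤ T) (hPm0 : 0 ≤ Pm)
    (hPm : Pm ≤ P * Z ^ (s₁ / 64)) (hN : N < Pm ^ 2 / T ^ a * Z ^ (s₁ / 32)) :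
    4 * (Z ^ (1 - s₁ / 8)) ^ 2 * N ≤
      4 * (16 * m) ^ a * (P ^ 2 * Z ^ (2 - c - 5 * s₁ / 32)) := by
  have hZ0 : 0 < Z := by linarith
  have h1 : Pm ^ 2 / T ^ a ≤ (P * Z ^ (s₁ / 64)) ^ 2 * ((16 * m) ^ a * Z ^ (-a)) := by
    rw [div_eq_mul_inv]
    have h2 : (Z / (16 * m)) ^ a ≤ T ^ a :=
      Real.rpow_le_rpow (by positivity) hT (by linarith)
    have h3 : (T ^ a)⁻¹ ≤ ((Z / (16 * m)) ^ a)⁻¹ := inv_anti₀ (by positivity) h2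
    have h4 : ((Z / (16 * m)) ^ a)⁻¹ = (16 * m) ^ a * Z ^ (-a) := by
      rw [Real.div_rpow hZ0.le (by positivity), inv_div, Real.rpow_neg hZ0.le]
      rfl
    rw [← h4]
    have hT0 : 0 ≤ (T ^ a)⁻¹ := by
      have : 0 < T := lt_of_lt_of_le (by positivity) hT
      positivity
    exact mul_le_mul (pow_le_pow_left₀ hPm0 hPm 2) h3 hT0 (by positivity)
  have h4 : N ≤ (P * Z ^ (s₁ / 64)) ^ 2 * ((16 * m) ^ a * Z ^ (-a)) * Z ^ (s₁ / 32) :=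
    hN.le.trans (mul_le_mul_of_nonneg_right h1 (by positivity))
  have h5 : (Z ^ (1 - s₁ / 8)) ^ 2 * (Z ^ (s₁ / 64)) ^ 2 * Z ^ (-a) * Z ^ (s₁ / 32) ≤
      Z ^ (2 - c - 5 * s₁ / 32) := by
    rw [← Real.rpow_natCast, ← Real.rpow_natCast, ← Real.rpow_mul hZ0.le, ← Real.rpow_mul hZ0.le,
      ← Real.rpow_add hZ0, ← Real.rpow_add hZ0, ← Real.rpow_add hZ0]
    apply Real.rpow_le_rpow_of_exponent_le hZ
    push_cast
    linarith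
  calc 4 * (Z ^ (1 - s₁ / 8)) ^ 2 * N ≤
      4 * (Z ^ (1 - s₁ / 8)) ^ 2 *
        ((P * Z ^ (s₁ / 64)) ^ 2 * ((16 * m) ^ a * Z ^ (-a)) * Z ^ (s₁ / 32)) :=
        mul_le_mul_of_nonneg_left h4 (by positivity)
    _ = 4 * (16 * m) ^ a * (P ^ 2 * ((Z ^ (1 - s₁ / 8)) ^ 2 * (Z ^ (s₁ / 64)) ^ 2 * Z ^ (-a) *
        Z ^ (s₁ / 32))) := by ring
    _ ≤ _ := by
        apply mul_le_mul_of_nonneg_left _ (by positivity)
        exact mul_le_mul_of_nonneg_left h5 (by positivity)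

lemma errB {Z c s₁ s₂ P W H : ℝ} (hZ : 1 ≤ Z) (hW0 : 0 ≤ W) (hW : W ≤ 4 * Z) (hH0 : 0 ≤ H)
    (hP : 0 ≤ P) (hH : H ≤ 2 * Z ^ (c - s₂ / 4)) (hs : s₁ ≤ s₂) (hs0 : 0 < s₁) :
    (W * P * (2 * Real.pi * H * Z ^ (s₂ / 16 - c))) ^ 2 * (2 * Z ^ (s₂ / 16 - c)) ≤
      512 * Real.pi ^ 2 * (P ^ 2 * Z ^ (2 - c - 5 * s₁ / 32)) := by
  have hZ0 : 0 < Z := by linarith
  have hpi := Real.pi_pos
  have h5 : (Z * (Z ^ (c - s₂ / 4) * Z ^ (s₂ / 16 - c))) ^ 2 * Z ^ (s₂ / 16 - c) ≤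
      Z ^ (2 - c - 5 * s₁ / 32) := by
    have e1 : Z * (Z ^ (c - s₂ / 4) * Z ^ (s₂ / 16 - c)) = Z ^ (1 - 3 * s₂ / 16) := by
      rw [← Real.rpow_add hZ0]
      conv_lhs => rw [← Real.rpow_one Z]
      rw [← Real.rpow_mul hZ0.le, ← Real.rpow_add hZ0]
      congr 1
      ring
    rw [e1, ← Real.rpow_natCast, ← Real.rpow_mul hZ0.le, ← Real.rpow_add hZ0]
    apply Real.rpow_le_rpow_of_exponent_le hZ
    push_cast
    linarith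
  set u := Z ^ (s₂ / 16 - c) with hu
  have hu0 : 0 ≤ u := by positivity
  set v := Z ^ (c - s₂ / 4) with hv
  have hv0 : 0 ≤ v := by positivity
  clear_value u v
  calc (W * P * (2 * Real.pi * H * u)) ^ 2 * (2 * u) ≤
      ((4 * Z) * P * (2 * Real.pi * (2 * v) * u)) ^ 2 * (2 * u) := by gcongr
    _ = 512 * Real.pi ^ 2 * (P ^ 2 * ((Z * (v * u)) ^ 2 * u)) := by ring
    _ ≤ _ := by
        apply mul_le_mul_of_nonneg_left _ (by positivity)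
        exact mul_le_mul_of_nonneg_left h5 (by positivity)

/-- the number of exceptional integers in a block -/
lemma scale_cnt {k m Z : ℕ} {a b c ρ : ℝ} (hm : 1 ≤ m) (ha : 1 < a) (hca : a ≤ c) (hcb : c ≤ b)
    (hbk : b < k + 1) (hρ0 : 0 < ρ) (hρ1 : ρ < 1) (hZ : 1 ≤ Z) {s₁ s₂ c₂ : ℝ}
    (hs₁ : 0 < s₁) (hs₁₂ : s₁ ≤ s₂) (hs₂' : s₂ ≤ 1 / 8) (hba : b - a ≤ s₁ / 32)
    (hc₂ : c₂ = 1 / (2 * ((k : ℝ) + 1) * 4 ^ k)) {w : ℕ → ℝ} (hw : ∀ x, 0 ≤ w x)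
    (hx1 : 1 ≤ (Z : ℝ) / (8 * m))
    (hmin : ∀ α : ℝ, |α| ≤ 1 / 2 → (Z : ℝ) ^ (s₂ / 16 - c) ≤ |α| →
      ‖TT (Ico Z (4 * Z)) (vl2 c) w α‖ ≤ (Z : ℝ) ^ (1 - s₁ / 8))
    (hwin : ∀ u L : ℕ, Z ≤ u → u + L ≤ 4 * Z →
      |∑ n ∈ range L, w (u + n) - L| ≤ (Z : ℝ) ^ (1 - s₂ / 2))
    (hNN : NN (Bx m (tt ρ ((Z : ℝ) / (8 * m)))) (Sx c) <
      (∏ j ∈ range m, (tt ρ ((Z : ℝ) / (8 * m)) j : ℝ)) ^ 2 /
        (tt ρ ((Z : ℝ) / (8 * m)) 0 : ℝ) ^ a * (Z : ℝ) ^ (s₁ / 32))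
    (hPB : ∏ j ∈ range m, (tt ρ ((Z : ℝ) / (8 * m)) j : ℝ) ≤
      ((PB m (tt ρ ((Z : ℝ) / (8 * m)))).card : ℝ) * (Z : ℝ) ^ (s₁ / 64))
    (n1 : (Z : ℝ) ^ (1 - s₂ / 2) + 1 ≤ c₂ * (Z : ℝ) ^ (1 - s₂ / 4))
    (n2 : 2 * (2 : ℝ) ^ c * (Z : ℝ) ^ c + ((Z : ℝ) ^ (c - s₂ / 4) + 1) ≤ (4 * (Z : ℝ)) ^ c)
    (E : Finset ℕ) (hE : ∀ n ∈ E, 2 * (Z : ℝ) ^ c ≤ n ∧ (n : ℝ) < 2 * (2 : ℝ) ^ c * (Z : ℝ) ^ c ∧
      R1 (Ico Z (4 * Z)) (vl2 c) w (PB m (tt ρ ((Z : ℝ) / (8 * m)))) (Sx c) n ≤ 0) :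
    (E.card : ℝ) ≤ (4 * (16 * m : ℝ) ^ a + 512 * Real.pi ^ 2) / c₂ ^ 2 *
      (Z : ℝ) ^ (c - 5 * s₁ / 32) := by
  have hc1 : 1 ≤ c := by linarith
  have hZr : (1 : ℝ) ≤ Z := by exact_mod_cast hZ
  have hZ0 : (0 : ℝ) < Z := by linarith
  have hmr : (1 : ℝ) ≤ m := by exact_mod_cast hm
  have hk0 : (0 : ℝ) ≤ k := Nat.cast_nonneg k
  have hc₂0 : 0 < c₂ := by rw [hc₂]; positivity
  have hs₂ : 0 < s₂ := by linarith
  set x : ℝ := (Z : ℝ) / (8 * m) with hx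
  set B := PB m (tt ρ x) with hB
  set Pm : ℝ := ∏ j ∈ range m, (tt ρ x j : ℝ) with hPm
  have hPm1 : 1 ≤ Pm := by
    rw [hPm]
    have : ∏ j ∈ range m, (1 : ℝ) ≤ ∏ j ∈ range m, (tt ρ x j : ℝ) := by
      apply Finset.prod_le_prod (fun _ _ => by norm_num)
      intro j _
      exact_mod_cast (tt_le hρ0.le hρ1.le hx1 j).2
    simpa using this
  set P : ℝ := (B.card : ℝ) with hP
  have hP0 : 0 < P := by
    have h1 : 0 < P * (Z : ℝ) ^ (s₁ / 64) := by linarith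
    have h2 : 0 < (Z : ℝ) ^ (s₁ / 64) := Real.rpow_pos_of_pos hZ0 _
    exact (pos_iff_pos_of_mul_pos h1).mpr h2
  -- the values of the other variables
  have hS : ∀ y ∈ B, (Sx c y : ℝ) ≤ (Z : ℝ) ^ c / 4 := by
    intro y hy
    refine (Sx_le c y).1.trans ?_
    refine (Fc_le (T := x) (by linarith) (fun j => (tt_le hρ0.le hρ1.le hx1 j).1)
      (PB_sub _ _ hy)).trans ?_
    have e1 : 2 * x = (Z : ℝ) * (1 / (4 * m)) := by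
      rw [hx]
      field_simp
      ring
    rw [e1, Real.mul_rpow hZ0.le (by positivity)]
    have h2 : (1 / (4 * m) : ℝ) ^ c ≤ 1 / (4 * m) := by
      conv_rhs => rw [← Real.rpow_one (1 / (4 * m) : ℝ)]
      apply Real.rpow_le_rpow_of_exponent_ge (by positivity) _ hc1
      rw [div_le_one (by positivity)]
      linarith
    have h3 : 0 < (Z : ℝ) ^ c := Real.rpow_pos_of_pos hZ0 c
    calc (m : ℝ) * ((Z : ℝ) ^ c * (1 / (4 * m)) ^ c) ≤ m * ((Z : ℝ) ^ c * (1 / (4 * m))) := by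
          gcongr
      _ = _ := by field_simp
  -- the window
  set H : ℕ := ⌈(Z : ℝ) ^ (c - s₂ / 4)⌉₊ with hH
  have hY1 : 1 ≤ (Z : ℝ) ^ (c - s₂ / 4) := Real.one_le_rpow hZr (by linarith)
  have hHge : (Z : ℝ) ^ (c - s₂ / 4) ≤ H := Nat.le_ceil _
  have hHlt : (H : ℝ) < (Z : ℝ) ^ (c - s₂ / 4) + 1 := Nat.ceil_lt_add_one (by linarith)
  have hHle : (H : ℝ) ≤ 2 * (Z : ℝ) ^ (c - s₂ / 4) := by linarith
  have hH0 : (0 : ℝ) < H := by linarith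
  have hH1 : 1 ≤ H := by
    have : 0 < H := by exact_mod_cast hH0
    omega
  have hc4 : c * (4 * (Z : ℝ)) ^ (c - 1) ≤ (1 / (2 * c₂)) * (Z : ℝ) ^ (c - 1) := by
    have e1 : 1 / (2 * c₂) = ((k : ℝ) + 1) * 4 ^ k := by
      rw [hc₂]
      field_simp
    rw [e1, Real.mul_rpow (by norm_num) hZ0.le, ← mul_assoc]
    apply mul_le_mul_of_nonneg_right _ (by positivity)
    apply mul_le_mul (by linarith) _ (by positivity) (by positivity)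
    rw [← Real.rpow_natCast]
    apply Real.rpow_le_rpow_of_exponent_le (by norm_num)
    linarith
  have hsw : ∑ x ∈ Ico Z (4 * Z), w x ≤ 4 * Z := by
    rw [sum_Ico_eq_sum_range]
    have h1 := (abs_le.mp (hwin Z (4 * Z - Z) le_rfl (by omega))).2
    have h2 : ((4 * Z - Z : ℕ) : ℝ) = 3 * Z := by
      rw [Nat.cast_sub (by omega)]
      push_cast
      ring
    rw [h2] at h1
    have h3 : (Z : ℝ) ^ (1 - s₂ / 2) ≤ Z := by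
      conv_rhs => rw [← Real.rpow_one (Z : ℝ)]
      exact Real.rpow_le_rpow_of_exponent_le hZr (by linarith)
    linarith
  have hsw0 : 0 ≤ ∑ x ∈ Ico Z (4 * Z), w x := sum_nonneg fun x _ => hw x
  have ht0 : (Z : ℝ) / (16 * m) ≤ tt ρ x 0 := by
    rw [tt_zero]
    have h1 := (floor_half hx1).1
    refine le_trans (le_of_eq ?_) h1
    rw [hx]
    field_simp
    ring
  -- lower bound for every exceptional integer
  have hlow : ∀ n ∈ E, (c₂ * (P * (Z : ℝ) ^ (1 - c))) ^ 2 ≤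
      ((∑ h ∈ range H, R1 (Ico Z (4 * Z)) (vl2 c) w B (Sx c) (n + h)) / H -
        R1 (Ico Z (4 * Z)) (vl2 c) w B (Sx c) n) ^ 2 := by
    intro n hn
    obtain ⟨hn1, hn2, hn3⟩ := hE n hn
    have hl := avg_lower1 hZ hc1 hw hwin B (Sx c) hS n H hn1 (by linarith)
    set A : ℝ := ∑ h ∈ range H, R1 (Ico Z (4 * Z)) (vl2 c) w B (Sx c) (n + h) with hA
    rw [← hP, ← Real.sq_sqrt hP0.le] at hl
    have hAlow := low1 hZr hc₂0 hHge (mul_pos (by linarith)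
      (Real.rpow_pos_of_pos (by linarith) _)) hc4 n1 hl
    rw [Real.sq_sqrt hP0.le] at hAlow
    have hAH : c₂ * (P * (Z : ℝ) ^ (1 - c)) ≤ A / H := by
      rw [le_div_iff₀ hH0]
      calc c₂ * (P * (Z : ℝ) ^ (1 - c)) * H = P * (c₂ * H * (Z : ℝ) ^ (1 - c)) := by ring
        _ ≤ A := hAlow
    have hpos : 0 ≤ c₂ * (P * (Z : ℝ) ^ (1 - c)) :=
      mul_nonneg hc₂0.le (mul_nonneg hP0.le (Real.rpow_nonneg hZ0.le _))
    exact pow_le_pow_left₀ hpos (by linarith) 2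
  have hsum := Finset.sum_le_sum hlow
  rw [sum_const, nsmul_eq_mul] at hsum
  have hcirc := circle2 (Ico Z (4 * Z)) (vl2 c) w B (Sx c) (fun x _ => hw x) E H hH1
    ((Z : ℝ) ^ (s₂ / 16 - c)) ((Z : ℝ) ^ (1 - s₁ / 8)) (Real.rpow_nonneg hZ0.le _)
    (Real.rpow_nonneg hZ0.le _) hmin
  have hNN' : NN B (Sx c) < Pm ^ 2 / (tt ρ x 0 : ℝ) ^ a * (Z : ℝ) ^ (s₁ / 32) :=
    lt_of_le_of_lt (NN_mono (PB_sub _ _) _) hNN
  have herr1 := errA hZr hmr ha hcb hba ht0 (by linarith) hPB hNN'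
  have herr2 := errB (c := c) hZr hsw0 hsw hH0.le hP0.le hHle hs₁₂ hs₁
  rw [← hP] at hcirc
  have htot : (E.card : ℝ) * (c₂ * (P * (Z : ℝ) ^ (1 - c))) ^ 2 ≤
      (4 * (16 * m : ℝ) ^ a + 512 * Real.pi ^ 2) * (P ^ 2 * (Z : ℝ) ^ (2 - c - 5 * s₁ / 32)) := by
    have := hsum.trans hcirc
    rw [add_mul]
    linarith
  have hsq : (c₂ * (P * (Z : ℝ) ^ (1 - c))) ^ 2 = c₂ ^ 2 * P ^ 2 * (Z : ℝ) ^ (2 - 2 * c) := by
    rw [mul_pow, mul_pow, ← Real.rpow_natCast ((Z : ℝ) ^ (1 - c)), ← Real.rpow_mul hZ0.le]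
    push_cast
    rw [show (1 - c) * 2 = 2 - 2 * c by ring]
    ring
  rw [hsq] at htot
  have hZ2 : (Z : ℝ) ^ (2 - c - 5 * s₁ / 32) =
      (Z : ℝ) ^ (c - 5 * s₁ / 32) * (Z : ℝ) ^ (2 - 2 * c) := by
    rw [← Real.rpow_add hZ0]
    congr 1
    ring
  rw [hZ2] at htot
  have hD : 0 < P ^ 2 * (Z : ℝ) ^ (2 - 2 * c) :=
    mul_pos (pow_pos hP0 2) (Real.rpow_pos_of_pos hZ0 _)
  rw [div_mul_eq_mul_div, le_div_iff₀ (pow_pos hc₂0 2)]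
  refine le_of_mul_le_mul_right ?_ hD
  calc (E.card : ℝ) * c₂ ^ 2 * (P ^ 2 * (Z : ℝ) ^ (2 - 2 * c)) =
      (E.card : ℝ) * (c₂ ^ 2 * P ^ 2 * (Z : ℝ) ^ (2 - 2 * c)) := by ring
    _ ≤ _ := htot
    _ = _ := by ring

end Pool.Agent.K7.H60.WE
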