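import Pool.Agent.K7.H60.WE.Bd

set_option autoImplicit false

/-! # Waring's problem with a random exponent: the mean value in the exponent

`Bx m t` is the set of the lists of `m` numbers `x_i` with `t_i ≤ x_i < 2 t_i`.  If the `t_i` decrease
suitably, the mean value over `c ∈ [a, b]` of the number of the pairs of lists with
`|∑ (x_i ^ c - y_i ^ c)| < M` is at most `(b - a) P + 8 M m (1 + log t_0) P² t_0 ^ (-a)`, `P = ∏ t_i`. -/

namespace Pool.Agent.K7.H60.WE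

open Finset MeasureTheory

/-- the sum of the powers -/
noncomputable def Fc (x : List ℕ) (c : ℝ) : ℝ := (x.map fun n : ℕ => (n : ℝ) ^ c).sum

/-- its derivative -/
noncomputable def Fd (x : List ℕ) (c : ℝ) : ℝ := (x.map fun n : ℕ => (n : ℝ) ^ c * Real.log n).sum

lemma Fc_nil (c : ℝ) : Fc [] c = 0 := by simp [Fc]
lemma Fd_nil (c : ℝ) : Fd [] c = 0 := by simp [Fd]
lemma Fc_cons (n : ℕ) (x : List ℕ) (c : ℝ) : Fc (n :: x) c = (n : ℝ) ^ c + Fc x c := by simp [Fc]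
lemma Fd_cons (n : ℕ) (x : List ℕ) (c : ℝ) :
    Fd (n :: x) c = (n : ℝ) ^ c * Real.log n + Fd x c := by simp [Fd]

lemma Fc_der (x : List ℕ) (hx : ∀ n ∈ x, 0 < n) (c : ℝ) : HasDerivAt (Fc x) (Fd x c) c := by
  induction x with
  | nil =>
    have e1 : Fc [] = fun _ => (0 : ℝ) := by funext c; exact Fc_nil c
    rw [e1, Fd_nil]
    exact hasDerivAt_const c 0
  | cons n x ih =>
    have h1 := ih (fun k hk => hx k (List.mem_cons_of_mem n hk))
    have hn : (0 : ℝ) < n := by exact_mod_cast hx n List.mem_cons_self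
    have h2 : HasDerivAt (fun c : ℝ => (n : ℝ) ^ c) ((n : ℝ) ^ c * Real.log n) c := by
      have := (hasDerivAt_id c).const_rpow hn
      simpa [mul_comm] using this
    have e1 : Fc (n :: x) = fun c => (n : ℝ) ^ c + Fc x c := by funext c; exact Fc_cons n x c
    rw [e1, Fd_cons]
    exact h2.add h1

/-- the box -/
def Bx : ℕ → (ℕ → ℕ) → Finset (List ℕ)
  | 0, _ => {[]}
  | m + 1, t => (Ico (t 0) (2 * t 0) ×ˢ Bx m (fun i => t (i + 1))).map
      ⟨fun p => p.1 :: p.2, fun p q h => by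
        simp only [List.cons.injEq] at h
        exact Prod.ext h.1 h.2⟩

lemma sum_Bx_succ {β : Type*} [AddCommMonoid β] (m : ℕ) (t : ℕ → ℕ) (g : List ℕ → β) :
    ∑ x ∈ Bx (m + 1) t, g x =
      ∑ n ∈ Ico (t 0) (2 * t 0), ∑ z ∈ Bx m (fun i => t (i + 1)), g (n :: z) := by
  rw [Bx, sum_map, sum_product]
  rfl

lemma mem_Bx_succ {m : ℕ} {t : ℕ → ℕ} {x : List ℕ} : x ∈ Bx (m + 1) t ↔
    ∃ n z, n ∈ Ico (t 0) (2 * t 0) ∧ z ∈ Bx m (fun i => t (i + 1)) ∧ x = n :: z := by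
  rw [Bx, mem_map]
  constructor
  · rintro ⟨p, hp, rfl⟩
    rw [mem_product] at hp
    exact ⟨p.1, p.2, hp.1, hp.2, rfl⟩
  · rintro ⟨n, z, h1, h2, rfl⟩
    exact ⟨(n, z), mem_product.mpr ⟨h1, h2⟩, rfl⟩

lemma card_Bx (m : ℕ) (t : ℕ → ℕ) : (Bx m t).card = ∏ i ∈ range m, t i := by
  induction m generalizing t with
  | zero => simp [Bx]
  | succ m ih =>
    rw [Bx, card_map, card_product, ih, prod_range_succ', Nat.card_Ico]
    rw [mul_comm]
    congr 1
    omega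

lemma len_Bx {m : ℕ} {t : ℕ → ℕ} {x : List ℕ} (hx : x ∈ Bx m t) : x.length = m := by
  induction m generalizing t x with
  | zero =>
    rw [Bx, mem_singleton] at hx
    simp [hx]
  | succ m ih =>
    obtain ⟨n, z, _, h2, rfl⟩ := mem_Bx_succ.mp hx
    simp [ih h2]

/-- bound for the tail -/
noncomputable def tl (b : ℝ) : ℕ → (ℕ → ℕ) → ℝ
  | 0, _ => 0
  | m + 1, t => (2 * (t 0 : ℝ)) ^ b * (1 + Real.log (2 * (t 0 : ℝ))) + tl b m (fun i => t (i + 1))

/-- the conditions on the scales -/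
def Good (a b M : ℝ) : ℕ → (ℕ → ℕ) → Prop
  | 0, t => 1 ≤ t 0
  | m + 1, t => 1 ≤ t 0 ∧ Real.log (2 * (t 1 : ℝ)) + 2 ≤ Real.log (t 0) ∧
      (M + 2 * tl b (m - 1) (fun i => t (i + 2))) * (Real.log (2 * (t 1 : ℝ)) + 2) ≤
        (1 / 2) * (t 0 : ℝ) ^ (a - 1) ∧ (t 0 : ℝ) ^ (a - 1) ≤ (t 1 : ℝ) ^ a ∧
      Good a b M m (fun i => t (i + 1))

lemma Good.pos {a b M : ℝ} {m : ℕ} {t : ℕ → ℕ} (h : Good a b M m t) : 1 ≤ t 0 := by
  cases m with
  | zero => exact h
  | succ m => exact h.1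

lemma Bx_pos {a b M : ℝ} {m : ℕ} {t : ℕ → ℕ} (h : Good a b M m t) {x : List ℕ}
    (hx : x ∈ Bx m t) : ∀ n ∈ x, 0 < n := by
  induction m generalizing t x with
  | zero =>
    rw [Bx, mem_singleton] at hx
    simp [hx]
  | succ m ih =>
    obtain ⟨n, z, h1, h2, rfl⟩ := mem_Bx_succ.mp hx
    intro k hk
    rcases List.mem_cons.mp hk with rfl | hk
    · have := h.1
      rw [mem_Ico] at h1
      omega
    · exact ih h.2.2.2.2 h2 k hk

lemma tl_bound {a b M : ℝ} {m : ℕ} {t : ℕ → ℕ} (h : Good a b M m t) {x : List ℕ}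
    (hx : x ∈ Bx m t) {c : ℝ} (hc : 0 ≤ c) (hcb : c ≤ b) :
    0 ≤ Fc x c ∧ Fc x c ≤ tl b m t ∧ 0 ≤ Fd x c ∧ Fd x c ≤ tl b m t := by
  induction m generalizing t x with
  | zero =>
    rw [Bx, mem_singleton] at hx
    subst hx
    simp [Fc_nil, Fd_nil, tl]
  | succ m ih =>
    obtain ⟨n, z, h1, h2, rfl⟩ := mem_Bx_succ.mp hx
    obtain ⟨i1, i2, i3, i4⟩ := ih h.2.2.2.2 h2
    rw [Fc_cons, Fd_cons, tl]
    rw [mem_Ico] at h1
    have ht0 : (1 : ℝ) ≤ t 0 := by exact_mod_cast h.1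
    have hn1 : (t 0 : ℝ) ≤ n := by exact_mod_cast h1.1
    have hn2 : (n : ℝ) ≤ 2 * t 0 := by exact_mod_cast h1.2.le
    have hlog : 0 ≤ Real.log n := Real.log_nonneg (by linarith)
    have hlog2 : Real.log n ≤ Real.log (2 * (t 0 : ℝ)) := Real.log_le_log (by linarith) hn2
    have hp : (n : ℝ) ^ c ≤ (2 * (t 0 : ℝ)) ^ b := by
      calc (n : ℝ) ^ c ≤ (2 * (t 0 : ℝ)) ^ c := Real.rpow_le_rpow (by linarith) hn2 hc
        _ ≤ _ := Real.rpow_le_rpow_of_exponent_le (by linarith) hcb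
    have hp0 : 0 ≤ (n : ℝ) ^ c := by positivity
    have hq0 : 0 ≤ (2 * (t 0 : ℝ)) ^ b := by positivity
    have m1 : (n : ℝ) ^ c * Real.log n ≤ (2 * (t 0 : ℝ)) ^ b * Real.log (2 * (t 0 : ℝ)) :=
      mul_le_mul hp hlog2 hlog hq0
    have m0 : 0 ≤ (n : ℝ) ^ c * Real.log n := mul_nonneg hp0 hlog
    have m2 : 0 ≤ (2 * (t 0 : ℝ)) ^ b * Real.log (2 * (t 0 : ℝ)) :=
      mul_nonneg hq0 (by linarith)
    have e : (2 * (t 0 : ℝ)) ^ b * (1 + Real.log (2 * (t 0 : ℝ))) =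
      (2 * (t 0 : ℝ)) ^ b + (2 * (t 0 : ℝ)) ^ b * Real.log (2 * (t 0 : ℝ)) := by ring
    rw [e]
    refine ⟨by linarith, by linarith, by linarith, by linarith⟩

/-- the measure of the band for two lists with different first elements -/
lemma step_measure {a b M : ℝ} (ha : 1 ≤ a) {m : ℕ} {t : ℕ → ℕ}
    (h : Good a b M (m + 1) t) {n n' : ℕ} {z z' : List ℕ} (hn : n ∈ Ico (t 0) (2 * t 0))
    (hn' : n' ∈ Ico (t 0) (2 * t 0)) (hlt : n' < n) (hz : z ∈ Bx m (fun i => t (i + 1)))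
    (hz' : z' ∈ Bx m (fun i => t (i + 1))) :
    volume {c ∈ Set.Icc a b | |Fc (n :: z) c - Fc (n' :: z') c| < M} ≤
      ENNReal.ofReal (4 * M / ((t 0 : ℝ) ^ (a - 1) * ((n : ℝ) - n'))) := by
  obtain ⟨g1, g2, g3, _, g5⟩ := h
  rw [mem_Ico] at hn hn'
  have ht0 : (1 : ℝ) ≤ t 0 := by exact_mod_cast g1
  have ht1 : (1 : ℝ) ≤ t 1 := by exact_mod_cast g5.pos
  have hnn : (1 : ℝ) ≤ (n : ℝ) - n' := by
    have : ((n' + 1 : ℕ) : ℝ) ≤ n := by exact_mod_cast hlt
    push_cast at this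
    linarith
  have hT0 : 0 < (t 0 : ℝ) ^ (a - 1) := Real.rpow_pos_of_pos (by linarith) _
  have hT : (t 0 : ℝ) ^ (a - 1) ≤ (t 0 : ℝ) ^ (a - 1) * ((n : ℝ) - n') := by nlinarith
  have hpos1 : ∀ k ∈ n :: z, 0 < k := by
    intro k hk
    rcases List.mem_cons.mp hk with rfl | hk
    · omega
    · exact Bx_pos g5 hz k hk
  have hpos2 : ∀ k ∈ n' :: z', 0 < k := by
    intro k hk
    rcases List.mem_cons.mp hk with rfl | hk
    · omega
    · exact Bx_pos g5 hz' k hk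
  have hmain := band_measure (f := fun c => Fc (n :: z) c - Fc (n' :: z') c)
    (f' := fun c => Fd (n :: z) c - Fd (n' :: z') c) (a := a) (b := b) (M := M)
    (D := (1 / 2) * ((t 0 : ℝ) ^ (a - 1) * ((n : ℝ) - n'))) (by positivity)
    (fun c _ => (Fc_der _ hpos1 c).sub (Fc_der _ hpos2 c)) (by
      intro c hc hf
      simp only [Fc_cons, Fd_cons] at hf ⊢
      have hlog : 0 ≤ Real.log (2 * (t 1 : ℝ)) := Real.log_nonneg (by linarith)
      cases m with
      | zero =>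
        rw [Bx, mem_singleton] at hz hz'
        subst hz hz'
        have := step_deriv (x₀ := n) (y₀ := n') (x₁ := t 1) (y₁ := t 1) (t₀ := t 0) (t₁ := t 1)
          (a := a) (c := c) (M := M) (R := 0) (h := 0) (h' := 0) ht0 ht1 ha hc.1
          (by exact_mod_cast hn'.1) (by exact_mod_cast hlt) le_rfl le_rfl (by linarith) g2
          (by simp) (by simp) (by
            have e1 : tl b (0 - 1) (fun i => t (i + 2)) = 0 := by simp [tl]
            rw [e1] at g3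
            nlinarith) (by
            simp only [Fc_nil] at hf
            convert hf using 2
            ring)
        simp only [Fd_nil]
        linarith
      | succ m =>
        obtain ⟨k, w, hk, hw, rfl⟩ := mem_Bx_succ.mp hz
        obtain ⟨k', w', hk', hw', rfl⟩ := mem_Bx_succ.mp hz'
        rw [mem_Ico] at hk hk'
        simp only [Fc_cons, Fd_cons] at hf ⊢
        have gg := g5.2.2.2.2
        have hc0 : 0 ≤ c := by linarith [hc.1]
        obtain ⟨b1, b2, b3, b4⟩ := tl_bound gg hw hc0 hc.2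
        obtain ⟨b1', b2', b3', b4'⟩ := tl_bound gg hw' hc0 hc.2
        have := step_deriv (x₀ := n) (y₀ := n') (x₁ := k) (y₁ := k') (t₀ := t 0) (t₁ := t 1)
          (a := a) (c := c) (M := M) (R := tl b m (fun i => t (i + 2)))
          (h := Fc w c - Fc w' c) (h' := Fd w c - Fd w' c) ht0 ht1 ha hc.1
          (by exact_mod_cast hn'.1) (by exact_mod_cast hlt) (by exact_mod_cast hk.1)
          (by exact_mod_cast hk'.1) (by exact_mod_cast hk'.2.le) g2
          (abs_le.mpr ⟨by linarith, by linarith⟩) (abs_le.mpr ⟨by linarith, by linarith⟩) (by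
            have e1 : m + 1 - 1 = m := by omega
            rw [e1] at g3
            linarith) (by
            convert hf using 2
            ring)
        linarith)
  refine hmain.trans (le_of_eq ?_)
  congr 1
  field_simp
  ring

end Pool.Agent.K7.H60.WE
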