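import Pool.Agent.K7.H60.WE.Mu

set_option autoImplicit false

/-! # Waring's problem with a random exponent: almost all integers, exponents in a short interval -/

namespace Pool.Agent.K7.H60.WE

open Finset Filter MeasureTheory

open scoped Classical

/-- representations by one natural number and `m` primes -/
def Rep (m : ℕ) (c : ℝ) (n : ℕ) : Prop := ∃ x : ℕ, 0 < x ∧ ∃ y : List ℕ, y.length = m ∧
  (∀ p ∈ y, p.Prime) ∧ vl2 c x + Sx c y = n

/-- summation over the blocks -/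
lemma blocks {good : ℕ → Prop} {c κ₁ C₁ : ℝ} (hc : 1 < c) (hκ : 0 < κ₁) (hκ1 : κ₁ < 1)
    (hC : 0 ≤ C₁) {i₁ : ℕ} (h : ∀ j : ℕ, i₁ ≤ j → ∀ E : Finset ℕ,
      (∀ n ∈ E, 2 * ((2 : ℝ) ^ c) ^ j ≤ n ∧ (n : ℝ) < 2 * ((2 : ℝ) ^ c) ^ (j + 1) ∧ ¬ good n) →
      (E.card : ℝ) ≤ C₁ * ((2 : ℝ) ^ j) ^ (c - κ₁)) :
    ∃ κ : ℝ, 0 < κ ∧ ∃ N₀ : ℕ, ∀ N : ℕ, N₀ ≤ N →
      (((range N).filter (fun n => ¬ good n)).card : ℝ) ≤ (N : ℝ) ^ (1 - κ) := by
  set y : ℝ := (2 : ℝ) ^ c with hy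
  have hy1 : 1 < y := Real.one_lt_rpow (by norm_num) (by linarith)
  have hy0 : 0 < y := by linarith
  set r : ℝ := (2 : ℝ) ^ (c - κ₁) with hr
  have hr1 : 1 < r := Real.one_lt_rpow (by norm_num) (by linarith)
  set f : ℕ → ℝ := fun j => (((range ⌈2 * y ^ j⌉₊).filter (fun n => ¬ good n)).card : ℝ) with hf
  have hrj : ∀ j : ℕ, ((2 : ℝ) ^ j) ^ (c - κ₁) = r ^ j := by
    intro j
    rw [hr, ← Real.rpow_natCast, ← Real.rpow_natCast, ← Real.rpow_mul (by norm_num),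
      ← Real.rpow_mul (by norm_num), mul_comm]
  have hstep : ∀ j : ℕ, i₁ ≤ j → f (j + 1) ≤ f j + C₁ * r ^ j := by
    intro j hj
    set E : Finset ℕ := (range ⌈2 * y ^ (j + 1)⌉₊).filter
      (fun n : ℕ => 2 * y ^ j ≤ (n : ℝ) ∧ ¬ good n) with hE
    have h1 := h j hj E (by
      intro n hn
      rw [hE, mem_filter, mem_range] at hn
      exact ⟨hn.2.1, Nat.lt_ceil.mp hn.1, hn.2.2⟩)
    rw [hrj] at h1
    have h2 : (range ⌈2 * y ^ (j + 1)⌉₊).filter (fun n => ¬ good n) ⊆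
        (range ⌈2 * y ^ j⌉₊).filter (fun n => ¬ good n) ∪ E := by
      intro n hn
      rw [mem_filter, mem_range] at hn
      rw [mem_union, mem_filter, mem_range, hE, mem_filter, mem_range]
      by_cases hc2 : 2 * y ^ j ≤ (n : ℝ)
      · exact Or.inr ⟨hn.1, hc2, hn.2⟩
      · exact Or.inl ⟨Nat.lt_ceil.mpr (not_le.mp hc2), hn.2⟩
    have h3 : (((range ⌈2 * y ^ (j + 1)⌉₊).filter (fun n => ¬ good n)).card : ℝ) ≤
        (((range ⌈2 * y ^ j⌉₊).filter (fun n => ¬ good n)).card : ℝ) + E.card := by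
      exact_mod_cast (card_le_card h2).trans (card_union_le _ _)
    rw [hf]
    simp only
    linarith
  set K : ℝ := f i₁ with hK
  have hK0 : 0 ≤ K := Nat.cast_nonneg _
  set D : ℝ := C₁ / (r - 1) with hD
  have hD0 : 0 ≤ D := div_nonneg hC (by linarith)
  have hind : ∀ j : ℕ, i₁ ≤ j → f j ≤ K + D * r ^ j := by
    intro j hj
    induction j, hj using Nat.le_induction with
    | base =>
      have : 0 ≤ D * r ^ i₁ := by positivity
      linarith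
    | succ j hj ih =>
      have h1 := hstep j hj
      have h2 : D * r ^ (j + 1) = D * r ^ j + C₁ * r ^ j := by
        rw [hD, pow_succ]
        have : r - 1 ≠ 0 := by linarith
        field_simp
        ring
      linarith
  set κ₂ : ℝ := κ₁ / c with hκ₂
  have hκ₂0 : 0 < κ₂ := by positivity
  have hκ₂1 : κ₂ < 1 := by
    rw [hκ₂, div_lt_one (by linarith)]
    linarith
  have hev : ∀ᶠ x : ℝ in atTop, K + D * r * x ^ (1 - κ₂) ≤ x ^ (1 - κ₂ / 2) := by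
    filter_upwards [(tendsto_rpow_atTop (show (0 : ℝ) < κ₂ / 2 by positivity)).eventually_ge_atTop
      (K + D * r), eventually_ge_atTop (1 : ℝ)] with x g1 g2
    have hx0 : 0 < x := by linarith
    have g3 : 1 ≤ x ^ (1 - κ₂) := Real.one_le_rpow g2 (by linarith)
    have g4 : x ^ (1 - κ₂ / 2) = x ^ (κ₂ / 2) * x ^ (1 - κ₂) := by
      rw [← Real.rpow_add hx0]
      congr 1
      ring
    rw [g4]
    calc K + D * r * x ^ (1 - κ₂) ≤ K * x ^ (1 - κ₂) + D * r * x ^ (1 - κ₂) := by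
          have : K * 1 ≤ K * x ^ (1 - κ₂) := mul_le_mul_of_nonneg_left g3 hK0
          linarith
      _ = (K + D * r) * x ^ (1 - κ₂) := by ring
      _ ≤ _ := mul_le_mul_of_nonneg_right g1 (by linarith)
  obtain ⟨x₀, hx₀⟩ := eventually_atTop.mp hev
  refine ⟨κ₂ / 2, by positivity, ⌈x₀⌉₊ + ⌈2 * y ^ i₁⌉₊ + 2, ?_⟩
  intro N hN
  have hN1 : x₀ ≤ N := (Nat.le_ceil x₀).trans (by
    have : ⌈x₀⌉₊ ≤ N := by omega
    exact_mod_cast this)
  have hN2 : 2 * y ^ i₁ ≤ N := (Nat.le_ceil _).trans (by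
    have : ⌈2 * y ^ i₁⌉₊ ≤ N := by omega
    exact_mod_cast this)
  have hN3 : (1 : ℝ) ≤ (N : ℝ) / 2 := by
    have : (2 : ℝ) ≤ N := by
      have : 2 ≤ N := by omega
      exact_mod_cast this
    linarith
  obtain ⟨j, hj1, hj2⟩ := exists_nat_pow_near hN3 hy1
  have hij : i₁ ≤ j := by
    by_contra hlt
    push Not at hlt
    have h5 : y ^ (j + 1) ≤ y ^ i₁ := pow_le_pow_right₀ hy1.le (by omega)
    linarith
  have h1 : (range N).filter (fun n => ¬ good n) ⊆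
      (range ⌈2 * y ^ (j + 1)⌉₊).filter (fun n => ¬ good n) := by
    intro n hn
    rw [mem_filter, mem_range] at hn ⊢
    refine ⟨?_, hn.2⟩
    apply Nat.lt_ceil.mpr
    have : (n : ℝ) < N := by exact_mod_cast hn.1
    linarith
  have h2 : (((range N).filter (fun n => ¬ good n)).card : ℝ) ≤ f (j + 1) := by
    rw [hf]
    simp only
    exact_mod_cast card_le_card h1
  have h3 := hind (j + 1) (by omega)
  have hNpos : (0 : ℝ) < N := by linarith
  have h4 : r ^ j ≤ (N : ℝ) ^ (1 - κ₂) := by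
    have e1 : r ^ j = (y ^ j) ^ (1 - κ₂) := by
      have e2 : y ^ j = ((2 : ℝ) ^ j) ^ c := by
        rw [hy, ← Real.rpow_natCast, ← Real.rpow_natCast, ← Real.rpow_mul (by norm_num),
          ← Real.rpow_mul (by norm_num), mul_comm]
      rw [← hrj, e2, ← Real.rpow_mul (by positivity)]
      congr 1
      rw [hκ₂]
      have : c ≠ 0 := by linarith
      field_simp
    rw [e1]
    apply Real.rpow_le_rpow (by positivity) _ (by linarith)
    linarith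
  calc (((range N).filter (fun n => ¬ good n)).card : ℝ) ≤ K + D * r ^ (j + 1) := h2.trans h3
    _ = K + D * r * r ^ j := by ring
    _ ≤ K + D * r * (N : ℝ) ^ (1 - κ₂) := by
        have : D * r * r ^ j ≤ D * r * (N : ℝ) ^ (1 - κ₂) :=
          mul_le_mul_of_nonneg_left h4 (by positivity)
        linarith
    _ ≤ _ := hx₀ N hN1

theorem local_main1 {k : ℕ} {a b ρ : ℝ} {m : ℕ} (hm : 1 ≤ m) (hka : (k : ℝ) < a) (ha : 1 < a)
    (hab : a ≤ b) (hbk : b < k + 1) (hρ0 : 0 < ρ) (hρ1 : ρ < 1)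
    (h1 : ρ ^ 2 * b < a - 1) (h2 : a - 1 < ρ * a) (h3 : a < ∑ j ∈ range m, ρ ^ j)
    (hba : b - a ≤ sv k (sv k 1 / 16) / 32) :
    ∀ᵐ c : ℝ, c ∈ Set.Icc a b → ∃ κ : ℝ, 0 < κ ∧ ∃ N₀ : ℕ, ∀ N : ℕ, N₀ ≤ N →
      (((range N).filter (fun n => ¬ Rep m c n)).card : ℝ) ≤ (N : ℝ) ^ (1 - κ) := by
  set s₂ : ℝ := sv k 1 with hs₂
  set s₁ : ℝ := sv k (s₂ / 16) with hs₁
  have hs₂0 : 0 < s₂ := sv_pos k one_pos
  have hs₂8 : s₂ ≤ 1 / 8 := by simpa using sv_le k one_pos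
  have hs₁0 : 0 < s₁ := sv_pos k (by positivity)
  have hs₁₂ : s₁ ≤ s₂ := by
    have := sv_le k (σ := s₂ / 16) (by positivity)
    linarith
  obtain ⟨X₀, hX₀⟩ := floorT k (s₂ / 16) (by positivity) (by linarith) a b hka ha.le hbk
  have hmr : (1 : ℝ) ≤ m := by exact_mod_cast hm
  -- the number of lists of primes
  set ε : ℝ := s₁ / (64 * m) with hε
  have hε0 : 0 < ε := by positivity
  have hε1 : ε ≤ 1 := by
    rw [hε, div_le_one (by positivity)]
    linarith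
  have hmε : (m : ℝ) * ε = s₁ / 64 := by
    rw [hε]
    field_simp
  have hPB := (xi_tendsto hm).eventually (PB_large hρ0 hρ1 m hε0 hε1)
  filter_upwards [bc ha hab hρ0 hρ1 h1 h2 hm h3 (show 0 < s₁ / 32 by positivity)] with c hc hcI
  have hc' := hc hcI
  obtain ⟨hca, hcb⟩ := hcI
  set c₂ : ℝ := 1 / (2 * ((k : ℝ) + 1) * 4 ^ k) with hc₂
  have hc₂0 : 0 < c₂ := by positivity
  have h2t : Tendsto (fun i : ℕ => ((2 : ℝ) ^ i)) atTop atTop :=
    tendsto_pow_atTop_atTop_of_one_lt (by norm_num)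
  have q1 : ∀ᶠ x : ℝ in atTop, x ^ (1 - s₂ / 2) + 1 ≤ c₂ * x ^ (1 - s₂ / 4) := by
    filter_upwards [(tendsto_rpow_atTop (show (0 : ℝ) < s₂ / 4 by positivity)).eventually_ge_atTop
      (2 / c₂), eventually_ge_atTop (1 : ℝ)] with x g1 g2
    have hx0 : 0 < x := by linarith
    have g3 : 1 ≤ x ^ (1 - s₂ / 2) := Real.one_le_rpow g2 (by linarith)
    have g4 : x ^ (1 - s₂ / 4) = x ^ (1 - s₂ / 2) * x ^ (s₂ / 4) := by
      rw [← Real.rpow_add hx0]
      congr 1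
      ring
    rw [g4]
    rw [div_le_iff₀ hc₂0] at g1
    nlinarith
  have q2 : ∀ᶠ x : ℝ in atTop, 2 * (2 : ℝ) ^ c * x ^ c + (x ^ (c - s₂ / 4) + 1) ≤ (4 * x) ^ c := by
    set η : ℝ := (2 : ℝ) ^ c * ((2 : ℝ) ^ c - 2) with hη
    have hη0 : 0 < η := by
      have : (2 : ℝ) < (2 : ℝ) ^ c := by
        conv_lhs => rw [← Real.rpow_one (2 : ℝ)]
        exact Real.rpow_lt_rpow_of_exponent_lt (by norm_num) (by linarith)
      have h5 : (0 : ℝ) < (2 : ℝ) ^ c := by positivity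
      rw [hη]
      apply mul_pos h5 (by linarith)
    filter_upwards [neg_pow_small 2 (s₂ / 4) η (by positivity) hη0, eventually_ge_atTop (1 : ℝ)]
      with x g1 g2
    have hx0 : 0 < x := by linarith
    have hxc : 0 < x ^ c := Real.rpow_pos_of_pos hx0 c
    have g3 : 1 ≤ x ^ (c - s₂ / 4) := Real.one_le_rpow g2 (by linarith)
    have g4 : x ^ (c - s₂ / 4) = x ^ c * x ^ (-(s₂ / 4)) := by
      rw [← Real.rpow_add hx0]
      congr 1
    have g50 : (4 : ℝ) ^ c = (2 : ℝ) ^ c * (2 : ℝ) ^ c := by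
      rw [← Real.mul_rpow (by norm_num) (by norm_num)]
      norm_num
    have g5 : (4 * x) ^ c = (2 : ℝ) ^ c * (2 : ℝ) ^ c * x ^ c := by
      rw [Real.mul_rpow (by norm_num) hx0.le, g50]
    rw [g5]
    have g6 : 2 * x ^ (c - s₂ / 4) ≤ η * x ^ c := by
      rw [g4]
      nlinarith
    rw [hη] at g6
    linarith
  have q5 := (xi_tendsto hm).eventually (eventually_ge_atTop (1 : ℝ))
  have hall := (hc'.and (q5.and hPB)).and ((h2t.eventually (q1.and (q2.and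
    (eventually_ge_atTop X₀)))))
  obtain ⟨i₁, hi₁⟩ := eventually_atTop.mp hall
  refine blocks (c := c) (κ₁ := 5 * s₁ / 32)
    (C₁ := (4 * (16 * m : ℝ) ^ a + 512 * Real.pi ^ 2) / c₂ ^ 2) (by linarith) (by positivity)
    (by linarith) (by positivity) (i₁ := i₁) ?_
  intro j hij E hE
  obtain ⟨⟨g1, g2, g8⟩, g3, g4, g7⟩ := hi₁ j hij
  have hZcast : ((2 ^ j : ℕ) : ℝ) = (2 : ℝ) ^ j := by push_cast; rfl
  have hZc : ((2 ^ j : ℕ) : ℝ) ^ c = ((2 : ℝ) ^ c) ^ j := by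
    rw [hZcast, ← Real.rpow_natCast, ← Real.rpow_natCast, ← Real.rpow_mul (by norm_num),
      ← Real.rpow_mul (by norm_num), mul_comm]
  have hxi : xi m j = ((2 ^ j : ℕ) : ℝ) / (8 * m) := by
    rw [hZcast]
    rfl
  have hxile : xi m j ≤ ((2 ^ j : ℕ) : ℝ) := by
    rw [hxi]
    apply div_le_self (by positivity)
    linarith
  have hPB' : ∏ i ∈ range m, (tt ρ (((2 ^ j : ℕ) : ℝ) / (8 * m)) i : ℝ) ≤
      ((PB m (tt ρ (((2 ^ j : ℕ) : ℝ) / (8 * m)))).card : ℝ) * ((2 ^ j : ℕ) : ℝ) ^ (s₁ / 64) := by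
    rw [← hxi]
    refine g8.trans ?_
    apply mul_le_mul_of_nonneg_left _ (Nat.cast_nonneg _)
    rw [hmε]
    exact Real.rpow_le_rpow (by linarith) hxile (by positivity)
  obtain ⟨f1, f2⟩ := hX₀ (2 ^ j) (by rw [hZcast]; exact g7) c ⟨hca, hcb⟩
  rw [hxi, ← hZcast] at g1
  rw [← hZcast]
  refine scale_cnt (k := k) (m := m) (Z := 2 ^ j) (a := a) (b := b) (c := c) (ρ := ρ)
    hm ha hca hcb hbk hρ0 hρ1 Nat.one_le_two_pow hs₁0 hs₁₂ hs₂8 hba hc₂
    (w := wt (HH k (s₂ / 16) (2 ^ j)) c) (fun x => wt_nonneg _ _ _) (by rw [← hxi]; exact g2)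
    f1 f2 g1 hPB' (by rw [hZcast]; exact g3) (by rw [hZcast]; exact g4) E ?_
  intro n hn
  obtain ⟨e1, e2, e3⟩ := hE n hn
  refine ⟨by rw [hZc]; exact e1, ?_, ?_⟩
  · rw [hZc]
    have : ((2 : ℝ) ^ c) ^ (j + 1) = (2 : ℝ) ^ c * ((2 : ℝ) ^ c) ^ j := by ring
    rw [this] at e2
    linarith
  · by_contra hpos
    push Not at hpos
    apply e3
    obtain ⟨x, hx, y, hy, he⟩ := exists_of_R1_pos hpos
    refine ⟨x, ?_, y, len_Bx (PB_sub _ _ hy), PB_prime hy, he⟩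
    rw [mem_Ico] at hx
    exact lt_of_lt_of_le (by positivity) hx.1

end Pool.Agent.K7.H60.WE
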