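import Pool.Agent.Y961.JR.ExpH

set_option autoImplicit false

/-! # Waring's problem with a random exponent: the exponential sums over `β x ^ c`

For `c` in a compact subinterval of `(k, k+1)` the sums of `e (β x ^ c)` over intervals of
`[X, 4 X]` have a power saving for `X ^ (σ - c) ≤ |β| ≤ X` (van der Corput). -/

namespace Pool.Agent.K7.H60.WE

open Finset Filter
open Pool.Agent.H469R2.NK (e norm_e e_add conj_e e_zero norm_sum_neg)
open Pool.Agent.TH915.PW (Hy)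

/-- the derivatives of `β t ^ c` -/
noncomputable def pd (β c : ℝ) (m : ℕ) (t : ℝ) : ℝ := β * (∏ j ∈ range m, (c - j)) * t ^ (c - m)

lemma pd_der (β c : ℝ) (m : ℕ) (t : ℝ) (ht : 0 < t) :
    HasDerivAt (pd β c m) (pd β c (m + 1) t) t := by
  have h1 : HasDerivAt (fun t : ℝ => t ^ (c - m)) ((c - m) * t ^ (c - m - 1)) t :=
    Real.hasDerivAt_rpow_const (Or.inl ht.ne')
  have h2 := h1.const_mul (β * ∏ j ∈ range m, (c - j))
  have e1 : pd β c (m + 1) t = β * (∏ j ∈ range m, (c - j)) * ((c - m) * t ^ (c - m - 1)) := by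
    unfold pd
    rw [prod_range_succ]
    push_cast
    rw [show c - (m + 1 : ℝ) = c - m - 1 by ring]
    ring
  rw [e1]
  exact h2

/-- the product of the factors -/
lemma prod_bounds (k : ℕ) (a b c : ℝ) (ha : (k : ℝ) < a) (hb : b < k + 1) (hc : c ∈ Set.Icc a b) :
    (min (a - k) (k + 1 - b)) ^ (k + 5) ≤ ∏ j ∈ range (k + 5), (c - j) ∧
      ∏ j ∈ range (k + 5), (c - j) ≤ ((k : ℝ) + 5) ^ (k + 5) := by
  obtain ⟨h1, h2⟩ := hc
  set η : ℝ := min (a - k) (k + 1 - b) with hη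
  have hη1 : η ≤ a - k := min_le_left _ _
  have hη2 : η ≤ k + 1 - b := min_le_right _ _
  have hη0 : 0 < η := lt_min (by linarith) (by linarith)
  have hk0 : (0 : ℝ) ≤ k := Nat.cast_nonneg k
  rw [prod_range_succ, prod_range_succ, prod_range_succ, prod_range_succ]
  have hA : η ^ (k + 1) ≤ ∏ j ∈ range (k + 1), (c - j) := by
    have : η ^ (k + 1) = ∏ _j ∈ range (k + 1), η := by rw [prod_const, card_range]
    rw [this]
    apply Finset.prod_le_prod (fun _ _ => hη0.le)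
    intro j hj
    have hj' : (j : ℝ) ≤ k := by
      exact_mod_cast Nat.lt_succ_iff.mp (mem_range.mp hj)
    linarith
  have hB : ∏ j ∈ range (k + 1), (c - j) ≤ ((k : ℝ) + 5) ^ (k + 1) := by
    have : ((k : ℝ) + 5) ^ (k + 1) = ∏ _j ∈ range (k + 1), ((k : ℝ) + 5) := by
      rw [prod_const, card_range]
    rw [this]
    apply Finset.prod_le_prod
    · intro j hj
      have hj' : (j : ℝ) ≤ k := by
        exact_mod_cast Nat.lt_succ_iff.mp (mem_range.mp hj)
      linarith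
    · intro j hj
      have hj' : (0 : ℝ) ≤ j := Nat.cast_nonneg j
      linarith
  set P := ∏ j ∈ range (k + 1), (c - j) with hP
  have hP0 : 0 < P := lt_of_lt_of_le (by positivity) hA
  have q : ∀ i : ℝ, 1 ≤ i → i ≤ 4 → η ≤ (k : ℝ) + i - c ∧ (k : ℝ) + i - c ≤ k + 5 := by
    intro i hi hi'
    constructor <;> linarith
  obtain ⟨q1, q1'⟩ := q 1 le_rfl (by norm_num)
  obtain ⟨q2, q2'⟩ := q 2 (by norm_num) (by norm_num)
  obtain ⟨q3, q3'⟩ := q 3 (by norm_num) (by norm_num)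
  obtain ⟨q4, q4'⟩ := q 4 (by norm_num) (by norm_num)
  have e1 : P * (c - ((k + 1 : ℕ) : ℝ)) * (c - ((k + 1 + 1 : ℕ) : ℝ)) *
      (c - ((k + 1 + 1 + 1 : ℕ) : ℝ)) * (c - ((k + 1 + 1 + 1 + 1 : ℕ) : ℝ)) =
      P * ((k : ℝ) + 1 - c) * ((k : ℝ) + 2 - c) * ((k : ℝ) + 3 - c) * ((k : ℝ) + 4 - c) := by
    push_cast
    ring
  have e2 : k + 5 = k + 1 + 4 := by ring
  have p1 : 0 ≤ (k : ℝ) + 1 - c := by linarith
  have p2 : 0 ≤ (k : ℝ) + 2 - c := by linarith
  have p3 : 0 ≤ (k : ℝ) + 3 - c := by linarith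
  have p4 : 0 ≤ (k : ℝ) + 4 - c := by linarith
  rw [e1]
  clear_value P η
  generalize (k : ℝ) + 1 - c = r1 at *
  generalize (k : ℝ) + 2 - c = r2 at *
  generalize (k : ℝ) + 3 - c = r3 at *
  generalize (k : ℝ) + 4 - c = r4 at *
  constructor
  · calc η ^ (k + 5) = η ^ (k + 1) * η * η * η * η := by rw [e2, pow_add]; ring
      _ ≤ P * r1 * r2 * r3 * r4 := by gcongr
  · calc P * r1 * r2 * r3 * r4 ≤
        ((k : ℝ) + 5) ^ (k + 1) * ((k : ℝ) + 5) * ((k : ℝ) + 5) * ((k : ℝ) + 5) * ((k : ℝ) + 5) := by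
          gcongr
      _ = _ := by rw [e2, pow_add]; ring

/-- the saving -/
noncomputable def sv (k : ℕ) (σ : ℝ) : ℝ := σ / (8 * ((k + 4 : ℕ) : ℝ) * 2 ^ (k + 4))

lemma sv_pos (k : ℕ) {σ : ℝ} (hσ : 0 < σ) : 0 < sv k σ := by
  unfold sv
  have : (0 : ℝ) < ((k + 4 : ℕ) : ℝ) := by positivity
  positivity

lemma sv_le (k : ℕ) {σ : ℝ} (hσ : 0 < σ) : sv k σ ≤ σ / 8 := by
  unfold sv
  have h1 : (1 : ℝ) ≤ ((k + 4 : ℕ) : ℝ) := by
    have : 1 ≤ k + 4 := by omega
    exact_mod_cast this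
  have h2 : (1 : ℝ) ≤ 2 ^ (k + 4) := one_le_pow₀ (by norm_num)
  apply div_le_div_of_nonneg_left hσ.le (by norm_num)
  nlinarith

theorem point (k : ℕ) (σ : ℝ) (hσ : 0 < σ) (hσ1 : σ ≤ 1) (a b : ℝ) (ha : (k : ℝ) < a)
    (hb : b < k + 1) : ∃ X₀ : ℝ, ∀ X : ℕ, X₀ ≤ X → ∀ c ∈ Set.Icc a b, ∀ β : ℝ,
    (X : ℝ) ^ (σ - c) ≤ |β| → |β| ≤ X → ∀ (u : ℝ) (L : ℕ), (X : ℝ) ≤ u → u + L ≤ 4 * X →
    ‖∑ n ∈ range L, e (β * (u + n) ^ c)‖ ≤ (X : ℝ) ^ (1 - sv k σ) := by
  set K : ℕ := k + 4 with hK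
  set η : ℝ := min (a - k) (k + 1 - b) with hη
  by_cases hab : a ≤ b
  swap
  · exact ⟨0, fun X _ c hc => absurd (hc.1.trans hc.2) hab⟩
  have hη0 : 0 < η := lt_min (by linarith) (by linarith)
  set c₁ : ℝ := η ^ (k + 5) * (1 / 4) ^ (k + 5) with hc₁
  set c₂ : ℝ := ((k : ℝ) + 5) ^ (k + 5) with hc₂
  have hc₁0 : 0 < c₁ := by positivity
  have hc₂0 : 0 < c₂ := by positivity
  obtain ⟨X₁, hX₁⟩ := Pool.Agent.Y961.JR.core K (by omega) σ c₁ c₂ hσ hσ1 hc₁0 hc₂0
  have hs0 := sv_pos k hσ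
  have hev := (((tendsto_rpow_atTop hs0).eventually_ge_atTop 3).and
    ((eventually_ge_atTop (2 : ℝ)).and (eventually_ge_atTop X₁)))
  obtain ⟨X₂, hX₂⟩ := eventually_atTop.mp hev
  refine ⟨X₂, fun X hX c hc β hβ1 hβ2 u L hu hL => ?_⟩
  obtain ⟨g1, g2, g3⟩ := hX₂ X hX
  have hX0 : (0 : ℝ) < X := by linarith
  obtain ⟨hca, hcb⟩ := hc
  obtain ⟨pb1, pb2⟩ := prod_bounds k a b c ha hb ⟨hca, hcb⟩
  have hKr : (K : ℝ) = k + 4 := by rw [hK]; push_cast; ring
  have hβ0 : 0 < |β| := lt_of_lt_of_le (Real.rpow_pos_of_pos hX0 _) hβ1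
  set lam : ℝ := |β| * (X : ℝ) ^ (c - K - 1) with hlam
  have hlam1 : ((3 * X : ℕ) : ℝ) ^ (σ - K - 1) ≤ lam := by
    have h1 : ((3 * X : ℕ) : ℝ) ^ (σ - K - 1) ≤ (X : ℝ) ^ (σ - K - 1) := by
      apply Real.rpow_le_rpow_of_nonpos hX0
      · push_cast; linarith
      · have : (0 : ℝ) ≤ k := Nat.cast_nonneg k
        rw [hKr]; linarith
    refine h1.trans ?_
    rw [hlam]
    calc (X : ℝ) ^ (σ - K - 1) = (X : ℝ) ^ (σ - c) * (X : ℝ) ^ (c - K - 1) := by
          rw [← Real.rpow_add hX0]; congr 1; ring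
      _ ≤ _ := by gcongr
  have hlam2 : lam ≤ ((3 * X : ℕ) : ℝ) ^ (-1 : ℝ) := by
    have h1 : lam ≤ (X : ℝ) ^ (-3 : ℝ) := by
      calc lam ≤ (X : ℝ) ^ (1 : ℝ) * (X : ℝ) ^ (c - K - 1) := by
            rw [hlam, Real.rpow_one]; gcongr
        _ = (X : ℝ) ^ (1 + (c - K - 1)) := by rw [← Real.rpow_add hX0]
        _ ≤ _ := by
            apply Real.rpow_le_rpow_of_exponent_le (by linarith)
            rw [hKr]; linarith
    refine h1.trans ?_
    rw [Real.rpow_neg_one, Real.rpow_neg hX0.le]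
    apply inv_anti₀ (by push_cast; positivity)
    have : (X : ℝ) ^ (3 : ℝ) = (X : ℝ) ^ 3 := by
      rw [← Real.rpow_natCast]; norm_num
    rw [this]
    push_cast
    have h2 : 3 ≤ (X : ℝ) ^ 2 := by nlinarith
    nlinarith [mul_nonneg hX0.le (sub_nonneg.mpr h2)]
  have hφ : Hy K X (4 * X) (c₁ * lam) (c₂ * lam) (pd |β| c) := by
    refine ⟨fun m _ t ht => pd_der |β| c m t (by have := ht.1; linarith), ?_, ?_, ?_⟩
    · intro t ht
      have ht0 : 0 < t := by have := ht.1; linarith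
      have e1 : pd |β| c (K + 1) t = |β| * (∏ j ∈ range (k + 5), (c - j)) * t ^ (c - K - 1) := by
        unfold pd
        rw [show K + 1 = k + 5 by omega]
        congr 2
        rw [hKr]; push_cast; ring
      rw [e1]
      have h4 : (1 / 4 : ℝ) ^ (k + 5) * (X : ℝ) ^ (c - K - 1) ≤ t ^ (c - K - 1) := by
        have h5 : (4 * (X : ℝ)) ^ (c - K - 1) ≤ t ^ (c - K - 1) := by
          apply Real.rpow_le_rpow_of_nonpos ht0 ht.2
          rw [hKr]; linarith
        refine le_trans ?_ h5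
        rw [Real.mul_rpow (by norm_num) hX0.le]
        apply mul_le_mul_of_nonneg_right _ (by positivity)
        have h6 : (1 / 4 : ℝ) ^ (k + 5) = (4 : ℝ) ^ (-((k : ℝ) + 5)) := by
          rw [Real.rpow_neg (by norm_num), one_div, inv_pow]
          congr 1
          rw [← Real.rpow_natCast]
          push_cast
          rfl
        rw [h6]
        apply Real.rpow_le_rpow_of_exponent_le (by norm_num)
        rw [hKr]
        have : (0 : ℝ) ≤ k := Nat.cast_nonneg k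
        linarith
      calc c₁ * lam = |β| * η ^ (k + 5) * ((1 / 4 : ℝ) ^ (k + 5) * (X : ℝ) ^ (c - K - 1)) := by
            rw [hc₁, hlam]; ring
        _ ≤ _ := by
            apply mul_le_mul _ h4 (by positivity)
            · exact mul_nonneg hβ0.le (le_trans (by positivity) pb1)
            · exact mul_le_mul_of_nonneg_left pb1 hβ0.le
    · intro t ht
      have ht0 : 0 < t := by have := ht.1; linarith
      have e1 : pd |β| c (K + 1) t = |β| * (∏ j ∈ range (k + 5), (c - j)) * t ^ (c - K - 1) := by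
        unfold pd
        rw [show K + 1 = k + 5 by omega]
        congr 2
        rw [hKr]; push_cast; ring
      rw [e1]
      have h4 : t ^ (c - K - 1) ≤ (X : ℝ) ^ (c - K - 1) := by
        apply Real.rpow_le_rpow_of_nonpos hX0 ht.1
        rw [hKr]; linarith
      calc |β| * (∏ j ∈ range (k + 5), (c - j)) * t ^ (c - K - 1) ≤
          |β| * ((k : ℝ) + 5) ^ (k + 5) * (X : ℝ) ^ (c - K - 1) := by gcongr
        _ = c₂ * lam := by rw [hc₂, hlam]; ring
    · intro t ht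
      have ht0 : 0 < t := by have := ht.1; linarith
      unfold pd
      rw [show K + 2 = (k + 5) + 1 by omega, prod_range_succ]
      have h1 : c - ((k + 5 : ℕ) : ℝ) ≤ 0 := by push_cast; linarith
      have h2 : 0 ≤ ∏ j ∈ range (k + 5), (c - (j : ℝ)) := le_trans (by positivity) pb1
      have h3 : 0 ≤ t ^ (c - ((k + 5 + 1 : ℕ) : ℝ)) := by positivity
      have h5 : |β| * ((∏ j ∈ range (k + 5), (c - (j : ℝ))) * (c - ((k + 5 : ℕ) : ℝ))) ≤ 0 :=
        mul_nonpos_of_nonneg_of_nonpos hβ0.le (mul_nonpos_of_nonneg_of_nonpos h2 h1)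
      exact mul_nonpos_of_nonpos_of_nonneg h5 h3
  have hL3 : L ≤ 3 * X := by
    have : (L : ℝ) ≤ ((3 * X : ℕ) : ℝ) := by push_cast; linarith
    exact_mod_cast this
  have hmain := hX₁ (3 * X) (by push_cast; linarith) lam hlam1 hlam2 X (4 * X) (pd |β| c) hφ u L
    hL3 hu hL
  have hpos : ‖∑ n ∈ range L, e (|β| * (u + n) ^ c)‖ ≤ (X : ℝ) ^ (1 - sv k σ) := by
    have e1 : ∑ n ∈ range L, e (|β| * (u + n) ^ c) = ∑ n ∈ range L, e (pd |β| c 0 (u + n)) := by
      apply sum_congr rfl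
      intro n _
      unfold pd
      simp
    rw [e1]
    refine hmain.trans ?_
    have h1 : ((3 * X : ℕ) : ℝ) ^ (1 - σ / (4 * K * 2 ^ K)) ≤
        3 * (X : ℝ) ^ (1 - 2 * sv k σ) := by
      have h2 : σ / (4 * K * 2 ^ K) = 2 * sv k σ := by
        unfold sv
        rw [← hK]
        have : (K : ℝ) ≠ 0 := by rw [hKr]; positivity
        field_simp
        ring
      rw [h2]
      push_cast
      rw [Real.mul_rpow (by norm_num) hX0.le]
      apply mul_le_mul_of_nonneg_right _ (by positivity)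
      conv_rhs => rw [← Real.rpow_one (3 : ℝ)]
      apply Real.rpow_le_rpow_of_exponent_le (by norm_num)
      linarith
    refine h1.trans ?_
    calc 3 * (X : ℝ) ^ (1 - 2 * sv k σ) ≤ (X : ℝ) ^ (sv k σ) * (X : ℝ) ^ (1 - 2 * sv k σ) := by
          gcongr
      _ = _ := by rw [← Real.rpow_add hX0]; congr 1; ring
  rcases le_or_gt 0 β with h | h
  · rwa [abs_of_nonneg h] at hpos
  · rw [abs_of_neg h] at hpos
    have : ∑ n ∈ range L, e (β * (u + n) ^ c) = ∑ n ∈ range L, e (-(-β * (u + n) ^ c)) := by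
      apply sum_congr rfl
      intro n _
      congr 1
      ring
    rw [this, norm_sum_neg]
    exact hpos

end Pool.Agent.K7.H60.WE
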