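import Pool.Agent.K7.H60.WE.Mv

set_option autoImplicit false

/-! # Waring's problem with a random exponent: the scales `⌊x ^ (ρ ^ j)⌋` -/

namespace Pool.Agent.K7.H60.WE

open Finset Filter

/-- the scales -/
noncomputable def tt (ρ x : ℝ) (j : ℕ) : ℕ := ⌊x ^ (ρ ^ j)⌋₊

lemma tt_shift {ρ x : ℝ} (hx : 0 ≤ x) : (fun i => tt ρ x (i + 1)) = tt ρ (x ^ ρ) := by
  funext i
  unfold tt
  rw [← Real.rpow_mul hx, pow_succ, mul_comm]

lemma tt_zero (ρ x : ℝ) : tt ρ x 0 = ⌊x⌋₊ := by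
  unfold tt
  rw [pow_zero, Real.rpow_one]

lemma floor_half {y : ℝ} (hy : 1 ≤ y) : y / 2 ≤ (⌊y⌋₊ : ℝ) ∧ (⌊y⌋₊ : ℝ) ≤ y := by
  have h1 : 1 ≤ ⌊y⌋₊ := Nat.le_floor (by simpa using hy)
  have h1' : (1 : ℝ) ≤ ⌊y⌋₊ := by exact_mod_cast h1
  have h2 := Nat.lt_floor_add_one y
  exact ⟨by linarith, Nat.floor_le (by linarith)⟩

lemma tt_le {ρ x : ℝ} (hρ0 : 0 ≤ ρ) (hρ1 : ρ ≤ 1) (hx : 1 ≤ x) (j : ℕ) :
    (tt ρ x j : ℝ) ≤ x ∧ 1 ≤ tt ρ x j := by
  have h1 : (1 : ℝ) ≤ x ^ (ρ ^ j) := Real.one_le_rpow hx (by positivity)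
  have h2 : x ^ (ρ ^ j) ≤ x := by
    conv_rhs => rw [← Real.rpow_one x]
    exact Real.rpow_le_rpow_of_exponent_le hx (pow_le_one₀ hρ0 hρ1)
  refine ⟨(floor_half h1).2.trans h2, ?_⟩
  exact Nat.le_floor (by simpa using h1)

lemma tl_le {ρ b x : ℝ} (hρ0 : 0 ≤ ρ) (hρ1 : ρ ≤ 1) (hb : 0 ≤ b) (hx : 1 ≤ x) (l : ℕ) :
    tl b l (tt ρ x) ≤ l * ((2 * x) ^ b * (1 + Real.log (2 * x))) := by
  induction l generalizing x with
  | zero => simp [tl]
  | succ l ih =>
    rw [tl, tt_shift (by linarith)]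
    have hx' : 1 ≤ x ^ ρ := Real.one_le_rpow hx hρ0
    have hxx : x ^ ρ ≤ x := by
      conv_rhs => rw [← Real.rpow_one x]
      exact Real.rpow_le_rpow_of_exponent_le hx hρ1
    have h1 := ih hx'
    obtain ⟨h2, h3⟩ := tt_le hρ0 hρ1 hx 0
    have h3' : (1 : ℝ) ≤ tt ρ x 0 := by exact_mod_cast h3
    have hlog : 0 ≤ Real.log (2 * x ^ ρ) := Real.log_nonneg (by linarith)
    have hlog2 : 0 ≤ Real.log (2 * (tt ρ x 0 : ℝ)) := Real.log_nonneg (by linarith)
    have k1 : (2 * (tt ρ x 0 : ℝ)) ^ b * (1 + Real.log (2 * (tt ρ x 0 : ℝ))) ≤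
        (2 * x) ^ b * (1 + Real.log (2 * x)) := by
      gcongr
    have k2 : (2 * x ^ ρ) ^ b * (1 + Real.log (2 * x ^ ρ)) ≤ (2 * x) ^ b * (1 + Real.log (2 * x)) := by
      gcongr
    have k3 : (l : ℝ) * ((2 * x ^ ρ) ^ b * (1 + Real.log (2 * x ^ ρ))) ≤
        l * ((2 * x) ^ b * (1 + Real.log (2 * x))) := by gcongr
    push_cast
    linarith

/-- logarithms are small -/
lemma log_small (ε C : ℝ) (hε : 0 < ε) : ∀ᶠ x : ℝ in atTop, C * (1 + Real.log x) ^ 2 ≤ x ^ ε := by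
  have e1 := (isLittleO_log_rpow_atTop (show (0 : ℝ) < ε / 4 by linarith)).def
    (show (0 : ℝ) < 1 by norm_num)
  filter_upwards [e1, eventually_ge_atTop (1 : ℝ),
    (tendsto_rpow_atTop (show (0 : ℝ) < ε / 4 by linarith)).eventually_ge_atTop 1,
    (tendsto_rpow_atTop (show (0 : ℝ) < ε / 2 by linarith)).eventually_ge_atTop (4 * |C|)]
    with x h1 h2 h3 h5
  have h4 : 0 ≤ Real.log x := Real.log_nonneg h2
  rw [Real.norm_eq_abs, Real.norm_eq_abs, abs_of_nonneg h4, abs_of_nonneg (by positivity),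
    one_mul] at h1
  have hx : 0 < x := by linarith
  have h6 : (1 + Real.log x) ^ 2 ≤ 4 * x ^ (ε / 2) := by
    have h7 : 1 + Real.log x ≤ 2 * x ^ (ε / 4) := by linarith
    calc (1 + Real.log x) ^ 2 ≤ (2 * x ^ (ε / 4)) ^ 2 := pow_le_pow_left₀ (by linarith) h7 2
      _ = 4 * x ^ (ε / 2) := by
          rw [mul_pow, ← Real.rpow_natCast (x ^ (ε / 4)), ← Real.rpow_mul hx.le]
          norm_num
          congr 1
          ring
  calc C * (1 + Real.log x) ^ 2 ≤ |C| * (4 * x ^ (ε / 2)) := by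
        apply mul_le_mul (le_abs_self C) h6 (by positivity) (abs_nonneg C)
    _ = (4 * |C|) * x ^ (ε / 2) := by ring
    _ ≤ x ^ (ε / 2) * x ^ (ε / 2) := by gcongr
    _ = x ^ ε := by
        rw [← Real.rpow_add hx]
        congr 1
        ring

/-- the conditions on the scales hold for all large `x` -/
lemma good_ev {a b M ρ : ℝ} (ha : 1 < a) (hab : a ≤ b) (hM : 0 ≤ M) (hρ0 : 0 < ρ) (hρ1 : ρ < 1)
    (h1 : ρ ^ 2 * b < a - 1) (h2 : a - 1 < ρ * a) (m : ℕ) :
    ∀ᶠ x : ℝ in atTop, Good a b M m (tt ρ x) := by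
  induction m with
  | zero =>
    filter_upwards [eventually_ge_atTop (1 : ℝ)] with x hx
    exact (tt_le hρ0.le hρ1.le hx 0).2
  | succ m ih =>
    have hρt : Tendsto (fun x : ℝ => x ^ ρ) atTop atTop := tendsto_rpow_atTop hρ0
    have ih' := hρt.eventually ih
    have hb : 0 ≤ b := by linarith
    -- log separation
    have e1 : ∀ᶠ x : ℝ in atTop, 2 * Real.log 2 + 2 ≤ (1 - ρ) * Real.log x := by
      have : Tendsto (fun x : ℝ => (1 - ρ) * Real.log x) atTop atTop :=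
        Real.tendsto_log_atTop.const_mul_atTop (by linarith)
      exact this.eventually_ge_atTop _
    -- the size of the tail
    set ε : ℝ := a - 1 - ρ ^ 2 * b with hε
    have hε0 : 0 < ε := by linarith
    set C : ℝ := 2 * (2 : ℝ) ^ (a - 1) * ((M + 2 * m * 2 ^ b) * 16) with hC
    have e2 := log_small ε C hε0
    have e3 : ∀ᶠ x : ℝ in atTop, (2 : ℝ) ^ a ≤ x ^ (ρ * a - (a - 1)) :=
      (tendsto_rpow_atTop (by linarith)).eventually_ge_atTop _
    filter_upwards [ih', e1, e2, e3, eventually_ge_atTop (2 : ℝ)] with x g1 g2 g3 g4 g5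
    have hx0 : 0 < x := by linarith
    have hx1 : 1 ≤ x := by linarith
    have hxρ1 : 1 ≤ x ^ ρ := Real.one_le_rpow hx1 hρ0.le
    have ht0 : tt ρ x 0 = ⌊x⌋₊ := tt_zero ρ x
    have ht1 : tt ρ x 1 = ⌊x ^ ρ⌋₊ := by
      unfold tt
      rw [pow_one]
    obtain ⟨f1, f2⟩ := floor_half hx1
    obtain ⟨f3, f4⟩ := floor_half hxρ1
    have f3' : (1 : ℝ) ≤ ⌊x ^ ρ⌋₊ := by
      have : 1 ≤ ⌊x ^ ρ⌋₊ := Nat.le_floor (by simpa using hxρ1)
      exact_mod_cast this
    have hlogx : 0 ≤ Real.log x := Real.log_nonneg hx1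
    have hl1 : Real.log (2 * (tt ρ x 1 : ℝ)) ≤ Real.log 2 + ρ * Real.log x := by
      rw [ht1]
      calc Real.log (2 * (⌊x ^ ρ⌋₊ : ℝ)) ≤ Real.log (2 * x ^ ρ) :=
            Real.log_le_log (by linarith) (by linarith)
        _ = _ := by rw [Real.log_mul (by norm_num) (by positivity), Real.log_rpow hx0]
    have hl0 : Real.log x - Real.log 2 ≤ Real.log (tt ρ x 0) := by
      rw [ht0, ← Real.log_div hx0.ne' (by norm_num)]
      exact Real.log_le_log (by positivity) f1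
    refine ⟨(tt_le hρ0.le hρ1.le hx1 0).2, by linarith, ?_, ?_, ?_⟩
    · -- tail
      have hsh : (fun i => tt ρ x (i + 2)) = tt ρ (x ^ ρ ^ 2) := by
        have h1 := tt_shift (ρ := ρ) hx0.le
        have h2 := tt_shift (ρ := ρ) (x := x ^ ρ) (by positivity)
        rw [← Real.rpow_mul hx0.le, ← sq] at h2
        rw [← h2, ← h1]
      rw [hsh]
      set y : ℝ := x ^ ρ ^ 2 with hy
      have hy1 : 1 ≤ y := Real.one_le_rpow hx1 (by positivity)
      have hyx : y ≤ x := by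
        conv_rhs => rw [← Real.rpow_one x]
        exact Real.rpow_le_rpow_of_exponent_le hx1 (pow_le_one₀ hρ0.le hρ1.le)
      have k1 := tl_le (b := b) hρ0.le hρ1.le hb hy1 (m - 1)
      have hlog2 : Real.log 2 ≤ 1 := by
        have := Real.log_two_lt_d9
        linarith
      have k2 : Real.log (2 * y) ≤ 1 + Real.log x := by
        rw [Real.log_mul (by norm_num) (by positivity)]
        have := Real.log_le_log (by linarith) hyx
        linarith
      have hly : 0 ≤ Real.log (2 * y) := Real.log_nonneg (by linarith)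
      have k3 : (2 * y) ^ b = 2 ^ b * x ^ (ρ ^ 2 * b) := by
        rw [Real.mul_rpow (by norm_num) (by positivity), hy, ← Real.rpow_mul hx0.le]
      have hm : (((m - 1 : ℕ)) : ℝ) ≤ m := by
        have : m - 1 ≤ m := by omega
        exact_mod_cast this
      have k4 : tl b (m - 1) (tt ρ y) ≤ m * 2 ^ b * x ^ (ρ ^ 2 * b) * (2 * (1 + Real.log x)) := by
        refine k1.trans ?_
        rw [k3]
        calc (((m - 1 : ℕ)) : ℝ) * (2 ^ b * x ^ (ρ ^ 2 * b) * (1 + Real.log (2 * y))) ≤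
            m * (2 ^ b * x ^ (ρ ^ 2 * b) * (2 * (1 + Real.log x))) := by
              gcongr
              linarith
          _ = _ := by ring
      have hxe : 1 ≤ x ^ (ρ ^ 2 * b) := Real.one_le_rpow hx1 (by positivity)
      have k5 : M + 2 * tl b (m - 1) (tt ρ y) ≤
          (M + 2 * m * 2 ^ b) * x ^ (ρ ^ 2 * b) * (2 * (1 + Real.log x)) := by
        have : M ≤ M * x ^ (ρ ^ 2 * b) * (2 * (1 + Real.log x)) := by
          calc M = M * 1 * 1 := by ring
            _ ≤ M * x ^ (ρ ^ 2 * b) * (2 * (1 + Real.log x)) := by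
                gcongr
                linarith
        calc M + 2 * tl b (m - 1) (tt ρ y) ≤ M * x ^ (ρ ^ 2 * b) * (2 * (1 + Real.log x)) +
            2 * (m * 2 ^ b * x ^ (ρ ^ 2 * b) * (2 * (1 + Real.log x))) := by linarith
          _ = _ := by ring
      have k6 : Real.log (2 * (tt ρ x 1 : ℝ)) + 2 ≤ 4 * (1 + Real.log x) := by
        have : ρ * Real.log x ≤ Real.log x := by nlinarith
        linarith
      have k60 : 0 ≤ Real.log (2 * (tt ρ x 1 : ℝ)) := by
        apply Real.log_nonneg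
        rw [ht1]
        linarith
      have hR0 : 0 ≤ (M + 2 * m * 2 ^ b) * x ^ (ρ ^ 2 * b) * (2 * (1 + Real.log x)) := by positivity
      calc (M + 2 * tl b (m - 1) (tt ρ y)) * (Real.log (2 * (tt ρ x 1 : ℝ)) + 2) ≤
          ((M + 2 * m * 2 ^ b) * x ^ (ρ ^ 2 * b) * (2 * (1 + Real.log x))) *
            (4 * (1 + Real.log x)) := mul_le_mul k5 k6 (by linarith) hR0
        _ ≤ ((M + 2 * m * 2 ^ b) * 16) * (1 + Real.log x) ^ 2 * x ^ (ρ ^ 2 * b) := by
            have : 0 ≤ (M + 2 * m * 2 ^ b) * (1 + Real.log x) ^ 2 * x ^ (ρ ^ 2 * b) := by positivity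
            nlinarith
        _ = C * (1 + Real.log x) ^ 2 * x ^ (ρ ^ 2 * b) * ((1 / 2) * (1 / (2 : ℝ) ^ (a - 1))) := by
            rw [hC]
            have : (0 : ℝ) < 2 ^ (a - 1) := by positivity
            field_simp
        _ ≤ x ^ ε * x ^ (ρ ^ 2 * b) * ((1 / 2) * (1 / (2 : ℝ) ^ (a - 1))) := by gcongr
        _ = (1 / 2) * (x / 2) ^ (a - 1) := by
            rw [← Real.rpow_add hx0, hε, Real.div_rpow hx0.le (by norm_num)]
            have : a - 1 - ρ ^ 2 * b + ρ ^ 2 * b = a - 1 := by ring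
            rw [this]
            ring
        _ ≤ _ := by
            apply mul_le_mul_of_nonneg_left _ (by norm_num)
            rw [ht0]
            exact Real.rpow_le_rpow (by positivity) f1 (by linarith)
    · rw [ht0, ht1]
      calc (⌊x⌋₊ : ℝ) ^ (a - 1) ≤ x ^ (a - 1) := Real.rpow_le_rpow (by positivity) f2 (by linarith)
        _ ≤ (x ^ ρ / 2) ^ a := by
            rw [Real.div_rpow (by positivity) (by norm_num), ← Real.rpow_mul hx0.le,
              le_div_iff₀ (by positivity)]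
            calc x ^ (a - 1) * 2 ^ a ≤ x ^ (a - 1) * x ^ (ρ * a - (a - 1)) := by gcongr
              _ = x ^ (ρ * a) := by
                  rw [← Real.rpow_add hx0]
                  congr 1
                  ring
        _ ≤ _ := Real.rpow_le_rpow (by positivity) f3 (by linarith)
    · rw [tt_shift hx0.le]
      exact g1

/-- the product of the scales is large -/
lemma prod_ev {a ρ : ℝ} (hρ0 : 0 < ρ) (hρ1 : ρ < 1) (m : ℕ)
    (h3 : a < ∑ j ∈ range m, ρ ^ j) :
    ∀ᶠ x : ℝ in atTop, x ^ a ≤ ∏ j ∈ range m, (tt ρ x j : ℝ) := by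
  have e1 : ∀ᶠ x : ℝ in atTop, (2 : ℝ) ^ m ≤ x ^ (∑ j ∈ range m, ρ ^ j - a) :=
    (tendsto_rpow_atTop (by linarith)).eventually_ge_atTop _
  filter_upwards [e1, eventually_ge_atTop (1 : ℝ)] with x g1 g2
  have hx0 : 0 < x := by linarith
  have h1 : ∏ j ∈ range m, (x ^ (ρ ^ j) / 2) ≤ ∏ j ∈ range m, (tt ρ x j : ℝ) := by
    apply Finset.prod_le_prod
    · intro j _
      positivity
    · intro j _
      exact (floor_half (Real.one_le_rpow g2 (by positivity))).1
  refine le_trans ?_ h1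
  rw [prod_div_distrib, prod_const, card_range, le_div_iff₀ (by positivity)]
  have h2 : ∏ j ∈ range m, x ^ (ρ ^ j) = x ^ (∑ j ∈ range m, ρ ^ j) := by
    rw [Real.rpow_sum_of_pos hx0]
  rw [h2]
  calc x ^ a * 2 ^ m ≤ x ^ a * x ^ (∑ j ∈ range m, ρ ^ j - a) := by gcongr
    _ = _ := by
        rw [← Real.rpow_add hx0]
        congr 1
        ring

end Pool.Agent.K7.H60.WE
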